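import Pool.Agent.H526.PQ.Stm

/-!
The criterion of Daboussi-Katai-Bourgain-Sarnak-Ziegler over `K[X]` (helper685 for helper526).
-/

set_option autoImplicit false
set_option linter.all false

namespace Pool.Agent.H526.PQ.Katai

open Polynomial Finset
open scoped Classical
open Pool.Agent.H694.Typ

section base

variable {K : Type} [Field K] [Fintype K]

theorem sum_dvd {M : Type} [AddCommMonoid M] {n : ℕ} {A : K[X]} (hA : A.Monic)
    (hn : A.natDegree ≤ n) (h : K[X] → M) :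
    ∑ f ∈ (Mn K n).filter (fun f => A ∣ f), h f =
      ∑ B ∈ Mn K (n - A.natDegree), h (A * B) := by
  symm
  refine Finset.sum_bij (fun f _ => A * f) ?_ ?_ ?_ ?_
  · intro f hf
    rw [mem_Mn] at hf
    rw [Finset.mem_filter, mem_Mn]
    refine ⟨⟨hA.mul hf.1, ?_⟩, dvd_mul_right _ _⟩
    rw [hA.natDegree_mul hf.1, hf.2]
    omega
  · intro f _ f' _ hff
    exact mul_left_cancel₀ hA.ne_zero hff
  · intro f hf
    rw [Finset.mem_filter, mem_Mn] at hf
    obtain ⟨⟨hf1, hf2⟩, f', hff⟩ := hf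
    have h1 : f'.Monic := by
      rw [hff] at hf1
      exact hA.of_mul_monic_left hf1
    refine ⟨f', ?_, hff.symm⟩
    rw [mem_Mn]
    refine ⟨h1, ?_⟩
    rw [hff, hA.natDegree_mul h1] at hf2
    omega
  · intro f _
    rfl

/-- The bilinear sums. -/
theorem bilin (I : Finset K[X]) (d : ℕ) (g : K[X] → ℝ) (F : K[X] → ℂ)
    (hg : ∀ f, |g f| ≤ 1) (hF : ∀ f, ‖F f‖ ≤ 1) (E : ℝ) (hE : 0 ≤ E)
    (h : ∀ P ∈ I, ∀ Q ∈ I, P ≠ Q → |∑ B ∈ Mn K d, g (P * B) * g (Q * B)| ≤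
      (Fintype.card K : ℝ) ^ d * E) :
    ‖∑ P ∈ I, ∑ B ∈ Mn K d, F P * F B * (g (P * B) : ℂ)‖ ^ 2 ≤
      (Fintype.card K : ℝ) ^ d * ((I.card : ℝ) * (Fintype.card K : ℝ) ^ d +
        (I.card : ℝ) ^ 2 * ((Fintype.card K : ℝ) ^ d * E)) := by
  have hq := q_ge (k := K)
  have hqd : (0 : ℝ) ≤ (Fintype.card K : ℝ) ^ d := by positivity
  have e1 : ∑ P ∈ I, ∑ B ∈ Mn K d, F P * F B * (g (P * B) : ℂ) =
      ∑ B ∈ Mn K d, F B * ∑ P ∈ I, F P * (g (P * B) : ℂ) := by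
    rw [sum_comm]
    refine sum_congr rfl fun B _ => ?_
    rw [mul_sum]
    refine sum_congr rfl fun P _ => ?_
    ring
  have h1 : ‖∑ P ∈ I, ∑ B ∈ Mn K d, F P * F B * (g (P * B) : ℂ)‖ ≤
      ∑ B ∈ Mn K d, ‖∑ P ∈ I, F P * (g (P * B) : ℂ)‖ := by
    rw [e1]
    refine (norm_sum_le _ _).trans (sum_le_sum fun B _ => ?_)
    rw [norm_mul]
    exact mul_le_of_le_one_left (norm_nonneg _) (hF B)
  have h2 : (∑ B ∈ Mn K d, ‖∑ P ∈ I, F P * (g (P * B) : ℂ)‖) ^ 2 ≤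
      ((Mn K d).card : ℝ) * ∑ B ∈ Mn K d, ‖∑ P ∈ I, F P * (g (P * B) : ℂ)‖ ^ 2 :=
    sq_sum_le_card_mul_sum_sq
  have e2 : ((∑ B ∈ Mn K d, ‖∑ P ∈ I, F P * (g (P * B) : ℂ)‖ ^ 2 : ℝ) : ℂ) =
      ∑ P ∈ I, ∑ Q ∈ I, F P * (starRingEnd ℂ) (F Q) *
        ((∑ B ∈ Mn K d, g (P * B) * g (Q * B) : ℝ) : ℂ) := by
    have e3 : ∀ B ∈ Mn K d, ((‖∑ P ∈ I, F P * (g (P * B) : ℂ)‖ ^ 2 : ℝ) : ℂ) =
        ∑ P ∈ I, ∑ Q ∈ I, F P * (starRingEnd ℂ) (F Q) *
          ((g (P * B) * g (Q * B) : ℝ) : ℂ) := by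
      intro B _
      have e4 : ((‖∑ P ∈ I, F P * (g (P * B) : ℂ)‖ ^ 2 : ℝ) : ℂ) =
          (∑ P ∈ I, F P * (g (P * B) : ℂ)) *
            (starRingEnd ℂ) (∑ P ∈ I, F P * (g (P * B) : ℂ)) := by
        rw [Complex.mul_conj, Complex.normSq_eq_norm_sq]
      rw [e4, map_sum, sum_mul_sum]
      refine sum_congr rfl fun P _ => sum_congr rfl fun Q _ => ?_
      rw [map_mul, Complex.conj_ofReal]
      push_cast
      ring
    rw [Complex.ofReal_sum, sum_congr rfl e3, sum_comm]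
    refine sum_congr rfl fun P _ => ?_
    rw [sum_comm]
    refine sum_congr rfl fun Q _ => ?_
    rw [Complex.ofReal_sum, mul_sum]
  have h3 : ∑ B ∈ Mn K d, ‖∑ P ∈ I, F P * (g (P * B) : ℂ)‖ ^ 2 ≤
      ∑ P ∈ I, ∑ Q ∈ I, |∑ B ∈ Mn K d, g (P * B) * g (Q * B)| := by
    have h4 : 0 ≤ ∑ B ∈ Mn K d, ‖∑ P ∈ I, F P * (g (P * B) : ℂ)‖ ^ 2 :=
      sum_nonneg fun B _ => sq_nonneg _
    have h5 : ∑ B ∈ Mn K d, ‖∑ P ∈ I, F P * (g (P * B) : ℂ)‖ ^ 2 =
        ‖((∑ B ∈ Mn K d, ‖∑ P ∈ I, F P * (g (P * B) : ℂ)‖ ^ 2 : ℝ) : ℂ)‖ := by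
      rw [Complex.norm_real, Real.norm_of_nonneg h4]
    rw [h5, e2]
    refine (norm_sum_le _ _).trans (sum_le_sum fun P _ => ?_)
    refine (norm_sum_le _ _).trans (sum_le_sum fun Q _ => ?_)
    rw [norm_mul, norm_mul, Complex.norm_real, Real.norm_eq_abs, RCLike.norm_conj]
    have h6 : ‖F P‖ * ‖F Q‖ ≤ 1 := mul_le_one₀ (hF P) (norm_nonneg _) (hF Q)
    exact mul_le_of_le_one_left (abs_nonneg _) h6
  have h7 : ∑ P ∈ I, ∑ Q ∈ I, |∑ B ∈ Mn K d, g (P * B) * g (Q * B)| ≤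
      (I.card : ℝ) * (Fintype.card K : ℝ) ^ d +
        (I.card : ℝ) ^ 2 * ((Fintype.card K : ℝ) ^ d * E) := by
    have h8 : ∀ P ∈ I, ∑ Q ∈ I, |∑ B ∈ Mn K d, g (P * B) * g (Q * B)| ≤
        (Fintype.card K : ℝ) ^ d + (I.card : ℝ) * ((Fintype.card K : ℝ) ^ d * E) := by
      intro P hP
      have h9 : ∀ Q ∈ I, |∑ B ∈ Mn K d, g (P * B) * g (Q * B)| ≤
          (if Q = P then (Fintype.card K : ℝ) ^ d else 0) + (Fintype.card K : ℝ) ^ d * E := by
        intro Q hQ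
        by_cases hPQ : Q = P
        · rw [if_pos hPQ]
          have h10 : |∑ B ∈ Mn K d, g (P * B) * g (Q * B)| ≤ (Fintype.card K : ℝ) ^ d := by
            refine (abs_sum_le_sum_abs _ _).trans ?_
            refine (sum_le_sum fun B _ => ?_).trans (?_ : ∑ B ∈ Mn K d, (1 : ℝ) ≤ _)
            · rw [abs_mul]
              exact mul_le_one₀ (hg _) (abs_nonneg _) (hg _)
            · rw [sum_const, card_Mn, nsmul_eq_mul, mul_one, Nat.cast_pow]
          have h11 : 0 ≤ (Fintype.card K : ℝ) ^ d * E := mul_nonneg hqd hE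
          linarith
        · rw [if_neg hPQ, zero_add]
          exact h P hP Q hQ (Ne.symm hPQ)
      refine (sum_le_sum h9).trans ?_
      rw [sum_add_distrib, sum_ite_eq' I P, if_pos hP, sum_const, nsmul_eq_mul]
    refine (sum_le_sum h8).trans ?_
    rw [sum_const, nsmul_eq_mul]
    exact le_of_eq (by ring)
  calc ‖∑ P ∈ I, ∑ B ∈ Mn K d, F P * F B * (g (P * B) : ℂ)‖ ^ 2
      ≤ (∑ B ∈ Mn K d, ‖∑ P ∈ I, F P * (g (P * B) : ℂ)‖) ^ 2 :=
        pow_le_pow_left₀ (norm_nonneg _) h1 2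
    _ ≤ ((Mn K d).card : ℝ) * ∑ B ∈ Mn K d, ‖∑ P ∈ I, F P * (g (P * B) : ℂ)‖ ^ 2 := h2
    _ = (Fintype.card K : ℝ) ^ d * ∑ B ∈ Mn K d, ‖∑ P ∈ I, F P * (g (P * B) : ℂ)‖ ^ 2 := by
        rw [card_Mn, Nat.cast_pow]
    _ ≤ _ := mul_le_mul_of_nonneg_left (h3.trans h7) hqd

/-- Variance of the number of the prime divisors. -/
theorem var {m D : ℕ} (h : 2 * D ≤ m) :
    ∑ b ∈ Mn K m, ((Xn D b : ℝ) - La K D) ^ 2 ≤ (Fintype.card K : ℝ) ^ m * La K D := by
  have e : ∀ b ∈ Mn K m, ((Xn D b : ℝ) - La K D) ^ 2 =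
      (Xn D b : ℝ) ^ 2 - 2 * La K D * Xn D b + La K D ^ 2 := fun b _ => by ring
  rw [sum_congr rfl e, sum_add_distrib, sum_sub_distrib, ← mul_sum, sum_Xn (by omega), sum_const,
    card_Mn, nsmul_eq_mul]
  have := sum_Xn_sq (k := K) h
  push_cast
  nlinarith

theorem La_nonneg (D : ℕ) : 0 ≤ La K D := sum_nonneg fun _ _ => wt_nonneg _

theorem dev {m D : ℕ} (h : 2 * D ≤ m) :
    ∑ b ∈ Mn K m, |(Xn D b : ℝ) - La K D| ≤ (Fintype.card K : ℝ) ^ m * √(La K D) := by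
  have hq := q_ge (k := K)
  have h0 : 0 ≤ ∑ b ∈ Mn K m, |(Xn D b : ℝ) - La K D| := sum_nonneg fun b _ => abs_nonneg _
  have h1 : (∑ b ∈ Mn K m, |(Xn D b : ℝ) - La K D|) ^ 2 ≤
      ((Fintype.card K : ℝ) ^ m * √(La K D)) ^ 2 := by
    calc (∑ b ∈ Mn K m, |(Xn D b : ℝ) - La K D|) ^ 2
        ≤ ((Mn K m).card : ℝ) * ∑ b ∈ Mn K m, |(Xn D b : ℝ) - La K D| ^ 2 :=
          sq_sum_le_card_mul_sum_sq
      _ = (Fintype.card K : ℝ) ^ m * ∑ b ∈ Mn K m, ((Xn D b : ℝ) - La K D) ^ 2 := by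
          rw [card_Mn, Nat.cast_pow]
          congr 1
          exact sum_congr rfl fun b _ => sq_abs _
      _ ≤ (Fintype.card K : ℝ) ^ m * ((Fintype.card K : ℝ) ^ m * La K D) :=
          mul_le_mul_of_nonneg_left (var h) (by positivity)
      _ = ((Fintype.card K : ℝ) ^ m * √(La K D)) ^ 2 := by
          rw [mul_pow, Real.sq_sqrt (La_nonneg D)]
          ring
  exact le_of_sq_le_sq₀' h1 (by positivity)
where
  le_of_sq_le_sq₀' {a b : ℝ} (h : a ^ 2 ≤ b ^ 2) (hb : 0 ≤ b) : a ≤ b := by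
    by_contra hc
    push Not at hc
    nlinarith

theorem La_one_le {D : ℕ} (hD : 1 ≤ D) : 1 ≤ La K D := by
  refine le_trans ?_ (La_mono hD)
  unfold La
  rw [sum_PU]
  rw [show Icc 1 1 = ({1} : Finset ℕ) from rfl, sum_singleton]
  have h1 : Irn K 1 = Mn K 1 := by
    ext P
    rw [mem_Irn, mem_Mn]
    constructor
    · rintro ⟨a, b, -⟩
      exact ⟨a, b⟩
    · rintro ⟨a, b⟩
      refine ⟨a, b, ?_⟩
      exact Polynomial.irreducible_of_degree_eq_one ((degree_eq_iff_natDegree_eq_of_pos one_pos).2 b)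
  rw [sum_congr rfl (fun P hP => by rw [(mem_Irn.1 hP).2.1]), sum_const, nsmul_eq_mul, h1, card_Mn]
  have hq := q_ge (k := K)
  unfold wt
  rw [Nat.cast_pow, mul_inv_cancel₀ (by positivity)]

theorem log_sum (n : ℕ) : Real.log (((4 + n : ℕ) : ℝ) / 4) ≤
    ∑ j ∈ Finset.range n, 1 / ((4 + j : ℕ) : ℝ) := by
  induction n with
  | zero => simp
  | succ n ih =>
    rw [sum_range_succ]
    have h1 : (0 : ℝ) < ((4 + n : ℕ) : ℝ) := by positivity
    have h2 : Real.log (((4 + (n + 1) : ℕ) : ℝ) / 4) =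
        Real.log (((4 + n : ℕ) : ℝ) / 4) + Real.log (1 + 1 / ((4 + n : ℕ) : ℝ)) := by
      rw [← Real.log_mul (by positivity) (by positivity)]
      congr 1
      push_cast
      field_simp
      ring
    rw [h2]
    have h3 : Real.log (1 + 1 / ((4 + n : ℕ) : ℝ)) ≤ 1 / ((4 + n : ℕ) : ℝ) := by
      have := Real.log_le_sub_one_of_pos (show (0 : ℝ) < 1 + 1 / ((4 + n : ℕ) : ℝ) by positivity)
      linarith
    linarith

theorem La_log {D : ℕ} (hD : 4 ≤ D) : Real.log (((D + 1 : ℕ) : ℝ) / 4) / 2 ≤ La K D := by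
  have h1 : ∑ j ∈ Icc 4 D, 1 / (2 * (j : ℝ)) ≤ La K D := by
    unfold La
    rw [sum_PU]
    refine le_trans (sum_le_sum fun j hj => irn_wt_ge (k := K) (mem_Icc.1 hj).1) ?_
    refine sum_le_sum_of_subset_of_nonneg (fun j hj => ?_) fun j _ _ =>
      sum_nonneg fun _ _ => wt_nonneg _
    rw [mem_Icc] at hj ⊢
    omega
  refine le_trans ?_ h1
  have h2 : ∑ j ∈ Icc 4 D, 1 / (2 * (j : ℝ)) =
      (∑ j ∈ Finset.range (D + 1 - 4), 1 / ((4 + j : ℕ) : ℝ)) / 2 := by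
    rw [show Icc 4 D = Ico 4 (D + 1) from rfl, sum_Ico_eq_sum_range, sum_div]
    refine sum_congr rfl fun j _ => ?_
    rw [div_div, mul_comm]
  rw [h2]
  have h3 := log_sum (D + 1 - 4)
  have e : 4 + (D + 1 - 4) = D + 1 := by omega
  rw [e] at h3
  linarith

/-- `W ≥ (log m) / 5`. -/
theorem La_ge {m : ℕ} (hm : 2 ≤ m) : Real.log m / 5 ≤ La K (m / 2) := by
  have h1 := La_one_le (K := K) (D := m / 2) (by omega)
  by_cases h5 : Real.log m ≤ 5
  · linarith
  · push Not at h5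
    have hm0 : (0 : ℝ) < m := by positivity
    have h8 : 8 ≤ m := by
      by_contra hc
      have h9 : (m : ℝ) ≤ 8 := by exact_mod_cast (show m ≤ 8 by omega)
      have h10 : Real.log m ≤ Real.log 8 := Real.log_le_log hm0 h9
      have h11 : Real.log 8 = 3 * Real.log 2 := by
        rw [show (8 : ℝ) = 2 ^ 3 by norm_num, Real.log_pow]
        norm_num
      have := Real.log_two_lt_d9
      linarith
    have h2 := La_log (K := K) (D := m / 2) (by omega)
    have h3 : Real.log m - Real.log 8 ≤ Real.log (((m / 2 + 1 : ℕ) : ℝ) / 4) := by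
      rw [← Real.log_div hm0.ne' (by norm_num)]
      refine Real.log_le_log (by positivity) ?_
      have h4 : (m : ℝ) ≤ 2 * ((m / 2 + 1 : ℕ) : ℝ) := by
        exact_mod_cast (show m ≤ 2 * (m / 2 + 1) by omega)
      linarith
    have h11 : Real.log 8 = 3 * Real.log 2 := by
      rw [show (8 : ℝ) = 2 ^ 3 by norm_num, Real.log_pow]
      norm_num
    have := Real.log_two_lt_d9
    linarith

/-- The sum over the multiples. -/
theorem expand (m D : ℕ) (hD : D ≤ m) (g : K[X] → ℝ) (F : K[X] → ℂ) :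
    ∑ a ∈ Mn K m, ((Xn D a : ℝ) : ℂ) * (F a * (g a : ℂ)) =
      ∑ P ∈ PU K D, ∑ B ∈ Mn K (m - P.natDegree), F (P * B) * (g (P * B) : ℂ) := by
  have e1 : ∀ a ∈ Mn K m, ((Xn D a : ℝ) : ℂ) * (F a * (g a : ℂ)) =
      ∑ P ∈ PU K D, if P ∣ a then F a * (g a : ℂ) else 0 := by
    intro a _
    rw [Xn_eq, Complex.ofReal_sum, sum_mul]
    refine sum_congr rfl fun P _ => ?_
    by_cases h : P ∣ a
    · rw [if_pos h, if_pos h, Complex.ofReal_one, one_mul]
    · rw [if_neg h, if_neg h, Complex.ofReal_zero, zero_mul]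
  rw [sum_congr rfl e1, sum_comm]
  refine sum_congr rfl fun P hP => ?_
  rw [mem_PU] at hP
  rw [← sum_filter, sum_dvd hP.1 (by omega) (fun a => F a * (g a : ℂ))]

/-- The errors from `P ∣ B`. -/
theorem errors (m D : ℕ) (hD : 2 * D ≤ m) (g : K[X] → ℝ) (F : K[X] → ℂ)
    (hg : ∀ f, |g f| ≤ 1) (hF : ∀ f, ‖F f‖ ≤ 1)
    (hmul : ∀ f h : K[X], f.Monic → h.Monic → IsCoprime f h → F (f * h) = F f * F h) :
    ‖∑ P ∈ PU K D, ∑ B ∈ Mn K (m - P.natDegree), F (P * B) * (g (P * B) : ℂ) -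
      ∑ P ∈ PU K D, ∑ B ∈ Mn K (m - P.natDegree), F P * F B * (g (P * B) : ℂ)‖ ≤
      2 * (Fintype.card K : ℝ) ^ m := by
  have hq := q_ge (k := K)
  rw [← sum_sub_distrib]
  have h1 : ∀ P ∈ PU K D, ‖∑ B ∈ Mn K (m - P.natDegree), F (P * B) * (g (P * B) : ℂ) -
      ∑ B ∈ Mn K (m - P.natDegree), F P * F B * (g (P * B) : ℂ)‖ ≤
      2 * ((Fintype.card K : ℝ) ^ m * (wt K P.natDegree * wt K P.natDegree)) := by
    intro P hP
    rw [mem_PU] at hP
    rw [← sum_sub_distrib]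
    refine (norm_sum_le _ _).trans ?_
    have h2 : ∀ B ∈ Mn K (m - P.natDegree), ‖F (P * B) * (g (P * B) : ℂ) -
        F P * F B * (g (P * B) : ℂ)‖ ≤ if P ∣ B then 2 else 0 := by
      intro B hB
      rw [mem_Mn] at hB
      by_cases h : P ∣ B
      · rw [if_pos h]
        refine (norm_sub_le _ _).trans ?_
        rw [norm_mul, norm_mul, norm_mul, Complex.norm_real, Real.norm_eq_abs]
        have h3 : ‖F (P * B)‖ * |g (P * B)| ≤ 1 := mul_le_one₀ (hF _) (abs_nonneg _) (hg _)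
        have h4 : ‖F P‖ * ‖F B‖ ≤ 1 := mul_le_one₀ (hF _) (norm_nonneg _) (hF _)
        have h5 : ‖F P‖ * ‖F B‖ * |g (P * B)| ≤ 1 := mul_le_one₀ h4 (abs_nonneg _) (hg _)
        linarith
      · rw [if_neg h, hmul P B hP.1 hB.1 (hP.2.1.coprime_iff_not_dvd.2 h), sub_self, norm_zero]
    refine (sum_le_sum h2).trans ?_
    rw [← sum_filter, sum_const, nsmul_eq_mul]
    have h3 := card_dvd_le (k := K) (n := m - P.natDegree) hP.1
    have h4 : (Fintype.card K : ℝ) ^ (m - P.natDegree) =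
        (Fintype.card K : ℝ) ^ m * wt K P.natDegree := by
      rw [wt, pow_sub₀ _ (by positivity) (by omega)]
    rw [h4] at h3
    calc (((Mn K (m - P.natDegree)).filter (fun f => P ∣ f)).card : ℝ) * 2
        ≤ ((Fintype.card K : ℝ) ^ m * wt K P.natDegree * wt K P.natDegree) * 2 := by
          gcongr
      _ = _ := by ring
  refine (norm_sum_le _ _).trans ((sum_le_sum h1).trans ?_)
  rw [← mul_sum, ← mul_sum]
  have h5 : ∑ P ∈ PU K D, wt K P.natDegree * wt K P.natDegree ≤ 1 := by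
    rw [sum_PU]
    have h6 : ∀ j ∈ Icc 1 D, ∑ P ∈ Irn K j, wt K P.natDegree * wt K P.natDegree ≤
        (1 / 2 : ℝ) ^ j := by
      intro j hj
      rw [mem_Icc] at hj
      rw [sum_congr rfl (fun P hP => by rw [(mem_Irn.1 hP).2.1]), sum_const, nsmul_eq_mul]
      have h7 : ((Irn K j).card : ℝ) ≤ (Fintype.card K : ℝ) ^ j := by
        have h8 := irn_one_le (k := K) (d := j) (by omega)
        have h9 : (Irn K j).card ≤ j * (Irn K j).card := Nat.le_mul_of_pos_left _ (by omega)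
        exact_mod_cast h9.trans h8
      have h10 := wt_le_half (k := K) j
      have h11 := wt_nonneg (k := K) j
      have h12 : (Fintype.card K : ℝ) ^ j * wt K j = 1 := by
        unfold wt
        exact mul_inv_cancel₀ (by positivity)
      calc ((Irn K j).card : ℝ) * (wt K j * wt K j) ≤
          (Fintype.card K : ℝ) ^ j * (wt K j * wt K j) := by gcongr
        _ = wt K j := by rw [← mul_assoc, h12, one_mul]
        _ ≤ _ := h10
    refine (sum_le_sum h6).trans ?_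
    have := geo_half_le 0 D
    simpa using this
  have h13 : (0 : ℝ) ≤ (Fintype.card K : ℝ) ^ m := by positivity
  nlinarith

end base

theorem exp_bound (c : ℝ) (hc : 0 < c) : ∃ C : ℝ, 0 ≤ C ∧ ∀ m : ℕ,
    (m : ℝ) * (2 : ℝ) ^ (-(c * m / 4)) ≤ C := by
  have hl := Real.log_pos (show (1 : ℝ) < 2 by norm_num)
  refine ⟨1 / (c * Real.log 2 / 4), by positivity, fun m => ?_⟩
  have ha : 0 < c * Real.log 2 / 4 := by positivity
  rw [Real.rpow_def_of_pos (by norm_num), le_div_iff₀ ha]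
  have h1 : Real.log 2 * (-(c * m / 4)) = -((c * Real.log 2 / 4) * m) := by ring
  rw [h1, Real.exp_neg]
  have h2 : (c * Real.log 2 / 4) * m ≤ Real.exp ((c * Real.log 2 / 4) * m) := by
    have := Real.add_one_le_exp ((c * Real.log 2 / 4) * m)
    linarith
  have h3 := Real.exp_pos ((c * Real.log 2 / 4) * m)
  calc (m : ℝ) * (Real.exp (c * Real.log 2 / 4 * m))⁻¹ * (c * Real.log 2 / 4)
      = ((c * Real.log 2 / 4) * m) * (Real.exp (c * Real.log 2 / 4 * m))⁻¹ := by ring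
    _ ≤ Real.exp ((c * Real.log 2 / 4) * m) * (Real.exp (c * Real.log 2 / 4 * m))⁻¹ := by
        gcongr
    _ = 1 := mul_inv_cancel₀ h3.ne'

theorem main : Pool.Agent.H526.PQ.S_katai := by
  intro K _ _ c d₀ g hc hg hyp
  obtain ⟨C₁, hC₁, hexp⟩ := exp_bound c hc
  obtain ⟨ρ, hρ0, hρ1, hρ2⟩ : ∃ ρ : ℝ, 0 ≤ ρ ∧ ρ < 1 ∧ ρ ^ 2 = 1 / 2 := by
    refine ⟨√(1 / 2), Real.sqrt_nonneg _, ?_, Real.sq_sqrt (by norm_num)⟩
    rw [Real.sqrt_lt' (by norm_num)]
    norm_num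
  have hq := q_ge (k := K)
  have hgeo : 0 ≤ (1 - ρ)⁻¹ := inv_nonneg.2 (by linarith)
  refine ⟨(1 + (2 + (1 - ρ)⁻¹ + C₁)) * √5 + √(Real.log (2 * d₀ + 2)), fun m hm F hF hmul => ?_⟩
  have hqm : (0 : ℝ) < (Fintype.card K : ℝ) ^ m := by positivity
  have hm1 : (1 : ℝ) < m := by exact_mod_cast (show 1 < m by omega)
  have hlog : 0 < Real.log m := Real.log_pos hm1
  have hsl : 0 < √(Real.log m) := Real.sqrt_pos.2 hlog
  have htriv : ‖∑ a ∈ Mn K m, F a * (g a : ℂ)‖ ≤ (Fintype.card K : ℝ) ^ m := by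
    refine (norm_sum_le _ _).trans ?_
    refine (sum_le_sum fun B _ => ?_).trans (?_ : ∑ B ∈ Mn K m, (1 : ℝ) ≤ _)
    · rw [norm_mul, Complex.norm_real, Real.norm_eq_abs]
      exact mul_le_one₀ (hF _) (abs_nonneg _) (hg _)
    · rw [sum_const, card_Mn, nsmul_eq_mul, mul_one, Nat.cast_pow]
  by_cases hmd : m < 2 * d₀
  · rw [le_div_iff₀ hsl]
    have h1 : √(Real.log m) ≤ √(Real.log (2 * d₀ + 2)) := by
      refine Real.sqrt_le_sqrt (Real.log_le_log (by linarith) ?_)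
      have : (m : ℝ) ≤ 2 * d₀ := by exact_mod_cast hmd.le
      linarith
    have h2 : 0 ≤ (1 + (2 + (1 - ρ)⁻¹ + C₁)) * √5 := by positivity
    calc ‖∑ a ∈ Mn K m, F a * (g a : ℂ)‖ * √(Real.log m)
        ≤ (Fintype.card K : ℝ) ^ m * √(Real.log (2 * d₀ + 2)) := by
          gcongr
      _ ≤ ((1 + (2 + (1 - ρ)⁻¹ + C₁)) * √5 + √(Real.log (2 * d₀ + 2))) *
          (Fintype.card K : ℝ) ^ m := by nlinarith
  · push Not at hmd
    obtain ⟨D, hDdef⟩ : ∃ D, D = m / 2 := ⟨_, rfl⟩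
    have hD2 : 2 * D ≤ m := by omega
    have hD1 : 1 ≤ D := by omega
    obtain ⟨W, hWdef⟩ : ∃ W, W = La K D := ⟨_, rfl⟩
    have hW1 : 1 ≤ W := by rw [hWdef]; exact La_one_le hD1
    have hWlog : Real.log m / 5 ≤ W := by rw [hWdef, hDdef]; exact La_ge hm
    obtain ⟨E, hEdef⟩ : ∃ E : ℝ, E = (2 : ℝ) ^ (-(c * m / 2)) := ⟨_, rfl⟩
    have hE0 : 0 ≤ E := by rw [hEdef]; positivity
    have hsE : √E = (2 : ℝ) ^ (-(c * m / 4)) := by
      rw [hEdef, Real.sqrt_eq_rpow, ← Real.rpow_mul (by norm_num)]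
      congr 1
      ring
    -- the bilinear sums
    have hT : ∀ z ∈ Icc 1 D, ‖∑ P ∈ Irn K z, ∑ B ∈ Mn K (m - z),
        F P * F B * (g (P * B) : ℂ)‖ ≤ (Fintype.card K : ℝ) ^ m * (ρ ^ z + √E) := by
      intro z hz
      rw [mem_Icc] at hz
      have h1 := bilin (Irn K z) (m - z) g F hg hF E hE0 ?_
      · have hcard : ((Irn K z).card : ℝ) ≤ (Fintype.card K : ℝ) ^ z := by
          have h8 := irn_one_le (k := K) (d := z) (by omega)
          have h9 : (Irn K z).card ≤ z * (Irn K z).card := Nat.le_mul_of_pos_left _ (by omega)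
          exact_mod_cast h9.trans h8
        have hq2 : (1 : ℝ) ≤ (Fintype.card K : ℝ) ^ z * (1 / 2) ^ z := by
          rw [← mul_pow]
          exact one_le_pow₀ (by linarith)
        have hqz : (0 : ℝ) < (Fintype.card K : ℝ) ^ z := by positivity
        have hqd : (0 : ℝ) < (Fintype.card K : ℝ) ^ (m - z) := by positivity
        have hsplit : (Fintype.card K : ℝ) ^ m =
            (Fintype.card K : ℝ) ^ z * (Fintype.card K : ℝ) ^ (m - z) := by
          rw [← pow_add]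
          congr 1
          omega
        have hcard0 : (0 : ℝ) ≤ ((Irn K z).card : ℝ) := Nat.cast_nonneg _
        have h2 : (Fintype.card K : ℝ) ^ (m - z) *
            (((Irn K z).card : ℝ) * (Fintype.card K : ℝ) ^ (m - z) +
              ((Irn K z).card : ℝ) ^ 2 * ((Fintype.card K : ℝ) ^ (m - z) * E)) ≤
            ((Fintype.card K : ℝ) ^ m) ^ 2 * ((1 / 2) ^ z + E) := by
          rw [hsplit]
          generalize (Fintype.card K : ℝ) ^ z = u at *
          generalize (Fintype.card K : ℝ) ^ (m - z) = v at *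
          generalize ((1 : ℝ) / 2) ^ z = y at *
          generalize ((Irn K z).card : ℝ) = n at *
          have h3 : n ≤ u ^ 2 * y := by
            calc n ≤ u := hcard
              _ = u * 1 := by ring
              _ ≤ u * (u * y) := by gcongr
              _ = u ^ 2 * y := by ring
          have h4 : n ^ 2 ≤ u ^ 2 := pow_le_pow_left₀ hcard0 hcard 2
          calc v * (n * v + n ^ 2 * (v * E)) = v ^ 2 * (n + n ^ 2 * E) := by ring
            _ ≤ v ^ 2 * (u ^ 2 * y + u ^ 2 * E) := by gcongr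
            _ = (u * v) ^ 2 * (y + E) := by ring
        have h5 : ((Fintype.card K : ℝ) ^ m) ^ 2 * ((1 / 2) ^ z + E) ≤
            ((Fintype.card K : ℝ) ^ m * (ρ ^ z + √E)) ^ 2 := by
          rw [mul_pow]
          refine mul_le_mul_of_nonneg_left ?_ (by positivity)
          have h6 : (ρ ^ z) ^ 2 = (1 / 2) ^ z := by
            rw [← pow_mul, mul_comm, pow_mul, hρ2]
          have h7 : √E ^ 2 = E := Real.sq_sqrt hE0
          have h8 : 0 ≤ ρ ^ z * √E := by positivity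
          nlinarith
        have h9 := h1.trans (h2.trans h5)
        have h10 : 0 ≤ (Fintype.card K : ℝ) ^ m * (ρ ^ z + √E) := by positivity
        exact abs_le_of_sq_le_sq' h9 h10 |>.2
      · intro P hP Q hQ hPQ
        rw [mem_Irn] at hP hQ
        refine (hyp (m - z) (by omega) P Q hP.1 hQ.1 hP.2.2 hQ.2.2 hPQ
          (hP.2.1.trans hQ.2.1.symm) (by rw [hP.2.1]; omega)).trans ?_
        have hq0 : (0 : ℝ) < Fintype.card K := by linarith
        rw [sub_eq_add_neg, Real.rpow_add hq0, Real.rpow_natCast]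
        refine mul_le_mul_of_nonneg_left ?_ (by positivity)
        rw [hEdef]
        have h2 : (m : ℝ) / 2 ≤ ((m - z : ℕ) : ℝ) := by
          have : (m : ℝ) ≤ 2 * ((m - z : ℕ) : ℝ) := by
            exact_mod_cast (show m ≤ 2 * (m - z) by omega)
          linarith
        have h3 : c * m / 2 ≤ c * ((m - z : ℕ) : ℝ) := by
          have := mul_le_mul_of_nonneg_left h2 hc.le
          linarith
        calc (Fintype.card K : ℝ) ^ (-(c * ((m - z : ℕ) : ℝ)))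
            ≤ (2 : ℝ) ^ (-(c * ((m - z : ℕ) : ℝ))) :=
              Real.rpow_le_rpow_of_nonpos (by norm_num) hq
                (by have : 0 ≤ c * ((m - z : ℕ) : ℝ) := by positivity
                    linarith)
          _ ≤ (2 : ℝ) ^ (-(c * m / 2)) :=
              Real.rpow_le_rpow_of_exponent_le (by norm_num) (by linarith)
    -- the sum over `PU`
    have hmainT : ‖∑ P ∈ PU K D, ∑ B ∈ Mn K (m - P.natDegree),
        F P * F B * (g (P * B) : ℂ)‖ ≤ (Fintype.card K : ℝ) ^ m * ((1 - ρ)⁻¹ + C₁) := by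
      have e1 : ∑ P ∈ PU K D, ∑ B ∈ Mn K (m - P.natDegree), F P * F B * (g (P * B) : ℂ) =
          ∑ z ∈ Icc 1 D, ∑ P ∈ Irn K z, ∑ B ∈ Mn K (m - z), F P * F B * (g (P * B) : ℂ) := by
        unfold PU
        rw [sum_biUnion]
        · refine sum_congr rfl fun z _ => sum_congr rfl fun P hP => ?_
          rw [(mem_Irn.1 hP).2.1]
        · intro a _ b _ hab
          rw [Function.onFun, Finset.disjoint_left]
          intro P hP hP'
          exact hab ((mem_Irn.1 hP).2.1.symm.trans (mem_Irn.1 hP').2.1)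
      rw [e1]
      refine (norm_sum_le _ _).trans ((sum_le_sum hT).trans ?_)
      rw [← mul_sum, sum_add_distrib, sum_const, Nat.card_Icc, nsmul_eq_mul]
      refine mul_le_mul_of_nonneg_left (add_le_add ?_ ?_) hqm.le
      · have h1 : ∑ z ∈ Icc 1 D, ρ ^ z ≤ ∑' z : ℕ, ρ ^ z :=
          (summable_geometric_of_lt_one hρ0 hρ1).sum_le_tsum _ fun z _ => pow_nonneg hρ0 z
        rwa [tsum_geometric_of_lt_one hρ0 hρ1] at h1
      · refine le_trans ?_ (hexp m)
        rw [hsE]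
        refine mul_le_mul_of_nonneg_right ?_ (by positivity)
        exact_mod_cast (show D + 1 - 1 ≤ m by omega)
    -- conclusion
    have hWS : W * ‖∑ a ∈ Mn K m, F a * (g a : ℂ)‖ ≤
        (Fintype.card K : ℝ) ^ m * (√W + (2 + (1 - ρ)⁻¹ + C₁)) := by
      have e1 : (W : ℂ) * ∑ a ∈ Mn K m, F a * (g a : ℂ) =
          ∑ a ∈ Mn K m, ((Xn D a : ℝ) : ℂ) * (F a * (g a : ℂ)) -
            ∑ a ∈ Mn K m, (((Xn D a : ℝ) - La K D : ℝ) : ℂ) * (F a * (g a : ℂ)) := by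
        rw [← sum_sub_distrib, mul_sum]
        refine sum_congr rfl fun a _ => ?_
        rw [hWdef]
        push_cast
        ring
      have h1 : W * ‖∑ a ∈ Mn K m, F a * (g a : ℂ)‖ =
          ‖(W : ℂ) * ∑ a ∈ Mn K m, F a * (g a : ℂ)‖ := by
        rw [norm_mul, Complex.norm_real, Real.norm_of_nonneg (by linarith)]
      rw [h1, e1]
      have h2 : ‖∑ a ∈ Mn K m, (((Xn D a : ℝ) - La K D : ℝ) : ℂ) * (F a * (g a : ℂ))‖ ≤
          (Fintype.card K : ℝ) ^ m * √W := by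
        rw [hWdef]
        refine le_trans (norm_sum_le _ _) ((sum_le_sum fun a _ => ?_).trans (dev hD2))
        rw [norm_mul, norm_mul, Complex.norm_real, Complex.norm_real, Real.norm_eq_abs,
          Real.norm_eq_abs]
        exact mul_le_of_le_one_right (abs_nonneg _) (mul_le_one₀ (hF _) (abs_nonneg _) (hg _))
      have h3 : ‖∑ a ∈ Mn K m, ((Xn D a : ℝ) : ℂ) * (F a * (g a : ℂ))‖ ≤
          (Fintype.card K : ℝ) ^ m * (2 + (1 - ρ)⁻¹ + C₁) := by
        rw [expand m D (by omega) g F]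
        have h4 := errors m D hD2 g F hg hF hmul
        have h5 := norm_add_le
          (∑ P ∈ PU K D, ∑ B ∈ Mn K (m - P.natDegree), F (P * B) * (g (P * B) : ℂ) -
            ∑ P ∈ PU K D, ∑ B ∈ Mn K (m - P.natDegree), F P * F B * (g (P * B) : ℂ))
          (∑ P ∈ PU K D, ∑ B ∈ Mn K (m - P.natDegree), F P * F B * (g (P * B) : ℂ))
        rw [sub_add_cancel] at h5
        refine h5.trans ((add_le_add h4 hmainT).trans (le_of_eq (by ring)))
      refine (norm_sub_le _ _).trans ?_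
      linarith
    have hsW : 0 < √W := Real.sqrt_pos.2 (by linarith)
    have hsW1 : 1 ≤ √W := by
      rw [Real.one_le_sqrt]
      exact hW1
    have hWW : √W * √W = W := Real.mul_self_sqrt (by linarith)
    obtain ⟨C₂, hC₂⟩ : ∃ C₂ : ℝ, C₂ = 2 + (1 - ρ)⁻¹ + C₁ := ⟨_, rfl⟩
    rw [← hC₂] at hWS ⊢
    have hC₂0 : 0 ≤ C₂ := by rw [hC₂]; positivity
    have hSW : √W * ‖∑ a ∈ Mn K m, F a * (g a : ℂ)‖ ≤
        (1 + C₂) * (Fintype.card K : ℝ) ^ m := by
      have h1 : √W * (√W * ‖∑ a ∈ Mn K m, F a * (g a : ℂ)‖) ≤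
          √W * ((1 + C₂) * (Fintype.card K : ℝ) ^ m) := by
        calc √W * (√W * ‖∑ a ∈ Mn K m, F a * (g a : ℂ)‖) =
            W * ‖∑ a ∈ Mn K m, F a * (g a : ℂ)‖ := by rw [← mul_assoc, hWW]
          _ ≤ (Fintype.card K : ℝ) ^ m * (√W + C₂) := hWS
          _ ≤ (Fintype.card K : ℝ) ^ m * (√W + √W * C₂) := by
              refine mul_le_mul_of_nonneg_left ?_ hqm.le
              have := mul_le_mul_of_nonneg_right hsW1 hC₂0
              linarith
          _ = √W * ((1 + C₂) * (Fintype.card K : ℝ) ^ m) := by ring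
      exact le_of_mul_le_mul_left h1 hsW
    have hsl2 : √(Real.log m) ≤ √5 * √W := by
      rw [← Real.sqrt_mul (by norm_num)]
      refine Real.sqrt_le_sqrt ?_
      linarith
    rw [le_div_iff₀ hsl]
    calc ‖∑ a ∈ Mn K m, F a * (g a : ℂ)‖ * √(Real.log m)
        ≤ ‖∑ a ∈ Mn K m, F a * (g a : ℂ)‖ * (√5 * √W) :=
          mul_le_mul_of_nonneg_left hsl2 (norm_nonneg _)
      _ = √5 * (√W * ‖∑ a ∈ Mn K m, F a * (g a : ℂ)‖) := by ring
      _ ≤ √5 * ((1 + C₂) * (Fintype.card K : ℝ) ^ m) :=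
          mul_le_mul_of_nonneg_left hSW (Real.sqrt_nonneg _)
      _ ≤ ((1 + C₂) * √5 + √(Real.log (2 * d₀ + 2))) * (Fintype.card K : ℝ) ^ m := by
          have h1 : 0 ≤ √(Real.log (2 * d₀ + 2)) * (Fintype.card K : ℝ) ^ m := by positivity
          nlinarith

end Pool.Agent.H526.PQ.Katai
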