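import Mathlib
import Pool.Agent.H604.LD.StmG
import Pool.Agent.H985.Chow.Typ

/-!
# `μ(a² + X g²)` over `F_q[X]`, `q` even, for `a` in multiplicative structures (helper526)

`fa γ b a = a² + X (γ b)²`.  For `a = A z` the phase at infinity of `fa γ b a` is, up to a factor
which is additive in `v` on the fibres `z + D v²`, the coefficient of `X⁻¹` in `X A² z'³ / (z (γ b)²)`.
So the product for two multipliers `A₁, A₂` is the phase `ph2 (A₁ + A₂) γ b z`.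
-/

namespace Pool.Agent.H526.PQ

open Polynomial
open scoped Classical
open Pool.Agent.H985.Chow (mob lc)
open Pool.Agent.H985.KP (sg)
open Pool.Agent.H985.FC (S_gcs)
open Pool.Agent.H694.Typ (Mn Irn)
open Pool.Agent.H604.LD (fa phg S_parinfg S_weylg)

/-- The phase with a multiplier `P`: the coefficient of `X⁻¹` in `X P² z'³ / (z (γ b)²)`. -/
noncomputable def ph2 {K : Type} [Field K] (P : K[X]) (γ : K) (b z : K[X]) : K :=
  (γ⁻¹) ^ 2 * lc (z * b ^ 2) (X * (P ^ 2 * derivative z ^ 3))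

/-- **Task CUBE2.**  (Adapt `Pool.Agent.H604.LD.cubeg'`: every numerator is multiplied by `P²`, so
`N` by `P`.) -/
def S_cube2 : Prop :=
  ∀ (K : Type) [Field K] [Fintype K] [CharP K 2] (k d τ : ℕ) (γ : K) (P b a D s : K[X])
    (h : Fin k → K[X]),
    1 ≤ k → γ ≠ 0 → P ≠ 0 → b.Monic → a.Monic → a.natDegree = d → D.Monic → s ≠ 0 →
    s ^ 2 = derivative (a * D) →
    (∀ A : Finset (Fin k), A.Nonempty → ∑ j ∈ A, h j ≠ 0 ∧ τ < (∑ j ∈ A, h j).natDegree ∧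
      D.natDegree + 2 * (∑ j ∈ A, h j).natDegree < d) →
    3 * s.natDegree + (2 ^ k - 2) * D.natDegree +
      2 * ∑ A : Finset (Fin k), (∑ j ∈ A, h j).natDegree + τ + 1 + P.natDegree =
        2 ^ k * d + b.natDegree →
    ∃ ω : K, ω ≠ 0 ∧ ∀ α : K,
      ∏ A : Finset (Fin k), (sg (ph2 P γ b (a + D * (∑ j ∈ A, h j) ^ 2)) *
        sg (ph2 P γ b (a + D * (∑ j ∈ A, h j + C α * X ^ τ) ^ 2))) = sg (α * ω)

/-- **Task WEYL2.**  (Adapt `Pool.Agent.H604.LD.weylgu`.  On the fibre `a + D v²` the function is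
`ψ a * χ v * sg (ph2 P γ b (a + D v²))`, and the product of the `χ` over a cube is `± 1`, constant in
`v`.) -/
def S_weyl2 : Prop :=
  ∀ κ : ℝ, 0 < κ → ∃ c : ℝ, 0 < c ∧ ∃ d₀ : ℕ, ∀ (K : Type) [Field K] [Fintype K] [CharP K 2]
    (γ : K) (b : K[X]), γ ≠ 0 → b.Monic →
    ∀ d : ℕ, d₀ ≤ d → ∀ (P D r : K[X]) (χ ψ : K[X] → ℝ), P ≠ 0 → κ * P.natDegree ≤ d →
      D.Monic → b ^ 5 ∣ D → (D.natDegree : ℝ) ≤ (1 - κ) * d → r.degree < (d : WithBot ℕ) →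
      (∀ v, χ v = 1 ∨ χ v = -1) → (∀ v w, χ (v + w) = χ v * χ w) → (∀ z, |ψ z| ≤ 1) →
      (∀ z v, z.Monic → z.natDegree = d → D ∣ z - r → D.natDegree + 2 * v.natDegree < d →
        ψ (z + D * v ^ 2) = ψ z * χ v) →
      |∑ c ∈ Mn K (d - D.natDegree), ψ (r + D * c) * sg (ph2 P γ b (r + D * c))| ≤
        (Fintype.card K : ℝ) ^ ((d : ℝ) - D.natDegree - c * d)

/-- **Task PHM.**  The phase of a product on the fibres `z + D v²`, `b ^ 5 ∣ D`. -/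
def S_phm : Prop :=
  ∀ (K : Type) [Field K] [Fintype K] [CharP K 2] (γ : K) (A b D : K[X]), γ ≠ 0 → A.Monic →
    b.Monic → b ^ 5 ∣ D →
    ∃ χ : K[X] → ℝ, (∀ v, χ v = 1 ∨ χ v = -1) ∧ (∀ v w, χ (v + w) = χ v * χ w) ∧
      ∀ z v : K[X], z.Monic → (z + D * v ^ 2).Monic →
        sg (phg γ b (A * (z + D * v ^ 2))) * sg (phg γ b (A * z)) =
          χ v * (sg (ph2 A γ b (z + D * v ^ 2)) * sg (ph2 A γ b z))

/-- **Task TII.**  Two multipliers. -/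
def S_tii : Prop :=
  ∀ κ : ℝ, 0 < κ → ∃ c : ℝ, 0 < c ∧ ∃ d₀ : ℕ, ∀ (K : Type) [Field K] [Fintype K] [CharP K 2]
    (γ : K) (b : K[X]), γ ≠ 0 → b.Monic →
    ∀ d : ℕ, d₀ ≤ d → ∀ (A₁ A₂ D r : K[X]), A₁.Monic → A₂.Monic → A₁ ≠ A₂ →
      κ * A₁.natDegree ≤ d → κ * A₂.natDegree ≤ d → IsCoprime (A₁ * A₂) b → IsCoprime r b →
      D.Monic → b ^ 5 ∣ D → (D.natDegree : ℝ) ≤ (1 - κ) * d → r.degree < (d : WithBot ℕ) →
      |∑ c ∈ Mn K (d - D.natDegree), (mob (fa γ b (A₁ * (r + D * c))) : ℝ) *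
          (mob (fa γ b (A₂ * (r + D * c))) : ℝ)| ≤
        (Fintype.card K : ℝ) ^ ((d : ℝ) - D.natDegree - c * d)

/-- Assembly of TII. -/
def S_tiiasm : Prop := S_parinfg → S_weyl2 → S_phm → S_tii

/-- **Task KATAI.**  The criterion of Daboussi-Katai-Bourgain-Sarnak-Ziegler over `K[X]`, with the
degrees up to a positive proportion of `m`. -/
def S_katai : Prop :=
  ∀ (K : Type) [Field K] [Fintype K] (c : ℝ) (d₀ : ℕ) (g : K[X] → ℝ), 0 < c → (∀ f, |g f| ≤ 1) →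
    (∀ d : ℕ, d₀ ≤ d → ∀ P Q : K[X], P.Monic → Q.Monic → Irreducible P → Irreducible Q →
      P ≠ Q → P.natDegree = Q.natDegree → P.natDegree ≤ d →
      |∑ B ∈ Mn K d, g (P * B) * g (Q * B)| ≤ (Fintype.card K : ℝ) ^ ((d : ℝ) - c * d)) →
    ∃ C : ℝ, ∀ m : ℕ, 2 ≤ m → ∀ F : K[X] → ℂ, (∀ f, ‖F f‖ ≤ 1) →
      (∀ f h : K[X], f.Monic → h.Monic → IsCoprime f h → F (f * h) = F f * F h) →
      ‖∑ a ∈ Mn K m, F a * (g a : ℂ)‖ ≤
        C * (Fintype.card K : ℝ) ^ m / Real.sqrt (Real.log m)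

/-- **The orthogonality theorem**: `μ(a² + X g²)` is orthogonal to all multiplicative functions
bounded by one, uniformly. -/
def S_orth : Prop :=
  ∀ (K : Type) [Field K] [Fintype K] [CharP K 2] (g : K[X]), g ≠ 0 → ∃ C : ℝ, ∀ m : ℕ, 2 ≤ m →
    ∀ F : K[X] → ℂ, (∀ f, ‖F f‖ ≤ 1) →
      (∀ f h : K[X], f.Monic → h.Monic → IsCoprime f h → F (f * h) = F f * F h) →
      ‖∑ a ∈ Mn K m, F a * (mob (a ^ 2 + X * g ^ 2) : ℂ)‖ ≤
        C * (Fintype.card K : ℝ) ^ m / Real.sqrt (Real.log m)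

/-- **Task ORTH.** -/
def S_orthasm : Prop := S_tii → S_katai → S_orth

/-- **Task VAU.**  Primes from Type I sums and Type II sums (the identity of Vaughan with
`U = V = ⌊m / 8⌋`).  `g` is bounded by one. -/
def S_vau : Prop :=
  ∀ (K : Type) [Field K] [Fintype K] (m : ℕ) (g : K[X] → ℝ) (E₁ E₂ : ℝ), 8 ≤ m →
    (∀ f, |g f| ≤ 1) → 0 ≤ E₁ → 0 ≤ E₂ →
    (∀ u : K[X], u.Monic → 4 * u.natDegree ≤ m →
      |∑ B ∈ Mn K (m - u.natDegree), g (u * B)| ≤ E₁ * (Fintype.card K : ℝ) ^ (m - u.natDegree)) →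
    (∀ j : ℕ, m ≤ 8 * (j + 1) → 2 * j ≤ m → ∀ α β : K[X] → ℝ, (∀ A, |α A| ≤ 1) →
      (∀ B, |β B| ≤ 1) →
      |∑ A ∈ Mn K j, ∑ B ∈ Mn K (m - j), α A * β B * g (A * B)| ≤
        E₂ * (Fintype.card K : ℝ) ^ m) →
    |∑ P ∈ Irn K m, g P| ≤
      8 * (m : ℝ) ^ 2 * (E₁ + E₂ + (Fintype.card K : ℝ) ^ (-(m : ℝ) / 8)) *
        (Fintype.card K : ℝ) ^ m

/-- **Task PRI.**  The Möbius function of `P² + X g²` over the monic irreducible `P` in a residue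
class: power saving. -/
def S_pri : Prop :=
  ∀ (K : Type) [Field K] [Fintype K] [CharP K 2] (g : K[X]), g ≠ 0 →
    ∃ (c C : ℝ), 0 < c ∧ ∀ m : ℕ, ∀ D r : K[X], D.Monic → (D.natDegree : ℝ) ≤ c * m →
      |∑ P ∈ (Irn K m).filter (fun P => D ∣ P - r), (mob (P ^ 2 + X * g ^ 2) : ℝ)| ≤
        C * (Fintype.card K : ℝ) ^ ((1 - c) * m)

/-- Assembly of PRI. -/
def S_priasm : Prop := S_weylg → S_tii → S_vau → S_pri

end Pool.Agent.H526.PQ
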