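import Mathlib
import Pool.Agent.H526.PQ.Stm
import Pool.Agent.H604.LD.StmM
import Pool.Agent.H985.Par.StmPar

/-!
# Several polynomials `a² + X g_i²` at the same time (helper526): statements of the parts

Everything is as in `Stm.lean`, with the product of the `μ(a² + X g_i²)`; the product of the phases
is again one phase `ph2`, with `1 / g` replaced by `∑ 1 / g_i`.
-/

namespace Pool.Agent.H526.PQ

open Polynomial
open scoped Classical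
open Pool.Agent.H985.Chow (mob lc)
open Pool.Agent.H985.KP (sg)
open Pool.Agent.H694.Typ (Mn Irn PU)
open Pool.Agent.H604.LD (fa phg S_parinfg om)
open Pool.Agent.H985.Par (S_brun Sft)

/-- The product of the Möbius functions of the `a² + X (γ_i b_i)²`. -/
noncomputable def mbt {K : Type} [Field K] {n : ℕ} (γ : Fin n → K) (b : Fin n → K[X])
    (a : K[X]) : ℝ := ∏ i, (mob (fa (γ i) (b i) a) : ℝ)

/-- **Task TIIK.**  Any number of multipliers `A j`, and any number of polynomials. -/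
def S_tiik : Prop :=
  ∀ κ : ℝ, 0 < κ → ∃ c : ℝ, 0 < c ∧ ∃ d₀ : ℕ, ∀ (K : Type) [Field K] [Fintype K] [CharP K 2]
    (n : ℕ) (γ : Fin n → K) (b : Fin n → K[X]), (∀ i, γ i ≠ 0) → (∀ i, (b i).Monic) →
    om γ b ≠ 0 →
    ∀ d : ℕ, d₀ ≤ d → ∀ (J : ℕ) (A : Fin J → K[X]) (D r : K[X]), (∀ j, (A j).Monic) →
      ∑ j, A j ≠ 0 → (∀ j, κ * (A j).natDegree ≤ d) → D.Monic → (∏ i, b i) ^ 5 ∣ D →
      (D.natDegree : ℝ) ≤ (1 - κ) * d → r.degree < (d : WithBot ℕ) →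
      |∑ c ∈ Mn K (d - D.natDegree), ∏ j, mbt γ b (A j * (r + D * c))| ≤
        (Fintype.card K : ℝ) ^ ((d : ℝ) - D.natDegree - c * d)

/-- Assembly of TIIK. -/
def S_tiikasm : Prop := S_parinfg → S_weyl2 → S_phm → S_tiik

/-- **The orthogonality theorem** for the products. -/
def S_orthk : Prop :=
  ∀ (K : Type) [Field K] [Fintype K] [CharP K 2] (n : ℕ) (g : Fin n → K[X]), (∀ i, g i ≠ 0) →
    ∑ i, ∏ j ∈ Finset.univ.erase i, g j ≠ 0 → ∃ C : ℝ, ∀ m : ℕ, 2 ≤ m →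
    ∀ F : K[X] → ℂ, (∀ f, ‖F f‖ ≤ 1) →
      (∀ f h : K[X], f.Monic → h.Monic → IsCoprime f h → F (f * h) = F f * F h) →
      ‖∑ a ∈ Mn K m, F a * ∏ i, (mob (a ^ 2 + X * g i ^ 2) : ℂ)‖ ≤
        C * (Fintype.card K : ℝ) ^ m / Real.sqrt (Real.log m)

/-- **Task ORTHK.** -/
def S_orthkasm : Prop := S_tiik → S_katai → S_orthk

/-- **Task PRIK.**  Power saving over the irreducible `P` in a residue class. -/
def S_prik : Prop :=
  ∀ (K : Type) [Field K] [Fintype K] [CharP K 2] (n : ℕ) (g : Fin n → K[X]), (∀ i, g i ≠ 0) →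
    ∑ i, ∏ j ∈ Finset.univ.erase i, g j ≠ 0 →
    ∃ (c C : ℝ), 0 < c ∧ 0 < C ∧ ∀ m : ℕ, ∀ D r : K[X], D.Monic → (D.natDegree : ℝ) ≤ c * m →
      |∑ P ∈ (Irn K m).filter (fun P => D ∣ P - r), ∏ i, (mob (P ^ 2 + X * g i ^ 2) : ℝ)| ≤
        C * (Fintype.card K : ℝ) ^ ((1 - c) * m)

/-- **Task PRIKASM.** -/
def S_prikasm : Prop := S_tiik → S_vau → S_prik

/-- **Task PAP.**  The prime number theorem in residue classes. -/
def S_pap : Prop :=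
  ∀ (K : Type) [Field K] [Fintype K], ∃ C : ℝ, 0 < C ∧ ∀ (m : ℕ) (D r : K[X]), 1 ≤ m → D.Monic →
    Squarefree D → IsCoprime r D → D.natDegree < m →
    |(((Irn K m).filter (fun P => D ∣ P - r)).card : ℝ) -
      (Fintype.card K : ℝ) ^ m / m /
        ∏ π ∈ (PU K D.natDegree).filter (fun π => π ∣ D), ((Fintype.card K : ℝ) ^ π.natDegree - 1)| ≤
      C * m * (Fintype.card K : ℝ) ^ ((3 : ℝ) / 4 * m)

/-- **Task SIFT.**  An abstract sieve, with the twisted sums. -/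
def S_sift : Prop :=
  ∀ C ε : ℝ, 0 < C → 0 < ε → ∃ A : ℕ, ∀ (ι α : Type) (Q : Finset ι) (ℓ : ι → ℕ) (w : ι → ℝ)
    (m : ℕ) (S : Finset α) (B : α → Finset ι) (M R : ℝ) (N : ℕ),
    (∀ P ∈ Q, 1 ≤ ℓ P ∧ ℓ P ≤ m) → (∀ P ∈ Q, 0 ≤ w P ∧ w P ≤ 1 - 1 / C) →
    (∀ y : ℕ, ∑ P ∈ Q with y < 2 * ℓ P ∧ ℓ P ≤ y, w P ≤ C) →
    0 ≤ M → 0 ≤ R → ((Q.powerset.filter (fun T => ∑ P ∈ T, ℓ P ≤ A * m)).card ≤ N) →
    (∀ x ∈ S, B x ⊆ Q) →
    (∀ T ⊆ Q, ∑ P ∈ T, ℓ P ≤ A * m →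
      |((S.filter (fun x => T ⊆ B x)).card : ℝ) - M * ∏ P ∈ T, w P| ≤ R) →
    |((S.filter (fun x => B x = ∅)).card : ℝ) - M * ∏ P ∈ Q, (1 - w P)| ≤
        ε * (M * ∏ P ∈ Q, (1 - w P)) + N * R ∧
    ∀ F : α → ℝ, (∀ x, |F x| ≤ 1) →
      (∀ T ⊆ Q, ∑ P ∈ T, ℓ P ≤ A * m → |∑ x ∈ S.filter (fun x => T ⊆ B x), F x| ≤ R) →
      |∑ x ∈ S.filter (fun x => B x = ∅), F x| ≤ ε * (M * ∏ P ∈ Q, (1 - w P)) + 3 * (N * R)

/-- The number of the nonzero residue classes `r` modulo `π` with `r² + X g_i² ≡ 0` for some `i`. -/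
noncomputable def nuR {K : Type} [Field K] {n : ℕ} (g : Fin n → K[X]) (π : K[X]) : ℕ :=
  Set.ncard {r : K[X] | r.degree < π.degree ∧ r ≠ 0 ∧ ∃ i, π ∣ r ^ 2 + X * g i ^ 2}

/-- The density of the `P` such that no `P² + X g_i²` has an irreducible factor of degree at most
`z`. -/
noncomputable def vpR {K : Type} [Field K] [Fintype K] {n : ℕ} (g : Fin n → K[X]) (z : ℕ) : ℝ :=
  ∏ π ∈ PU K z, (1 - (nuR g π : ℝ) / ((Fintype.card K : ℝ) ^ π.natDegree - 1))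

/-- For every irreducible `π` there is a nonzero class modulo `π` for which no `r² + X g_i²` is
divisible by `π`. -/
def Adm {K : Type} [Field K] {n : ℕ} (g : Fin n → K[X]) : Prop :=
  ∀ π : K[X], Irreducible π → ∃ r : K[X], ¬ π ∣ r ∧ ∀ i, ¬ π ∣ r ^ 2 + X * g i ^ 2

/-- **Task VPR.**  The local densities. -/
def S_vpr : Prop :=
  ∀ (K : Type) [Field K] [Fintype K] [CharP K 2] (n : ℕ) (g : Fin n → K[X]), Adm g →
    ∃ C : ℝ, 0 < C ∧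
    (∀ π : K[X], Irreducible π → (nuR g π : ℝ) / ((Fintype.card K : ℝ) ^ π.natDegree - 1) ≤
      1 - 1 / C) ∧
    (∀ y z : ℕ, ∑ π ∈ (PU K z).filter (fun π => y < 2 * π.natDegree ∧ π.natDegree ≤ y),
      (nuR g π : ℝ) / ((Fintype.card K : ℝ) ^ π.natDegree - 1) ≤ C) ∧
    ∀ z : ℕ, 1 ≤ z → 1 / (C * (z : ℝ) ^ n) ≤ vpR g z

/-- The irreducible `P` of degree `m` such that no `P² + X g_i²` has an irreducible factor of degree
at most `z`. -/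
noncomputable def Sift (K : Type) [Field K] [Fintype K] {n : ℕ} (g : Fin n → K[X]) (m z : ℕ) :
    Finset K[X] := (Irn K m).filter (fun P => ∀ i, Sft z (P ^ 2 + X * g i ^ 2))

/-- **The sifted set**: the number of its elements, and the Möbius functions. -/
def S_sifted : Prop :=
  ∀ (K : Type) [Field K] [Fintype K] [CharP K 2] (n : ℕ) (g : Fin n → K[X]) (ε : ℝ),
    (∀ i, g i ≠ 0) → Adm g → 0 < ε → ∃ κ : ℝ, 0 < κ ∧ ∃ m₀ : ℕ, ∀ m z : ℕ, m₀ ≤ m → 1 ≤ z →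
      (z : ℝ) ≤ κ * m →
      |((Sift K g m z).card : ℝ) - vpR g z * (Fintype.card K : ℝ) ^ m / m| ≤
        ε * (vpR g z * (Fintype.card K : ℝ) ^ m / m) ∧
      ∀ T : Finset (Fin n), ∑ i ∈ T, ∏ j ∈ T.erase i, g j ≠ 0 →
        |∑ P ∈ Sift K g m z, ∏ i ∈ T, (mob (P ^ 2 + X * g i ^ 2) : ℝ)| ≤
          ε * (vpR g z * (Fintype.card K : ℝ) ^ m / m)

/-- **Task SIFTEDASM.** -/
def S_siftedasm : Prop := S_prik → S_pap → S_sift → S_vpr → S_sifted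

/-- **The parity patterns**: they are equidistributed. -/
def S_patt : Prop :=
  ∀ (K : Type) [Field K] [Fintype K] [CharP K 2] (n : ℕ) (g : Fin n → K[X]) (ε : ℝ),
    (∀ i, g i ≠ 0) → Adm g → (∀ T : Finset (Fin n), T.Nonempty → ∑ i ∈ T, ∏ j ∈ T.erase i, g j ≠ 0) →
    0 < ε → ∃ κ : ℝ, 0 < κ ∧ ∃ m₀ : ℕ, ∀ m z : ℕ, m₀ ≤ m → 1 ≤ z → (z : ℝ) ≤ κ * m →
      |((Sift K g m z).card : ℝ) - vpR g z * (Fintype.card K : ℝ) ^ m / m| ≤
        ε * (vpR g z * (Fintype.card K : ℝ) ^ m / m) ∧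
      ∀ σ : Fin n → ℤ, (∀ i, σ i = 1 ∨ σ i = -1) →
        |(((Sift K g m z).filter (fun P => ∀ i, mob (P ^ 2 + X * g i ^ 2) = σ i)).card : ℝ) -
          vpR g z * (Fintype.card K : ℝ) ^ m / (2 ^ n * m)| ≤
            ε * (vpR g z * (Fintype.card K : ℝ) ^ m / m)

/-- **Task PATTASM.** -/
def S_pattasm : Prop := S_sifted → S_patt

end Pool.Agent.H526.PQ
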