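import Pool.Agent.H526.PQ.Stm
import Pool.Agent.H985.Chow.RT
import Pool.Agent.H985.KP.Loc2

/-!
# Task PHM: the phase of a product on the fibres (helper384)
-/

set_option autoImplicit false

namespace Pool.Agent.H526.PQ.Phm

open Polynomial
open Pool.Agent.H985.Chow (lc)
open Pool.Agent.H985.Chow.RT (lc_add lc_sub lc_dvd lc_mul)
open Pool.Agent.H985.KP (sg)
open Pool.Agent.H985.KP.Loc2 (sg_add sg_pm)
open Pool.Agent.H604.LD (phg)

variable {K : Type} [Field K] [CharP K 2]

omit [CharP K 2] in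
theorem lc_eq_of_dvd {D N M : K[X]} (hD : D.Monic) (h : D ∣ N - M) : lc D N = lc D M := by
  have h1 := lc_dvd hD _ h
  rw [lc_sub] at h1
  exact sub_eq_zero.1 h1

theorem two_zero : (2 : K[X]) = 0 := by
  have h : (2 : K) = 0 := CharTwo.two_eq_zero
  have h1 : (C (2 : K) : K[X]) = 2 := map_ofNat C 2
  rw [← h1, h, C_0]

/-- the phase of a product -/
theorem phg_mul (γ : K) (A b Y : K[X]) (hA : A.Monic) (hb : b.Monic) (hY : Y.Monic) :
    phg γ b (A * Y) = (γ⁻¹) ^ 2 * (lc (A * b ^ 2) (X * derivative A ^ 3 * Y ^ 2) +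
      lc (b ^ 2) (X * derivative A ^ 2 * Y * derivative Y) +
      lc (b ^ 2) (X * derivative A * A * derivative Y ^ 2)) + ph2 A γ b Y := by
  have h2 := two_zero (K := K)
  have e : X * derivative (A * Y) ^ 3 =
      (X * derivative A ^ 3 * Y ^ 2) * Y +
      ((X * derivative A ^ 2 * Y * derivative Y) * (A * Y) +
      ((X * derivative A * A * derivative Y ^ 2) * (A * Y) +
      (X * (A ^ 2 * derivative Y ^ 3)) * A)) := by
    rw [derivative_mul]
    linear_combination (X * derivative A ^ 2 * Y ^ 2 * A * derivative Y +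
      X * derivative A * Y * A ^ 2 * derivative Y ^ 2) * h2
  have l1 : lc (A * Y * b ^ 2) ((X * derivative A ^ 3 * Y ^ 2) * Y) =
      lc (A * b ^ 2) (X * derivative A ^ 3 * Y ^ 2) := by
    have : A * Y * b ^ 2 = (A * b ^ 2) * Y := by ring
    rw [this]
    exact lc_mul (hA.mul (hb.pow 2)) hY _
  have l2 : ∀ N : K[X], lc (A * Y * b ^ 2) (N * (A * Y)) = lc (b ^ 2) N := by
    intro N
    have : A * Y * b ^ 2 = b ^ 2 * (A * Y) := by ring
    rw [this]
    exact lc_mul (hb.pow 2) (hA.mul hY) _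
  have l3 : ∀ N : K[X], lc (A * Y * b ^ 2) (N * A) = lc (Y * b ^ 2) N := by
    intro N
    have : A * Y * b ^ 2 = (Y * b ^ 2) * A := by ring
    rw [this]
    exact lc_mul (hY.mul (hb.pow 2)) hA _
  unfold phg ph2
  rw [e, lc_add, lc_add, lc_add, l1, l2, l2, l3]
  ring

theorem main : S_phm := by
  intro K _ _ _ γ A b D hγ hA hb hD
  have h2 := two_zero (K := K)
  have h2K : (2 : K) = 0 := CharTwo.two_eq_zero
  obtain ⟨E, rfl⟩ := hD
  refine ⟨fun v => sg ((γ⁻¹) ^ 2 * lc (A * b ^ 2) (X * derivative A ^ 3 * (b ^ 5 * E) ^ 2 * v ^ 4)),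
    fun v => sg_pm _, fun v w => ?_, fun z v hz hY => ?_⟩
  · have e1 : X * derivative A ^ 3 * (b ^ 5 * E) ^ 2 * (v + w) ^ 4 =
        X * derivative A ^ 3 * (b ^ 5 * E) ^ 2 * v ^ 4 +
        X * derivative A ^ 3 * (b ^ 5 * E) ^ 2 * w ^ 4 := by
      linear_combination (X * derivative A ^ 3 * (b ^ 5 * E) ^ 2 *
        (2 * v ^ 3 * w + 3 * v ^ 2 * w ^ 2 + 2 * v * w ^ 3)) * h2
    rw [← sg_add, ← mul_add, ← lc_add, ← e1]
  · set Y := z + b ^ 5 * E * v ^ 2 with hYdef
    have hder : derivative Y = derivative z +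
        b ^ 2 * ((b ^ 2 * (5 * derivative b * E) + b ^ 3 * derivative E) * v ^ 2) := by
      rw [hYdef]
      simp only [derivative_add, derivative_mul, derivative_pow]
      have hC2 : (C ((2 : ℕ) : K) : K[X]) = 2 := map_ofNat C 2
      have hC5 : (C ((5 : ℕ) : K) : K[X]) = 5 := map_ofNat C 5
      rw [hC2, hC5]
      simp only [Nat.add_one_sub_one, pow_one]
      linear_combination (b ^ 5 * E * v * derivative v) * h2
    set W := (b ^ 2 * (5 * derivative b * E) + b ^ 3 * derivative E) * v ^ 2 with hW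
    have t1 : lc (A * b ^ 2) (X * derivative A ^ 3 * Y ^ 2) =
        lc (A * b ^ 2) (X * derivative A ^ 3 * (b ^ 5 * E) ^ 2 * v ^ 4) +
        lc (A * b ^ 2) (X * derivative A ^ 3 * z ^ 2) := by
      rw [← lc_add]
      congr 1
      rw [hYdef]
      linear_combination (X * derivative A ^ 3 * z * (b ^ 5 * E) * v ^ 2) * h2
    have t2 : lc (b ^ 2) (X * derivative A ^ 2 * Y * derivative Y) =
        lc (b ^ 2) (X * derivative A ^ 2 * z * derivative z) := by
      apply lc_eq_of_dvd (hb.pow 2)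
      refine ⟨X * derivative A ^ 2 * (b ^ 3 * E * v ^ 2 * derivative z + Y * W), ?_⟩
      rw [hder, hYdef]
      ring
    have t3 : lc (b ^ 2) (X * derivative A * A * derivative Y ^ 2) =
        lc (b ^ 2) (X * derivative A * A * derivative z ^ 2) := by
      apply lc_eq_of_dvd (hb.pow 2)
      refine ⟨X * derivative A * A * (2 * derivative z * W + b ^ 2 * W ^ 2), ?_⟩
      rw [hder]
      ring
    have e : phg γ b (A * Y) + phg γ b (A * z) =
        (γ⁻¹) ^ 2 * lc (A * b ^ 2) (X * derivative A ^ 3 * (b ^ 5 * E) ^ 2 * v ^ 4) +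
        (ph2 A γ b Y + ph2 A γ b z) := by
      rw [phg_mul γ A b Y hA hb hY, phg_mul γ A b z hA hb hz, t1, t2, t3]
      linear_combination ((γ⁻¹) ^ 2 * (lc (A * b ^ 2) (X * derivative A ^ 3 * z ^ 2) +
        lc (b ^ 2) (X * derivative A ^ 2 * z * derivative z) +
        lc (b ^ 2) (X * derivative A * A * derivative z ^ 2))) * h2K
    rw [← sg_add, e, sg_add, sg_add]

end Pool.Agent.H526.PQ.Phm
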