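import Pool.Agent.H526.PQ.Stm
import Pool.Agent.H604.LD.CubeG

/-!
# Task CUBE2: the cube difference of the phase with a multiplier (helper289, for helper526)
-/

set_option autoImplicit false

namespace Pool.Agent.H526.PQ.Cube2

open Polynomial
open scoped Classical
open Pool.Agent.H985.Chow (mob lc)
open Pool.Agent.H985.KP (sg)
open Pool.Agent.H604.LD Pool.Agent.H604.LD.CubeL Pool.Agent.H604.LD.CubeGL

variable {K : Type} [Field K]

lemma sum_ph2 {k : ℕ} (P : K[X]) (γ : K) {b : K[X]} (hb : b.Monic) (a D : K[X])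
    (h : Fin k → K[X]) (c : K[X]) (hc : ∀ A : Finset (Fin k), (zz a D h c A).Monic) :
    ∑ A : Finset (Fin k), ph2 P γ b (zz a D h c A) =
      (γ⁻¹) ^ 2 * lc (Pc a D h c * b ^ 2) (P ^ 2 * Un a D h c) := by
  have h1 := lc_common' (Finset.univ : Finset (Finset (Fin k))) (fun A => zz a D h c A)
    (fun A => X * (P ^ 2 * derivative (zz a D h c A) ^ 3)) (fun A _ => hc A) (hb.pow 2)
  have h2 : ∑ A : Finset (Fin k), ph2 P γ b (zz a D h c A) =
      (γ⁻¹) ^ 2 * ∑ A : Finset (Fin k), lc (zz a D h c A * b ^ 2)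
        (X * (P ^ 2 * derivative (zz a D h c A) ^ 3)) := by
    rw [Finset.mul_sum]
    rfl
  rw [h2, h1]
  congr 2
  unfold Un
  rw [Finset.mul_sum]
  refine Finset.sum_congr rfl fun A _ => ?_
  ring

theorem main : S_cube2 := by
  intro K _ _ _ k d τ γ P b a D s h hk hγ hPne hb ha had hD hs0 hs hh hsum
  have hh' : ∀ A : Finset (Fin k), A.Nonempty → ∑ j ∈ A, h j ≠ 0 ∧
      τ < (∑ j ∈ A, h j).natDegree := fun A hA => ⟨(hh A hA).1, (hh A hA).2.1⟩
  have hd : 1 ≤ d := by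
    obtain ⟨-, h3, h4⟩ := hh {⟨0, by omega⟩} (Finset.singleton_nonempty _)
    omega
  set ℓ : K := ∏ A : Finset (Fin k), (if A = ∅ then 1 else (∑ j ∈ A, h j).leadingCoeff) with hℓ
  have h0 := mm_lead h (τ := τ) (0 : K[X]) (by simp) hh'
  have hℓ0 : ℓ ≠ 0 := by
    rw [hℓ, ← h0.2.2]
    exact leadingCoeff_ne_zero.2 h0.1
  refine ⟨γ⁻¹ * (P.leadingCoeff * (s.leadingCoeff ^ 3 * ℓ ^ 2)), mul_ne_zero (inv_ne_zero hγ)
    (mul_ne_zero (leadingCoeff_ne_zero.2 hPne)
      (mul_ne_zero (pow_ne_zero 3 (leadingCoeff_ne_zero.2 hs0)) (pow_ne_zero 2 hℓ0))),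
    fun α => ?_⟩
  set u : K[X] := C α * X ^ τ with hu
  have hud : u.natDegree ≤ τ := natDegree_C_mul_X_pow_le α τ
  have hm0 := zz_monic a D h ha had hk (0 : K[X]) (τ := τ) (by simp) hh
  have hmu := zz_monic a D h ha had hk u hud hh
  have e1 : ∏ A : Finset (Fin k), (sg (ph2 P γ b (a + D * (∑ j ∈ A, h j) ^ 2)) *
      sg (ph2 P γ b (a + D * (∑ j ∈ A, h j + u) ^ 2))) =
      sg (∑ A : Finset (Fin k), ph2 P γ b (zz a D h 0 A) +
        ∑ A : Finset (Fin k), ph2 P γ b (zz a D h u A)) := by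
    rw [Pool.Agent.H985.KP.Loc2.sg_add, ← sg_sum, ← sg_sum, ← Finset.prod_mul_distrib]
    refine Finset.prod_congr rfl fun A _ => ?_
    unfold zz
    rw [add_zero]
  rw [e1, sum_ph2 P γ hb a D h 0 (fun A => (hm0 A).1),
    sum_ph2 P γ hb a D h u (fun A => (hmu A).1), ← mul_add]
  have hP0 : (Pc a D h 0).Monic := monic_prod_of_monic _ _ fun A _ => (hm0 A).1
  have hPu : (Pc a D h u).Monic := monic_prod_of_monic _ _ fun A _ => (hmu A).1
  have hP0d : (Pc a D h 0).natDegree = 2 ^ k * d := by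
    unfold Pc
    rw [natDegree_prod_of_monic _ _ fun A _ => (hm0 A).1,
      Finset.sum_congr rfl fun A _ => (hm0 A).2, Finset.sum_const, Finset.card_univ,
      Fintype.card_finset, Fintype.card_fin, smul_eq_mul]
  have hPud : (Pc a D h u).natDegree = 2 ^ k * d := by
    unfold Pc
    rw [natDegree_prod_of_monic _ _ fun A _ => (hmu A).1,
      Finset.sum_congr rfl fun A _ => (hmu A).2, Finset.sum_const, Finset.card_univ,
      Fintype.card_finset, Fintype.card_fin, smul_eq_mul]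
  have hb2 : (b ^ 2).Monic := hb.pow 2
  rw [← Pool.Agent.H985.Chow.RT.lc_mul (hP0.mul hb2) hPu,
    ← Pool.Agent.H985.Chow.RT.lc_mul (hPu.mul hb2) hP0]
  set L : K[X] := Pc a D h 0 * Pc a D h u with hLdef
  have hL1 : Pc a D h 0 * b ^ 2 * Pc a D h u = L * b ^ 2 := by rw [hLdef]; ring
  have hL2 : Pc a D h u * b ^ 2 * Pc a D h 0 = L * b ^ 2 := by rw [hLdef]; ring
  have hNu : P ^ 2 * Un a D h 0 * Pc a D h u + P ^ 2 * Un a D h u * Pc a D h 0 =
      X * (P * Nu D h s u) ^ 2 := by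
    have h1 := Nu_eq a D h s u hk hD hs
    calc P ^ 2 * Un a D h 0 * Pc a D h u + P ^ 2 * Un a D h u * Pc a D h 0 =
        P ^ 2 * (Un a D h 0 * Pc a D h u + Un a D h u * Pc a D h 0) := by ring
      _ = _ := by rw [h1]; ring
  rw [hL1, hL2, ← Pool.Agent.H985.Chow.RT.lc_add, hNu]
  have hL : L.Monic := hP0.mul hPu
  have hLd : L.natDegree = 2 * (2 ^ k * d) := by
    rw [hLdef, hP0.natDegree_mul hPu, hP0d, hPud]; ring
  have hpos : 1 ≤ 2 ^ k * d := Nat.one_le_iff_ne_zero.2 (by positivity)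
  obtain ⟨e, o, heo⟩ := even_odd L
  obtain ⟨he, hed⟩ := even_monic hL hLd heo
  set N := P * Nu D h s u with hN
  have hLb : (L * b).Monic := hL.mul hb
  have hLbd : (L * b).natDegree = 2 * (2 ^ k * d) + b.natDegree := by
    rw [hL.natDegree_mul hb, hLd]
  have e2 : lc (L * b ^ 2) (X * N ^ 2) = lc (L * b) (N * e) ^ 2 := by
    rw [← Pool.Agent.H985.Chow.RT.lc_mul (hL.mul hb2) hL]
    have e3 : X * N ^ 2 * L = X * (N * e) ^ 2 + (X * N * o) ^ 2 := by
      conv_lhs => rw [heo]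
      ring
    have e4 : L * b ^ 2 * L = (L * b) ^ 2 := by ring
    rw [e3, e4, Pool.Agent.H985.Chow.RT.lc_add, (lc_sq hLb (by omega) (N * e)).2,
      (lc_sq hLb (by omega) (X * N * o)).1, add_zero]
  rw [e2, ← mul_pow, Pool.Agent.H985.KP.Loc2.sg_sq]
  refine congrArg sg ?_
  have hmuu := mm_lead h u hud hh'
  set M : K[X] := P * (s ^ 3 * D ^ (2 ^ k - 2) * mm h 0 * mm h u * e) with hM
  have hNe : N * e = C α * M * X ^ τ := by
    rw [hN, hM]
    unfold Nu
    rw [hu]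
    ring
  have hMl : M.leadingCoeff = P.leadingCoeff * (s.leadingCoeff ^ 3 * ℓ ^ 2) := by
    rw [hM, leadingCoeff_mul, leadingCoeff_mul, leadingCoeff_mul, leadingCoeff_mul,
      leadingCoeff_mul, leadingCoeff_pow, leadingCoeff_pow, hD.leadingCoeff, he.leadingCoeff,
      h0.2.2, hmuu.2.2]
    ring
  have hMd : M.natDegree + τ + 1 = 2 * (2 ^ k * d) + b.natDegree := by
    have hn1 : s ^ 3 * D ^ (2 ^ k - 2) ≠ 0 :=
      mul_ne_zero (pow_ne_zero 3 hs0) (pow_ne_zero _ hD.ne_zero)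
    have hn2 := mul_ne_zero hn1 h0.1
    have hn3 := mul_ne_zero hn2 hmuu.1
    have hn4 := mul_ne_zero hn3 he.ne_zero
    rw [hM, natDegree_mul hPne hn4, natDegree_mul hn3 he.ne_zero, natDegree_mul hn2 hmuu.1,
      natDegree_mul hn1 h0.1, natDegree_mul (pow_ne_zero 3 hs0) (pow_ne_zero _ hD.ne_zero),
      natDegree_pow, natDegree_pow, hmuu.2.1, h0.2.1, hed]
    omega
  rw [hNe]
  have hdeg : (C α * M * X ^ τ).natDegree < (L * b).natDegree := by
    have h1 : (C α * M * X ^ τ).natDegree ≤ M.natDegree + τ := by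
      refine natDegree_mul_le.trans (Nat.add_le_add (natDegree_C_mul_le α M) ?_)
      rw [natDegree_X_pow]
    omega
  rw [Pool.Agent.H985.Chow.RT.lc_of_deg hLb _ hdeg]
  have e5 : (L * b).natDegree - 1 = M.natDegree + τ := by omega
  rw [e5, coeff_mul_X_pow, coeff_C_mul, coeff_natDegree, hMl]
  ring

end Pool.Agent.H526.PQ.Cube2
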