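import Pool.Agent.H526.PQ.Stm

/-!
# Task ORTHASM: orthogonality to multiplicative functions (helper384)
-/

set_option autoImplicit false

namespace Pool.Agent.H526.PQ.OrthAsm

open Polynomial
open scoped Classical
open Pool.Agent.H985.Chow (mob)
open Pool.Agent.H694.Typ (Mn mem_Mn card_Mn)
open Pool.Agent.H604.LD (fa)

theorem mob_abs {K : Type} [Field K] (F : K[X]) : |(mob F : ℝ)| ≤ 1 := by
  unfold mob
  split_ifs
  · rcases neg_one_pow_eq_or ℤ (Multiset.card (UniqueFactorizationMonoid.factors F)) with h | h <;>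
      rw [h] <;> simp
  · simp

theorem mob_zero {K : Type} [Field K] {F π : K[X]} (hπ : Irreducible π) (h : π * π ∣ F) :
    mob F = 0 := by
  unfold mob
  rw [if_neg]
  intro hs
  exact hπ.not_isUnit (hs π h)

theorem fa_zero {K : Type} [Field K] {γ : K} {b a π : K[X]} (hπ : Irreducible π) (h1 : π ∣ a)
    (h2 : π ∣ b) : mob (fa γ b a) = 0 := by
  apply mob_zero hπ
  obtain ⟨u, rfl⟩ := h1
  obtain ⟨v, rfl⟩ := h2
  unfold fa
  exact ⟨u ^ 2 + X * (C γ * v) ^ 2, by ring⟩

section split

variable {K : Type} [Field K] [Fintype K]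

theorem fib {d : ℕ} {D r : K[X]} (hD : D.Monic) (hd : D.natDegree ≤ d) (hr : r.degree < D.degree) :
    (Mn K d).filter (fun B => B %ₘ D = r) =
      (Mn K (d - D.natDegree)).image (fun c => r + D * c) := by
  ext B
  rw [Finset.mem_filter, Finset.mem_image, mem_Mn]
  constructor
  · rintro ⟨⟨hB, hBd⟩, hBr⟩
    have h1 := modByMonic_add_div B D
    rw [hBr] at h1
    have h2 : D * (B /ₘ D) = B - r := by linear_combination h1
    have hlt : r.degree < B.degree := by
      refine lt_of_lt_of_le hr ?_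
      rw [degree_eq_natDegree hB.ne_zero, degree_eq_natDegree hD.ne_zero, hBd]
      exact_mod_cast hd
    have h3 : (D * (B /ₘ D)).Monic := by
      rw [h2]
      exact hB.sub_of_left hlt
    have h4 : (D * (B /ₘ D)).natDegree = d := by
      rcases eq_or_ne r 0 with h0 | h0
      · rw [h2, h0, sub_zero, hBd]
      · rw [h2, natDegree_sub_eq_left_of_natDegree_lt (natDegree_lt_natDegree h0 hlt), hBd]
    have h5 : (B /ₘ D).Monic := hD.of_mul_monic_left h3
    refine ⟨B /ₘ D, ?_, h1⟩
    rw [mem_Mn]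
    refine ⟨h5, ?_⟩
    rw [hD.natDegree_mul h5] at h4
    omega
  · rintro ⟨c, hc, rfl⟩
    rw [mem_Mn] at hc
    have h3 : (D * c).Monic := hD.mul hc.1
    have h4 : (D * c).natDegree = d := by
      rw [hD.natDegree_mul hc.1, hc.2]
      omega
    have hlt : r.degree < (D * c).degree := by
      refine lt_of_lt_of_le hr ?_
      rw [degree_eq_natDegree h3.ne_zero, degree_eq_natDegree hD.ne_zero, h4]
      exact_mod_cast hd
    refine ⟨⟨h3.add_of_right hlt, ?_⟩, ?_⟩
    · rw [natDegree_add_eq_right_of_degree_lt hlt, h4]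
    · rw [add_modByMonic, (modByMonic_eq_self_iff hD).2 hr,
        (modByMonic_eq_zero_iff_dvd hD).2 (dvd_mul_right _ _), add_zero]

theorem card_im {d : ℕ} {D : K[X]} (hD : D.Monic) :
    ((Mn K d).image (fun B => B %ₘ D)).card ≤ Fintype.card K ^ D.natDegree := by
  rw [← card_Mn (k := K) D.natDegree]
  refine (Finset.card_le_card (t := (Mn K D.natDegree).image (fun a => a - X ^ D.natDegree))
    ?_).trans Finset.card_image_le
  intro r hr
  rw [Finset.mem_image] at hr ⊢
  obtain ⟨B, -, rfl⟩ := hr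
  have h1 : (B %ₘ D).degree < D.degree := degree_modByMonic_lt B hD
  have h2 : (B %ₘ D).degree < (X ^ D.natDegree : K[X]).degree := by
    rw [degree_X_pow, ← degree_eq_natDegree hD.ne_zero]
    exact h1
  refine ⟨B %ₘ D + X ^ D.natDegree, ?_, by ring⟩
  rw [mem_Mn]
  refine ⟨(monic_X_pow _).add_of_right h2, ?_⟩
  rw [natDegree_add_eq_right_of_degree_lt h2, natDegree_X_pow]

theorem split_sum {d : ℕ} {D : K[X]} (hD : D.Monic) (hd : D.natDegree ≤ d) (f : K[X] → ℝ) :
    ∑ B ∈ Mn K d, f B = ∑ r ∈ (Mn K d).image (fun B => B %ₘ D),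
      ∑ c ∈ Mn K (d - D.natDegree), f (r + D * c) := by
  rw [← Finset.sum_fiberwise_of_maps_to (s := Mn K d)
    (t := (Mn K d).image (fun B => B %ₘ D)) (g := fun B => B %ₘ D)
    (fun B hB => Finset.mem_image_of_mem _ hB)]
  refine Finset.sum_congr rfl fun r hr => ?_
  rw [Finset.mem_image] at hr
  obtain ⟨B, -, rfl⟩ := hr
  rw [fib hD hd (degree_modByMonic_lt B hD), Finset.sum_image]
  intro x _ y _ hxy
  have : D * x = D * y := add_left_cancel hxy
  exact mul_left_cancel₀ hD.ne_zero this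

end split

theorem main : S_orthasm := by
  intro htii hkat K _ _ _ g hg
  obtain ⟨c, hc, d₁, ht⟩ := htii (1 / 2) (by norm_num)
  set γ : K := g.leadingCoeff with hγdef
  have hγ : γ ≠ 0 := leadingCoeff_ne_zero.2 hg
  set b : K[X] := C γ⁻¹ * g with hbdef
  have hb : b.Monic := by
    rw [hbdef, Monic, leadingCoeff_mul, leadingCoeff_C, ← hγdef, inv_mul_cancel₀ hγ]
  have hgb : C γ * b = g := by
    rw [hbdef, ← mul_assoc, ← C_mul, mul_inv_cancel₀ hγ, C_1, one_mul]
  have hq1 : (1 : ℝ) ≤ (Fintype.card K : ℝ) := by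
    exact_mod_cast (Fintype.one_lt_card (α := K)).le
  have hq0 : (0 : ℝ) < (Fintype.card K : ℝ) := by linarith
  have key : ∀ d : ℕ, max d₁ (10 * b.natDegree + 1) ≤ d → ∀ P Q : K[X], P.Monic → Q.Monic →
      Irreducible P → Irreducible Q → P ≠ Q → P.natDegree = Q.natDegree → P.natDegree ≤ d →
      |∑ B ∈ Mn K d, (mob (fa γ b (P * B)) : ℝ) * (mob (fa γ b (Q * B)) : ℝ)| ≤
        (Fintype.card K : ℝ) ^ ((d : ℝ) - c * d) := by
    intro d hd P Q hP hQ hPi hQi hPQ hdeg hPd
    have hd1 : d₁ ≤ d := (le_max_left _ _).trans hd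
    have hd2 : 10 * b.natDegree + 1 ≤ d := (le_max_right _ _).trans hd
    by_cases hPb : P ∣ b
    · have h0 : ∑ B ∈ Mn K d, (mob (fa γ b (P * B)) : ℝ) * (mob (fa γ b (Q * B)) : ℝ) = 0 := by
        refine Finset.sum_eq_zero fun B _ => ?_
        rw [fa_zero hPi (dvd_mul_right P B) hPb]
        simp
      rw [h0, abs_zero]
      positivity
    by_cases hQb : Q ∣ b
    · have h0 : ∑ B ∈ Mn K d, (mob (fa γ b (P * B)) : ℝ) * (mob (fa γ b (Q * B)) : ℝ) = 0 := by
        refine Finset.sum_eq_zero fun B _ => ?_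
        rw [fa_zero hQi (dvd_mul_right Q B) hQb]
        simp
      rw [h0, abs_zero]
      positivity
    have hcop : IsCoprime (P * Q) b :=
      IsCoprime.mul_left ((hPi.coprime_iff_not_dvd).2 hPb) ((hQi.coprime_iff_not_dvd).2 hQb)
    set D : K[X] := b ^ 5 with hD
    have hDm : D.Monic := hb.pow 5
    have hDd : D.natDegree = 5 * b.natDegree := by rw [hD, natDegree_pow]
    have hDle : D.natDegree ≤ d := by omega
    rw [split_sum hDm hDle (fun B => (mob (fa γ b (P * B)) : ℝ) * (mob (fa γ b (Q * B)) : ℝ))]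
    have hterm : ∀ r ∈ (Mn K d).image (fun B => B %ₘ D),
        |∑ e ∈ Mn K (d - D.natDegree), (mob (fa γ b (P * (r + D * e))) : ℝ) *
          (mob (fa γ b (Q * (r + D * e))) : ℝ)| ≤
        (Fintype.card K : ℝ) ^ ((d : ℝ) - D.natDegree - c * d) := by
      intro r hr
      rw [Finset.mem_image] at hr
      obtain ⟨B, -, rfl⟩ := hr
      by_cases hrb : IsCoprime (B %ₘ D) b
      · refine ht K γ b hγ hb d hd1 P Q D (B %ₘ D) hP hQ hPQ ?_ ?_ hcop hrb hDm dvd_rfl ?_ ?_
        · have : (P.natDegree : ℝ) ≤ d := by exact_mod_cast hPd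
          have h0 : (0 : ℝ) ≤ P.natDegree := Nat.cast_nonneg _
          linarith
        · have : (Q.natDegree : ℝ) ≤ d := by rw [← hdeg]; exact_mod_cast hPd
          have h0 : (0 : ℝ) ≤ Q.natDegree := Nat.cast_nonneg _
          linarith
        · have h0 : (D.natDegree : ℝ) = 5 * b.natDegree := by rw [hDd]; push_cast; ring
          have h1 : (10 * b.natDegree + 1 : ℝ) ≤ d := by exact_mod_cast hd2
          rw [h0]
          linarith
        · refine lt_of_lt_of_le (degree_modByMonic_lt B hDm) ?_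
          rw [degree_eq_natDegree hDm.ne_zero]
          exact_mod_cast hDle
      · have hex : ∃ π : K[X], Irreducible π ∧ π ∣ B %ₘ D ∧ π ∣ b := by
          by_contra hcon
          push Not at hcon
          exact hrb (isCoprime_of_irreducible_dvd (fun h => hb.ne_zero h.2) hcon)
        obtain ⟨π, hπ, hπr, hπb⟩ := hex
        have h0 : ∑ e ∈ Mn K (d - D.natDegree), (mob (fa γ b (P * (B %ₘ D + D * e))) : ℝ) *
            (mob (fa γ b (Q * (B %ₘ D + D * e))) : ℝ) = 0 := by
          refine Finset.sum_eq_zero fun e _ => ?_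
          have h1 : π ∣ P * (B %ₘ D + D * e) := by
            refine Dvd.dvd.mul_left (dvd_add hπr ?_) _
            refine Dvd.dvd.mul_right ?_ _
            rw [hD]
            exact dvd_pow hπb (by norm_num)
          rw [fa_zero hπ h1 hπb]
          simp
        rw [h0, abs_zero]
        positivity
    refine (Finset.abs_sum_le_sum_abs _ _).trans ?_
    refine (Finset.sum_le_sum hterm).trans ?_
    rw [Finset.sum_const, nsmul_eq_mul]
    have hcard : (((Mn K d).image (fun B => B %ₘ D)).card : ℝ) ≤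
        (Fintype.card K : ℝ) ^ (D.natDegree : ℝ) := by
      rw [Real.rpow_natCast]
      exact_mod_cast card_im (d := d) hDm
    refine (mul_le_mul_of_nonneg_right hcard (by positivity)).trans ?_
    rw [← Real.rpow_add hq0]
    refine le_of_eq ?_
    congr 1
    ring
  obtain ⟨C₀, hC⟩ := hkat K c (max d₁ (10 * b.natDegree + 1)) (fun a => (mob (fa γ b a) : ℝ)) hc
    (fun f => mob_abs _) key
  refine ⟨C₀, fun m hm F hF hFm => ?_⟩
  have h1 := hC m hm F hF hFm
  have h2 : ∀ a : K[X], fa γ b a = a ^ 2 + X * g ^ 2 := by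
    intro a
    unfold fa
    rw [hgb]
  simpa only [h2, Complex.ofReal_intCast] using h1

end Pool.Agent.H526.PQ.OrthAsm
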