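import Pool.Agent.H526.PQ.StmK
import Pool.Agent.H526.PQ.OrthAsm

/-!
# Task ORTHKASM: orthogonality of the products to multiplicative functions (helper401)
-/

set_option autoImplicit false

namespace Pool.Agent.H526.PQ.OrthkAsm

open Polynomial
open scoped Classical
open Pool.Agent.H985.Chow (mob)
open Pool.Agent.H694.Typ (Mn mem_Mn card_Mn)
open Pool.Agent.H604.LD (fa om bt)
open Pool.Agent.H526.PQ.OrthAsm (mob_abs card_im split_sum)

theorem mbt_abs {K : Type} [Field K] {n : ℕ} (γ : Fin n → K) (b : Fin n → K[X]) (a : K[X]) :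
    |mbt γ b a| ≤ 1 := by
  unfold mbt
  rw [Finset.abs_prod]
  exact Finset.prod_le_one (fun i _ => abs_nonneg _) (fun i _ => mob_abs _)

theorem main : Pool.Agent.H526.PQ.S_orthkasm := by
  intro htii hkat K _ _ _ n g hg hom
  obtain ⟨c, hc, d₁, ht⟩ := htii (1 / 2) (by norm_num)
  obtain ⟨γ, hγdef⟩ : ∃ γ : Fin n → K, ∀ i, γ i = (g i).leadingCoeff := ⟨_, fun _ => rfl⟩
  have hγ : ∀ i, γ i ≠ 0 := fun i => by
    rw [hγdef]
    exact leadingCoeff_ne_zero.2 (hg i)
  obtain ⟨b, hbdef⟩ : ∃ b : Fin n → K[X], ∀ i, b i = C (γ i)⁻¹ * g i := ⟨_, fun _ => rfl⟩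
  have hb : ∀ i, (b i).Monic := fun i => by
    rw [hbdef, Monic, leadingCoeff_mul, leadingCoeff_C, ← hγdef, inv_mul_cancel₀ (hγ i)]
  have hgb : ∀ i, C (γ i) * b i = g i := fun i => by
    rw [hbdef, ← mul_assoc, ← C_mul, mul_inv_cancel₀ (hγ i), C_1, one_mul]
  have homn : om γ b ≠ 0 := by
    have h1 : om γ b = ∑ i, ∏ j ∈ Finset.univ.erase i, g j := by
      unfold om bt
      simp only [hgb]
    rw [h1]
    exact hom
  obtain ⟨β, hβ⟩ : ∃ β : K[X], β = ∏ i, b i := ⟨_, rfl⟩
  have hβm : β.Monic := by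
    rw [hβ]
    exact monic_prod_of_monic _ _ fun i _ => hb i
  have hq1 : (1 : ℝ) ≤ (Fintype.card K : ℝ) := by
    exact_mod_cast (Fintype.one_lt_card (α := K)).le
  have hq0 : (0 : ℝ) < (Fintype.card K : ℝ) := by linarith
  have key : ∀ d : ℕ, max d₁ (10 * β.natDegree + 1) ≤ d → ∀ P Q : K[X], P.Monic → Q.Monic →
      Irreducible P → Irreducible Q → P ≠ Q → P.natDegree = Q.natDegree → P.natDegree ≤ d →
      |∑ B ∈ Mn K d, mbt γ b (P * B) * mbt γ b (Q * B)| ≤
        (Fintype.card K : ℝ) ^ ((d : ℝ) - c * d) := by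
    intro d hd P Q hP hQ hPi hQi hPQ hdeg hPd
    have hd1 : d₁ ≤ d := (le_max_left _ _).trans hd
    have hd2 : 10 * β.natDegree + 1 ≤ d := (le_max_right _ _).trans hd
    obtain ⟨D, hD⟩ : ∃ D : K[X], D = β ^ 5 := ⟨_, rfl⟩
    have hDm : D.Monic := by rw [hD]; exact hβm.pow 5
    have hDd : D.natDegree = 5 * β.natDegree := by rw [hD, natDegree_pow]
    have hDle : D.natDegree ≤ d := by omega
    rw [split_sum hDm hDle (fun B => mbt γ b (P * B) * mbt γ b (Q * B))]
    have hterm : ∀ r ∈ (Mn K d).image (fun B => B %ₘ D),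
        |∑ e ∈ Mn K (d - D.natDegree), mbt γ b (P * (r + D * e)) *
          mbt γ b (Q * (r + D * e))| ≤
        (Fintype.card K : ℝ) ^ ((d : ℝ) - D.natDegree - c * d) := by
      intro r hr
      rw [Finset.mem_image] at hr
      obtain ⟨B, -, rfl⟩ := hr
      have hPh : (P.natDegree : ℝ) ≤ d := by exact_mod_cast hPd
      have hQh : (Q.natDegree : ℝ) ≤ d := by rw [← hdeg]; exact_mod_cast hPd
      have h0P : (0 : ℝ) ≤ P.natDegree := Nat.cast_nonneg _
      have h0Q : (0 : ℝ) ≤ Q.natDegree := Nat.cast_nonneg _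
      have h1 := ht K n γ b hγ hb homn d hd1 2 ![P, Q] D (B %ₘ D)
        (by
          intro j
          fin_cases j
          · exact hP
          · exact hQ)
        (by
          rw [Fin.sum_univ_two]
          intro h2
          exact hPQ (CharTwo.add_eq_zero.1 h2))
        (by
          intro j
          fin_cases j
          · show 1 / 2 * (P.natDegree : ℝ) ≤ d
            linarith
          · show 1 / 2 * (Q.natDegree : ℝ) ≤ d
            linarith)
        hDm (by rw [hD, hβ])
        (by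
          have h0 : (D.natDegree : ℝ) = 5 * β.natDegree := by rw [hDd]; push_cast; ring
          have h1 : (10 * β.natDegree + 1 : ℝ) ≤ d := by exact_mod_cast hd2
          rw [h0]
          linarith)
        (by
          refine lt_of_lt_of_le (degree_modByMonic_lt B hDm) ?_
          rw [degree_eq_natDegree hDm.ne_zero]
          exact_mod_cast hDle)
      have h3 : ∀ e : K[X], ∏ j : Fin 2, mbt γ b ((![P, Q] : Fin 2 → K[X]) j *
          (B %ₘ D + D * e)) = mbt γ b (P * (B %ₘ D + D * e)) *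
            mbt γ b (Q * (B %ₘ D + D * e)) := fun e => Fin.prod_univ_two _
      simp only [h3] at h1
      exact h1
    refine (Finset.abs_sum_le_sum_abs _ _).trans ?_
    refine (Finset.sum_le_sum hterm).trans ?_
    rw [Finset.sum_const, nsmul_eq_mul]
    have hcard : (((Mn K d).image (fun B => B %ₘ D)).card : ℝ) ≤
        (Fintype.card K : ℝ) ^ (D.natDegree : ℝ) := by
      rw [Real.rpow_natCast]
      exact_mod_cast card_im (d := d) hDm
    refine (mul_le_mul_of_nonneg_right hcard (by positivity)).trans ?_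
    rw [← Real.rpow_add hq0]
    refine le_of_eq ?_
    congr 1
    ring
  obtain ⟨C₀, hC⟩ := hkat K c (max d₁ (10 * β.natDegree + 1)) (fun a => mbt γ b a) hc
    (fun f => mbt_abs γ b f) key
  refine ⟨C₀, fun m hm F hF hFm => ?_⟩
  have h1 := hC m hm F hF hFm
  have h2 : ∀ a : K[X], ((mbt γ b a : ℝ) : ℂ) = ∏ i, (mob (a ^ 2 + X * g i ^ 2) : ℂ) := by
    intro a
    unfold mbt
    rw [Complex.ofReal_prod]
    refine Finset.prod_congr rfl fun i _ => ?_
    have h3 : fa (γ i) (b i) a = a ^ 2 + X * g i ^ 2 := by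
      unfold fa
      rw [hgb]
    rw [h3, Complex.ofReal_intCast]
  simp only [h2] at h1
  exact h1

end Pool.Agent.H526.PQ.OrthkAsm
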