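import Pool.Agent.H526.PQ.StmK
import Pool.Agent.H523.RH2

/-!
# The prime number theorem in residue classes (task PAP), by helper168

The theorem `Pool.Agent.H523.RH.pnt` with `κ = 0`, and `Pool.Agent.H523.RH.Phi_prod`.
-/

set_option autoImplicit false

namespace Pool.Agent.H526.PQ.Pap

open Polynomial
open scoped Classical
open Pool.Agent.H694.Typ (Mn Irn PU mem_Mn mem_Irn mem_PU)
open Pool.Agent.H523.RH (Phi pnt Phi_prod)
open Pool.Agent.H523.FF (Ir mem_Ir)
open Pool.Agent.H341R2.Sharp (Mon mem_Mon)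

section
variable {K : Type} [Field K] [Fintype K]

/-- a squarefree monic polynomial is the product of its irreducible divisors -/
theorem eq_prod {D : K[X]} (hD : D.Monic) (hs : Squarefree D) :
    ∏ π ∈ (PU K D.natDegree).filter (fun π => π ∣ D), π = D := by
  have hmem : ∀ π, π ∈ (PU K D.natDegree).filter (fun π => π ∣ D) ↔
      π.Monic ∧ Irreducible π ∧ π ∣ D := by
    intro π
    rw [Finset.mem_filter, mem_PU]
    constructor
    · rintro ⟨⟨h1, h2, h3⟩, h4⟩
      exact ⟨by assumption, by assumption, h4⟩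
    · rintro ⟨h1, h2, h3⟩
      have h4 : π.natDegree ≤ D.natDegree := natDegree_le_of_dvd h3 hD.ne_zero
      refine ⟨⟨?_, ?_, ?_⟩, h3⟩ <;> assumption
  set S := (PU K D.natDegree).filter (fun π => π ∣ D) with hS
  have hmon : (∏ π ∈ S, π).Monic := monic_prod_of_monic _ _ (fun π hπ => ((hmem π).1 hπ).1)
  have hsub : ∏ π ∈ S, π ∣ D := by
    apply Finset.prod_dvd_of_coprime
    · intro a ha b hb hab
      have ha' := (hmem a).1 ha
      have hb' := (hmem b).1 hb
      show IsCoprime a b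
      rw [ha'.2.1.coprime_iff_not_dvd]
      intro hd
      exact hab (eq_of_monic_of_associated ha'.1 hb'.1 (ha'.2.1.associated_of_dvd hb'.2.1 hd))
    · intro a ha
      exact ((hmem a).1 ha).2.2
  obtain ⟨E, hE⟩ := hsub
  have hEm : E.Monic := by
    apply hmon.of_mul_monic_left
    rw [← hE]
    exact hD
  by_cases hu : IsUnit E
  · have : E = 1 := hEm.eq_one_of_isUnit hu
    rw [this, mul_one] at hE
    exact hE.symm
  · exfalso
    obtain ⟨ρ, hρm, hρi, hρE⟩ := exists_monic_irreducible_factor E hu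
    have hρD : ρ ∣ D := hE ▸ (hρE.mul_left _)
    have hρS : ρ ∈ S := (hmem ρ).2 ⟨hρm, hρi, hρD⟩
    have h2 : ρ * ρ ∣ D := by
      rw [hE]
      exact mul_dvd_mul (Finset.dvd_prod_of_mem _ hρS) hρE
    exact hρi.not_isUnit (hs ρ h2)

/-- the explicit form, with the square root error term -/
theorem pap (m : ℕ) (D r : K[X]) (hm : 1 ≤ m) (hD : D.Monic) (hs : Squarefree D)
    (hr : IsCoprime r D) (hdm : D.natDegree < m) :
    |(((Irn K m).filter (fun P => D ∣ P - r)).card : ℝ) -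
      (Fintype.card K : ℝ) ^ m / m /
        ∏ π ∈ (PU K D.natDegree).filter (fun π => π ∣ D), ((Fintype.card K : ℝ) ^ π.natDegree - 1)| ≤
      6 * (√(Fintype.card K : ℝ)) ^ m := by
  set q : ℝ := (Fintype.card K : ℝ) with hq
  have hq1 : (1 : ℝ) ≤ q := by
    rw [hq]
    exact_mod_cast Fintype.card_pos
  have hm0 : (0 : ℝ) < m := by exact_mod_cast hm
  set f₀ : K[X] := X ^ m + ((r - X ^ m) %ₘ D) with hf₀
  have hdeg : ((r - X ^ m) %ₘ D).degree < (m : WithBot ℕ) := by
    refine lt_of_lt_of_le (degree_modByMonic_lt _ hD) ?_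
    rw [degree_eq_natDegree hD.ne_zero]
    exact_mod_cast hdm.le
  have hf₀m : f₀ ∈ Mon K m := by
    rw [mem_Mon]
    refine ⟨monic_X_pow_add hdeg, ?_⟩
    apply natDegree_eq_of_degree_eq_some
    rw [hf₀, degree_add_eq_left_of_degree_lt (by rw [degree_X_pow]; exact hdeg), degree_X_pow]
  have hcong : D ∣ f₀ - r := by
    have h := modByMonic_add_div (r - X ^ m : K[X]) D
    refine ⟨-((r - X ^ m) /ₘ D), ?_⟩
    rw [hf₀]
    linear_combination h
  have hcop : IsCoprime f₀ D := by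
    obtain ⟨c, hc⟩ := hcong
    have h1 : f₀ = r + D * c := by linear_combination hc
    rw [h1]
    exact hr.add_mul_left_left c
  have hmain := pnt hD 0 m hm (Nat.zero_le m) hf₀m hcop
  have hset : (Ir K m).filter
      (fun P => D ∣ P - f₀ ∧ (P - f₀).degree < ((m - 0 : ℕ) : WithBot ℕ)) =
      (Irn K m).filter (fun P => D ∣ P - r) := by
    ext P
    rw [Finset.mem_filter, Finset.mem_filter, mem_Ir, mem_Irn]
    constructor
    · rintro ⟨⟨h1, h2, h3⟩, h4, -⟩
      refine ⟨⟨h1, h3, h2⟩, ?_⟩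
      have := dvd_add h4 hcong
      rwa [sub_add_sub_cancel] at this
    · rintro ⟨⟨h1, h2, h3⟩, h4⟩
      refine ⟨⟨h1, h3, h2⟩, ?_, ?_⟩
      · have := dvd_sub h4 hcong
        rwa [sub_sub_sub_cancel_right] at this
      · have h5 := mem_Mon.1 hf₀m
        have h6 := degree_sub_lt_left (p := P) (q := f₀)
          (by rw [degree_eq_natDegree h1.ne_zero, degree_eq_natDegree h5.1.ne_zero, h2, h5.2])
          h1.ne_zero (by rw [h1.leadingCoeff, h5.1.leadingCoeff])
        rw [degree_eq_natDegree h1.ne_zero, h2] at h6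
        rw [Nat.sub_zero]
        exact h6
  rw [hset] at hmain
  have hPhi : (Phi D 0 : ℝ) =
      ∏ π ∈ (PU K D.natDegree).filter (fun π => π ∣ D), (q ^ π.natDegree - 1) := by
    have h1 := Phi_prod ((PU K D.natDegree).filter (fun π => π ∣ D)) (by
      intro P hP
      rw [Finset.mem_filter, mem_PU] at hP
      obtain ⟨⟨h1, h2, h3⟩, h4⟩ := hP
      refine ⟨?_, ?_⟩ <;> assumption) 0
    rw [eq_prod hD hs, pow_zero, one_mul] at h1
    exact h1
  rw [hPhi, ← hq] at hmain
  set W : ℝ := ∏ π ∈ (PU K D.natDegree).filter (fun π => π ∣ D), (q ^ π.natDegree - 1) with hW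
  set N : ℝ := (((Irn K m).filter (fun P => D ∣ P - r)).card : ℝ) with hN
  have hR : 0 ≤ (√q) ^ m := by positivity
  have h1 : N - q ^ m / m / W = (m * N - q ^ m / W) / m := by
    field_simp
  rw [h1, abs_div, abs_of_pos hm0, div_le_iff₀ hm0]
  refine hmain.trans ?_
  have h2 : (D.natDegree : ℝ) + 1 ≤ m := by exact_mod_cast hdm
  push_cast
  have h3 : (2 * (D.natDegree : ℝ) + 0 + 4) ≤ 6 * m := by
    have : (1 : ℝ) ≤ m := by exact_mod_cast hm
    linarith
  calc (2 * (D.natDegree : ℝ) + 0 + 4) * (√q) ^ m ≤ 6 * m * (√q) ^ m :=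
        mul_le_mul_of_nonneg_right h3 hR
    _ = 6 * (√q) ^ m * m := by ring

end

/-- **Task PAP** -/
theorem main : Pool.Agent.H526.PQ.S_pap := by
  intro K _ _
  refine ⟨6, by norm_num, ?_⟩
  intro m D r hm hD hs hr hdm
  refine (pap m D r hm hD hs hr hdm).trans ?_
  set q : ℝ := (Fintype.card K : ℝ) with hq
  have hq1 : (1 : ℝ) ≤ q := by
    rw [hq]
    exact_mod_cast Fintype.card_pos
  have hm1 : (1 : ℝ) ≤ m := by exact_mod_cast hm
  have h1 : (√q) ^ m = q ^ ((1 : ℝ) / 2 * m) := by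
    rw [Real.sqrt_eq_rpow, ← Real.rpow_natCast, ← Real.rpow_mul (by linarith)]
  rw [h1]
  have h2 : q ^ ((1 : ℝ) / 2 * m) ≤ q ^ ((3 : ℝ) / 4 * m) := by
    apply Real.rpow_le_rpow_of_exponent_le hq1
    linarith
  have h3 : (0 : ℝ) ≤ q ^ ((3 : ℝ) / 4 * m) := Real.rpow_nonneg (by linarith) _
  calc 6 * q ^ ((1 : ℝ) / 2 * m) ≤ 6 * q ^ ((3 : ℝ) / 4 * m) := by linarith
    _ ≤ 6 * m * q ^ ((3 : ℝ) / 4 * m) := by
        apply mul_le_mul_of_nonneg_right _ h3
        linarith

end Pool.Agent.H526.PQ.Pap
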