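import Pool.Agent.H526.PQ.StmK

/-!
# Task PATTASM: equidistribution of the sign patterns (helper278)
-/

set_option autoImplicit false

namespace Pool.Agent.H526.PQ.PattAsm

open Polynomial
open scoped Classical
open Pool.Agent.H985.Chow (mob)
open Pool.Agent.H694.Typ (Mn Irn PU)
open Pool.Agent.H604.LD (fa phg S_parinfg om)
open Pool.Agent.H985.Par (S_brun Sft)

theorem mob_sqf {K : Type} [Field K] {F : K[X]} (h : Squarefree F) : mob F = 1 ∨ mob F = -1 := by
  unfold mob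
  rw [if_pos h]
  exact neg_one_pow_eq_or ℤ _

theorem mem_irn {K : Type} [Field K] [Fintype K] {m : ℕ} {P : K[X]} (h : P ∈ Irn K m) :
    P.natDegree = m ∧ Irreducible P := by
  unfold Irn at h
  rw [Finset.mem_filter, Pool.Agent.H694.Typ.mem_Mn] at h
  exact ⟨h.1.2, h.2⟩

/-- the values are squarefree -/
theorem sqf {K : Type} [Field K] [CharP K 2] {P g : K[X]} (hP : Irreducible P) (hg : g ≠ 0)
    (hd : g.natDegree < P.natDegree) : Squarefree (P ^ 2 + X * g ^ 2) := by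
  intro x hx
  have h2 : (2 : K[X]) = 0 := by
    have h3 : ((2 : ℕ) : K[X]) = 0 := by
      rw [← map_natCast (C : K →+* K[X]) 2, CharP.cast_eq_zero K 2, map_zero]
    exact_mod_cast h3
  have hder : derivative (P ^ 2 + X * g ^ 2) = g ^ 2 := by
    rw [derivative_add, derivative_mul, derivative_X, derivative_pow, derivative_pow]
    have e : ((2 : ℕ) : K) = 0 := CharP.cast_eq_zero K 2
    rw [e]
    simp
  have hxg : x ∣ g ^ 2 := by
    obtain ⟨c, hc⟩ := hx
    rw [← hder, hc, derivative_mul, derivative_mul]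
    exact ⟨derivative x * c + derivative x * c + x * derivative c, by ring⟩
  have hx0 : x ≠ 0 := by
    rintro rfl
    exact pow_ne_zero 2 hg (zero_dvd_iff.1 hxg)
  by_contra hu
  obtain ⟨π, hπ, hπx⟩ := WfDvdMonoid.exists_irreducible_factor hu hx0
  have hπp : Prime π := hπ.prime
  have hπg : π ∣ g := hπp.dvd_of_dvd_pow (hπx.trans hxg)
  have hπF : π ∣ P ^ 2 + X * g ^ 2 := (hπx.trans (Dvd.intro x rfl)).trans hx
  have hπP : π ∣ P := by
    apply hπp.dvd_of_dvd_pow (n := 2)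
    have h4 : π ∣ X * g ^ 2 := Dvd.dvd.mul_left (dvd_pow hπg two_ne_zero) X
    exact (dvd_add_left h4).1 hπF
  have hPπ : P ∣ π := hπ.dvd_symm hP hπP
  have h5 := natDegree_le_of_dvd (hPπ.trans hπg) hg
  omega

theorem main : S_pattasm := by
  intro hS K _ _ _ n g ε hg hadm hT hε
  obtain ⟨κ, hκ, m₀, h⟩ := hS K n g ε hg hadm hε
  refine ⟨κ, hκ, max m₀ (1 + ∑ i, (g i).natDegree), fun m z hm hz hzm => ?_⟩
  obtain ⟨h1, h2⟩ := h m z (le_trans (le_max_left _ _) hm) hz hzm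
  refine ⟨h1, fun σ hσ => ?_⟩
  set W : ℝ := vpR g z * (Fintype.card K : ℝ) ^ m / m with hW
  set S := Sift K g m z with hSd
  have hεW : 0 ≤ ε * W := (abs_nonneg _).trans h1
  have hmg : ∀ i, (g i).natDegree < m := by
    intro i
    have h3 : (g i).natDegree ≤ ∑ i, (g i).natDegree :=
      Finset.single_le_sum (f := fun i => (g i).natDegree) (fun _ _ => Nat.zero_le _) (Finset.mem_univ i)
    have h4 : 1 + ∑ i, (g i).natDegree ≤ m := le_trans (le_max_right _ _) hm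
    omega
  have hsq : ∀ P ∈ S, ∀ i, Squarefree (P ^ 2 + X * g i ^ 2) := by
    intro P hP i
    rw [hSd] at hP
    unfold Sift at hP
    rw [Finset.mem_filter] at hP
    obtain ⟨hd, hirr⟩ := mem_irn hP.1
    exact sqf hirr (hg i) (by rw [hd]; exact hmg i)
  have hcard : (((S.filter (fun P => ∀ i, mob (P ^ 2 + X * g i ^ 2) = σ i)).card : ℝ)) =
      (∑ P ∈ S, ∏ i, (1 + (σ i : ℝ) * (mob (P ^ 2 + X * g i ^ 2) : ℝ))) / 2 ^ n := by
    rw [Finset.card_filter, Finset.sum_div]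
    push_cast
    refine Finset.sum_congr rfl (fun P hP => ?_)
    have e0 : (∏ i, (1 + (σ i : ℝ) * (mob (P ^ 2 + X * g i ^ 2) : ℝ))) / 2 ^ n =
        ∏ i : Fin n, ((1 + (σ i : ℝ) * (mob (P ^ 2 + X * g i ^ 2) : ℝ)) / 2) := by
      rw [Finset.prod_div_distrib, Finset.prod_const, Finset.card_univ, Fintype.card_fin]
    rw [e0]
    have e8 : ∀ i, (1 + (σ i : ℝ) * (mob (P ^ 2 + X * g i ^ 2) : ℝ)) / 2 =
        if mob (P ^ 2 + X * g i ^ 2) = σ i then 1 else 0 := by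
      intro i
      rcases hσ i with h | h <;> rcases mob_sqf (hsq P hP i) with h' | h' <;>
        rw [h, h'] <;> norm_num
    rw [Finset.prod_congr rfl fun i _ => e8 i, Finset.prod_ite_zero]
    simp
  have hexp : ∑ P ∈ S, ∏ i, (1 + (σ i : ℝ) * (mob (P ^ 2 + X * g i ^ 2) : ℝ)) =
      S.card + ∑ T ∈ (Finset.univ : Finset (Fin n)).powerset.erase ∅,
        (∏ i ∈ T, (σ i : ℝ)) * ∑ P ∈ S, ∏ i ∈ T, (mob (P ^ 2 + X * g i ^ 2) : ℝ) := by
    have e1 : ∀ P : K[X], (∏ i, (1 + (σ i : ℝ) * (mob (P ^ 2 + X * g i ^ 2) : ℝ))) =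
        ∑ T ∈ (Finset.univ : Finset (Fin n)).powerset,
          ∏ i ∈ T, ((σ i : ℝ) * (mob (P ^ 2 + X * g i ^ 2) : ℝ)) :=
      fun P => Finset.prod_one_add _
    rw [Finset.sum_congr rfl fun P _ => e1 P, Finset.sum_comm,
      ← Finset.add_sum_erase _ _ (Finset.empty_mem_powerset _)]
    congr 1
    · simp
    · refine Finset.sum_congr rfl fun T _ => ?_
      rw [Finset.mul_sum]
      refine Finset.sum_congr rfl fun P _ => ?_
      rw [Finset.prod_mul_distrib]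
  have hσabs : ∀ T : Finset (Fin n), |∏ i ∈ T, (σ i : ℝ)| ≤ 1 := by
    intro T
    rw [Finset.abs_prod]
    refine Finset.prod_le_one (fun _ _ => abs_nonneg _) fun i _ => ?_
    rcases hσ i with h | h <;> rw [h] <;> simp
  have hTs : |∑ T ∈ (Finset.univ : Finset (Fin n)).powerset.erase ∅,
        (∏ i ∈ T, (σ i : ℝ)) * ∑ P ∈ S, ∏ i ∈ T, (mob (P ^ 2 + X * g i ^ 2) : ℝ)| ≤
      (2 ^ n - 1) * (ε * W) := by
    refine (Finset.abs_sum_le_sum_abs _ _).trans ?_
    have e2 : ∀ T ∈ (Finset.univ : Finset (Fin n)).powerset.erase ∅,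
        |(∏ i ∈ T, (σ i : ℝ)) * ∑ P ∈ S, ∏ i ∈ T, (mob (P ^ 2 + X * g i ^ 2) : ℝ)| ≤ ε * W := by
      intro T hT'
      rw [Finset.mem_erase] at hT'
      rw [abs_mul]
      exact (mul_le_of_le_one_left (abs_nonneg _) (hσabs T)).trans
        (h2 T (hT T (Finset.nonempty_iff_ne_empty.2 hT'.1)))
    refine (Finset.sum_le_sum e2).trans ?_
    rw [Finset.sum_const, nsmul_eq_mul]
    refine mul_le_mul_of_nonneg_right ?_ hεW
    have e3 : ((Finset.univ : Finset (Fin n)).powerset.erase ∅).card = 2 ^ n - 1 := by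
      rw [Finset.card_erase_of_mem (Finset.empty_mem_powerset _), Finset.card_powerset,
        Finset.card_univ, Fintype.card_fin]
    rw [e3, Nat.cast_sub Nat.one_le_two_pow]
    push_cast
    exact le_rfl
  have h2n : (0 : ℝ) < 2 ^ n := by positivity
  have hWn : vpR g z * (Fintype.card K : ℝ) ^ m / (2 ^ n * m) = W / 2 ^ n := by
    rw [hW, div_div, mul_comm (2 ^ n : ℝ)]
  rw [hcard, hexp, hWn, ← sub_div, abs_div, abs_of_pos h2n, div_le_iff₀ h2n]
  set Z := ∑ T ∈ (Finset.univ : Finset (Fin n)).powerset.erase ∅,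
        (∏ i ∈ T, (σ i : ℝ)) * ∑ P ∈ S, ∏ i ∈ T, (mob (P ^ 2 + X * g i ^ 2) : ℝ) with hZ
  have h9 : |(S.card : ℝ) + Z - W| ≤ |(S.card : ℝ) - W| + |Z| := by
    have : (S.card : ℝ) + Z - W = ((S.card : ℝ) - W) + Z := by ring
    rw [this]
    exact abs_add_le _ _
  calc |(S.card : ℝ) + Z - W| ≤ |(S.card : ℝ) - W| + |Z| := h9
    _ ≤ ε * W + (2 ^ n - 1) * (ε * W) := add_le_add h1 hTs
    _ = ε * W * 2 ^ n := by ring

end Pool.Agent.H526.PQ.PattAsm
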