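import Pool.Agent.H526.PQ.Stm

/-!
# Task PRIASM
-/

set_option autoImplicit false
set_option linter.unusedSectionVars false

namespace Pool.Agent.H526.PQ.PriAsm

open Polynomial
open scoped Classical
open Pool.Agent.H985.Chow (mob)
open Pool.Agent.H604.LD (fa S_weylg)
open Pool.Agent.H694.Typ (Mn Irn mem_Mn card_Mn mem_Irn pol pol_degree pol_inj exists_pol)

section

variable {K : Type} [Field K] [Fintype K]

/-- the polynomials of degree less than `e` -/
noncomputable def Rem (K : Type) [Field K] [Fintype K] (e : ℕ) : Finset K[X] :=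
  Finset.univ.image (pol : (Fin e → K) → K[X])

theorem mem_Rem {e : ℕ} {f : K[X]} : f ∈ Rem K e ↔ f.degree < (e : WithBot ℕ) := by
  unfold Rem
  rw [Finset.mem_image]
  constructor
  · rintro ⟨c, -, rfl⟩
    exact pol_degree c
  · intro h
    obtain ⟨c, hc⟩ := exists_pol h
    exact ⟨c, Finset.mem_univ _, hc⟩

theorem card_Rem (e : ℕ) : (Rem K e).card = Fintype.card K ^ e := by
  unfold Rem
  rw [Finset.card_image_of_injective _ pol_inj, Finset.card_univ, Fintype.card_fun,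
    Fintype.card_fin]

theorem sum_split {N : ℕ} {E : K[X]} (hE : E.Monic) (hN : E.natDegree ≤ N) (F : K[X] → ℝ) :
    ∑ B ∈ Mn K N, F B =
      ∑ s ∈ Rem K E.natDegree, ∑ c ∈ Mn K (N - E.natDegree), F (s + E * c) := by
  rw [← Finset.sum_product']
  have hdE : E.degree = (E.natDegree : WithBot ℕ) := degree_eq_natDegree hE.ne_zero
  have key : ∀ s c : K[X], s ∈ Rem K E.natDegree → c ∈ Mn K (N - E.natDegree) →
      s + E * c ∈ Mn K N ∧ (s + E * c) %ₘ E = s ∧ (s + E * c) /ₘ E = c := by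
    intro s c hs hc
    rw [mem_Rem] at hs
    rw [mem_Mn] at hc
    have h1 : (E * c).Monic := hE.mul hc.1
    have h2 : (E * c).natDegree = N := by
      rw [hE.natDegree_mul hc.1, hc.2]
      omega
    have h3 : s.degree < (E * c).degree := by
      rw [degree_eq_natDegree h1.ne_zero, h2]
      exact lt_of_lt_of_le hs (by exact_mod_cast hN)
    have h4 := div_modByMonic_unique c s hE (f := s + E * c)
      ⟨rfl, by rw [hdE]; exact hs⟩
    refine ⟨?_, h4.2, h4.1⟩
    rw [mem_Mn]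
    refine ⟨h1.add_of_right h3, ?_⟩
    rw [natDegree_add_eq_right_of_degree_lt h3, h2]
  refine Finset.sum_nbij' (fun B => (B %ₘ E, B /ₘ E)) (fun p => p.1 + E * p.2) ?_ ?_ ?_ ?_ ?_
  · intro B hB
    rw [mem_Mn] at hB
    rw [Finset.mem_product, mem_Rem, mem_Mn]
    refine ⟨?_, ?_, ?_⟩
    · rw [← hdE]
      exact degree_modByMonic_lt B hE
    · have h1 : E.degree ≤ B.degree := by
        rw [hdE, degree_eq_natDegree hB.1.ne_zero, hB.2]
        exact_mod_cast hN
      exact (leadingCoeff_divByMonic_of_monic hE h1).trans hB.1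
    · rw [natDegree_divByMonic B hE, hB.2]
  · intro p hp
    rw [Finset.mem_product] at hp
    exact (key p.1 p.2 hp.1 hp.2).1
  · intro B hB
    exact modByMonic_add_div B E
  · intro p hp
    rw [Finset.mem_product] at hp
    exact Prod.ext (key p.1 p.2 hp.1 hp.2).2.1 (key p.1 p.2 hp.1 hp.2).2.2
  · intro B hB
    simp only
    rw [modByMonic_add_div B E]

theorem mob_abs (f : K[X]) : |(mob f : ℝ)| ≤ 1 := by
  unfold mob
  split_ifs
  · push_cast
    rw [abs_pow, abs_neg, abs_one, one_pow]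
  · simp

theorem mob_zero {γ : K} {b a : K[X]} (hb : b ≠ 0) (h : ¬ IsCoprime a b) :
    mob (fa γ b a) = 0 := by
  unfold mob
  rw [if_neg]
  intro hs
  apply h
  refine isCoprime_of_prime_dvd (fun h0 => hb h0.2) fun P hP h1 h2 => ?_
  apply hP.not_isUnit
  apply hs P
  obtain ⟨a', rfl⟩ := h1
  obtain ⟨b', rfl⟩ := h2
  exact ⟨a' ^ 2 + X * (C γ * b') ^ 2, by unfold fa; ring⟩

/-- the function -/
noncomputable def Gf (γ : K) (b D r a : K[X]) : ℝ :=
  if D ∣ a - r then (mob (fa γ b a) : ℝ) else 0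

theorem Gf_abs (γ : K) (b D r a : K[X]) : |Gf γ b D r a| ≤ 1 := by
  unfold Gf
  split_ifs
  · exact mob_abs _
  · simp

theorem q_pos : (0 : ℝ) < (Fintype.card K : ℝ) := by
  exact_mod_cast Fintype.card_pos

theorem q_one : (1 : ℝ) ≤ (Fintype.card K : ℝ) := by
  exact_mod_cast Fintype.card_pos

theorem dvd_shift {D E u s c r : K[X]} (h : D ∣ E) :
    D ∣ u * (s + E * c) - r ↔ D ∣ u * s - r := by
  have h1 : u * (s + E * c) - r = (u * s - r) + E * (u * c) := by ring
  rw [h1]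
  exact dvd_add_left (h.mul_right _)

theorem cop_shift {b E u s c : K[X]} (h : b ∣ E) :
    IsCoprime (u * (s + E * c)) b ↔ IsCoprime (u * s) b := by
  obtain ⟨e, rfl⟩ := h
  have h1 : u * (s + b * e * c) = u * s + b * (u * e * c) := by ring
  rw [h1]
  exact IsCoprime.add_mul_left_left_iff

theorem typeI {γ : K} {b : K[X]} (hb : b.Monic) {c1 : ℝ} {m : ℕ}
    (hw : ∀ D r : K[X], D.Monic → b ^ 5 ∣ D → IsCoprime r b →
      (D.natDegree : ℝ) ≤ (1 - 1 / 2) * m → r.degree < (m : WithBot ℕ) →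
      |∑ c ∈ Mn K (m - D.natDegree), (mob (fa γ b (r + D * c)) : ℝ)| ≤
        (Fintype.card K : ℝ) ^ ((m : ℝ) - D.natDegree - c1 * m))
    {D u : K[X]} (r : K[X]) (hD : D.Monic) (hu : u.Monic)
    (hdeg : 2 * (5 * b.natDegree + D.natDegree + u.natDegree) ≤ m) :
    |∑ B ∈ Mn K (m - u.natDegree), Gf γ b D r (u * B)| ≤
      (Fintype.card K : ℝ) ^ (-(c1 * m)) * (Fintype.card K : ℝ) ^ (m - u.natDegree) := by
  set E : K[X] := b ^ 5 * D with hEdef
  have hE : E.Monic := (hb.pow 5).mul hD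
  have hEd : E.natDegree = 5 * b.natDegree + D.natDegree := by
    rw [hEdef, (hb.pow 5).natDegree_mul hD, hb.natDegree_pow]
  have hDE : D ∣ E := Dvd.intro_left _ rfl
  have hbE : b ∣ E := (dvd_pow_self b (by norm_num)).mul_right D
  have huE : (u * E).Monic := hu.mul hE
  have huEd : (u * E).natDegree = u.natDegree + E.natDegree := hu.natDegree_mul hE
  rw [sum_split hE (by omega)]
  have hterm : ∀ s ∈ Rem K E.natDegree,
      |∑ c ∈ Mn K (m - u.natDegree - E.natDegree), Gf γ b D r (u * (s + E * c))| ≤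
        (Fintype.card K : ℝ) ^ ((m : ℝ) - (u * E).natDegree - c1 * m) := by
    intro s hs
    have hpos : (0 : ℝ) ≤ (Fintype.card K : ℝ) ^ ((m : ℝ) - (u * E).natDegree - c1 * m) :=
      Real.rpow_nonneg q_pos.le _
    by_cases h1 : D ∣ u * s - r
    · by_cases h2 : IsCoprime (u * s) b
      · have h3 := hw (u * E) (u * s) huE ((Dvd.intro _ rfl : b ^ 5 ∣ E).mul_left u) h2 ?_ ?_
        · have h4 : m - (u * E).natDegree = m - u.natDegree - E.natDegree := by omega
          rw [h4] at h3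
          refine le_trans (le_of_eq ?_) h3
          congr 1
          refine Finset.sum_congr rfl fun c _ => ?_
          unfold Gf
          rw [if_pos ((dvd_shift hDE).2 h1)]
          congr 3
          ring
        · rw [huEd, hEd]
          have : ((2 * (5 * b.natDegree + D.natDegree + u.natDegree) : ℕ) : ℝ) ≤ m := by
            exact_mod_cast hdeg
          push_cast at this ⊢
          linarith
        · rw [mem_Rem] at hs
          calc (u * s).degree = u.degree + s.degree := degree_mul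
            _ < u.degree + (E.natDegree : WithBot ℕ) := by
              rw [degree_eq_natDegree hu.ne_zero]
              exact WithBot.add_lt_add_left (WithBot.coe_ne_bot) hs
            _ ≤ (m : WithBot ℕ) := by
              rw [degree_eq_natDegree hu.ne_zero, ← Nat.cast_add]
              exact_mod_cast (by omega : u.natDegree + E.natDegree ≤ m)
      · rw [Finset.sum_eq_zero]
        · rw [abs_zero]
          exact hpos
        · intro c _
          unfold Gf
          rw [mob_zero hb.ne_zero (fun h => h2 ((cop_shift hbE).1 h))]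
          simp
    · rw [Finset.sum_eq_zero]
      · rw [abs_zero]
        exact hpos
      · intro c _
        unfold Gf
        rw [if_neg (fun h => h1 ((dvd_shift hDE).1 h))]
  calc |∑ s ∈ Rem K E.natDegree, ∑ c ∈ Mn K (m - u.natDegree - E.natDegree),
        Gf γ b D r (u * (s + E * c))|
      ≤ ∑ s ∈ Rem K E.natDegree, |∑ c ∈ Mn K (m - u.natDegree - E.natDegree),
        Gf γ b D r (u * (s + E * c))| := Finset.abs_sum_le_sum_abs _ _
    _ ≤ ∑ s ∈ Rem K E.natDegree,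
        (Fintype.card K : ℝ) ^ ((m : ℝ) - (u * E).natDegree - c1 * m) := Finset.sum_le_sum hterm
    _ = (Fintype.card K : ℝ) ^ (-(c1 * m)) * (Fintype.card K : ℝ) ^ (m - u.natDegree) := by
      rw [Finset.sum_const, card_Rem, nsmul_eq_mul]
      push_cast
      rw [← Real.rpow_natCast, ← Real.rpow_natCast, ← Real.rpow_add q_pos, ← Real.rpow_add q_pos]
      congr 1
      rw [Nat.cast_sub (by omega), huEd]
      push_cast
      ring

theorem pairBound {γ : K} {b : K[X]} (hb : b.Monic) {c2 : ℝ} {n : ℕ}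
    (ht : ∀ (A₁ A₂ D r : K[X]), A₁.Monic → A₂.Monic → A₁ ≠ A₂ →
      (1 / 2 : ℝ) * A₁.natDegree ≤ n → (1 / 2 : ℝ) * A₂.natDegree ≤ n →
      IsCoprime (A₁ * A₂) b → IsCoprime r b →
      D.Monic → b ^ 5 ∣ D → (D.natDegree : ℝ) ≤ (1 - 1 / 2) * n → r.degree < (n : WithBot ℕ) →
      |∑ c ∈ Mn K (n - D.natDegree), (mob (fa γ b (A₁ * (r + D * c))) : ℝ) *
          (mob (fa γ b (A₂ * (r + D * c))) : ℝ)| ≤
        (Fintype.card K : ℝ) ^ ((n : ℝ) - D.natDegree - c2 * n))
    {D A₁ A₂ : K[X]} (r : K[X]) (hD : D.Monic) (h1 : A₁.Monic) (h2 : A₂.Monic) (hne : A₁ ≠ A₂)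
    (hd1 : A₁.natDegree ≤ n) (hd2 : A₂.natDegree ≤ n)
    (hdeg : 2 * (5 * b.natDegree + D.natDegree) ≤ n) :
    |∑ B ∈ Mn K n, Gf γ b D r (A₁ * B) * Gf γ b D r (A₂ * B)| ≤
      (Fintype.card K : ℝ) ^ ((n : ℝ) - c2 * n) := by
  set E : K[X] := b ^ 5 * D with hEdef
  have hE : E.Monic := (hb.pow 5).mul hD
  have hEd : E.natDegree = 5 * b.natDegree + D.natDegree := by
    rw [hEdef, (hb.pow 5).natDegree_mul hD, hb.natDegree_pow]
  have hDE : D ∣ E := Dvd.intro_left _ rfl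
  have hbE : b ∣ E := (dvd_pow_self b (by norm_num)).mul_right D
  rw [sum_split hE (by omega)]
  have hterm : ∀ s ∈ Rem K E.natDegree,
      |∑ c ∈ Mn K (n - E.natDegree), Gf γ b D r (A₁ * (s + E * c)) *
        Gf γ b D r (A₂ * (s + E * c))| ≤
        (Fintype.card K : ℝ) ^ ((n : ℝ) - E.natDegree - c2 * n) := by
    intro s hs
    have hpos : (0 : ℝ) ≤ (Fintype.card K : ℝ) ^ ((n : ℝ) - E.natDegree - c2 * n) :=
      Real.rpow_nonneg q_pos.le _
    have hzero : (∀ c, Gf γ b D r (A₁ * (s + E * c)) * Gf γ b D r (A₂ * (s + E * c)) = 0) →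
        |∑ c ∈ Mn K (n - E.natDegree), Gf γ b D r (A₁ * (s + E * c)) *
          Gf γ b D r (A₂ * (s + E * c))| ≤
          (Fintype.card K : ℝ) ^ ((n : ℝ) - E.natDegree - c2 * n) := by
      intro h
      rw [Finset.sum_eq_zero (fun c _ => h c), abs_zero]
      exact hpos
    by_cases e1 : D ∣ A₁ * s - r
    swap
    · apply hzero
      intro c
      unfold Gf
      rw [if_neg (fun h => e1 ((dvd_shift hDE).1 h)), zero_mul]
    by_cases e2 : D ∣ A₂ * s - r
    swap
    · apply hzero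
      intro c
      unfold Gf
      rw [if_neg (fun h => e2 ((dvd_shift hDE).1 h)), mul_zero]
    by_cases e3 : IsCoprime (A₁ * s) b
    swap
    · apply hzero
      intro c
      unfold Gf
      rw [mob_zero hb.ne_zero (fun h => e3 ((cop_shift hbE).1 h))]
      simp
    by_cases e4 : IsCoprime (A₂ * s) b
    swap
    · apply hzero
      intro c
      unfold Gf
      rw [mob_zero (a := A₂ * (s + E * c)) hb.ne_zero (fun h => e4 ((cop_shift hbE).1 h))]
      simp
    have e5 : IsCoprime (A₁ * A₂) b :=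
      (IsCoprime.of_mul_left_left e3).mul_left (IsCoprime.of_mul_left_left e4)
    have h3 := ht A₁ A₂ E s h1 h2 hne ?_ ?_ e5 (IsCoprime.of_mul_left_right e3) hE
      (Dvd.intro _ rfl) ?_ ?_
    · refine le_trans (le_of_eq ?_) h3
      congr 1
      refine Finset.sum_congr rfl fun c _ => ?_
      unfold Gf
      rw [if_pos ((dvd_shift hDE).2 e1), if_pos ((dvd_shift hDE).2 e2)]
    · have : (A₁.natDegree : ℝ) ≤ n := by exact_mod_cast hd1
      have h0 : (0 : ℝ) ≤ A₁.natDegree := Nat.cast_nonneg _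
      linarith
    · have : (A₂.natDegree : ℝ) ≤ n := by exact_mod_cast hd2
      have h0 : (0 : ℝ) ≤ A₂.natDegree := Nat.cast_nonneg _
      linarith
    · rw [hEd]
      have : ((2 * (5 * b.natDegree + D.natDegree) : ℕ) : ℝ) ≤ n := by
        exact_mod_cast hdeg
      push_cast at this ⊢
      linarith
    · rw [mem_Rem] at hs
      exact lt_of_lt_of_le hs (by exact_mod_cast (by omega : E.natDegree ≤ n))
  calc |∑ s ∈ Rem K E.natDegree, ∑ c ∈ Mn K (n - E.natDegree),
        Gf γ b D r (A₁ * (s + E * c)) * Gf γ b D r (A₂ * (s + E * c))|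
      ≤ ∑ s ∈ Rem K E.natDegree, |∑ c ∈ Mn K (n - E.natDegree),
        Gf γ b D r (A₁ * (s + E * c)) * Gf γ b D r (A₂ * (s + E * c))| :=
        Finset.abs_sum_le_sum_abs _ _
    _ ≤ ∑ s ∈ Rem K E.natDegree,
        (Fintype.card K : ℝ) ^ ((n : ℝ) - E.natDegree - c2 * n) := Finset.sum_le_sum hterm
    _ = (Fintype.card K : ℝ) ^ ((n : ℝ) - c2 * n) := by
      rw [Finset.sum_const, card_Rem, nsmul_eq_mul]
      push_cast
      rw [← Real.rpow_natCast, ← Real.rpow_add q_pos]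
      congr 1
      ring

theorem typeII {j n : ℕ} {G : K[X] → ℝ} {x y : ℝ} (hx : 0 ≤ x) (hy : 0 ≤ y)
    (hxj : (Fintype.card K : ℝ) ^ j * x ^ 2 = 1)
    (hG : ∀ f, |G f| ≤ 1)
    (hp : ∀ A₁ ∈ Mn K j, ∀ A₂ ∈ Mn K j, A₁ ≠ A₂ →
      |∑ B ∈ Mn K n, G (A₁ * B) * G (A₂ * B)| ≤ y ^ 2 * (Fintype.card K : ℝ) ^ n)
    (α β : K[X] → ℝ) (hα : ∀ A, |α A| ≤ 1) (hβ : ∀ B, |β B| ≤ 1) :
    |∑ A ∈ Mn K j, ∑ B ∈ Mn K n, α A * β B * G (A * B)| ≤
      (x + y) * (Fintype.card K : ℝ) ^ (j + n) := by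
  set q : ℝ := (Fintype.card K : ℝ) with hq
  have hq0 : 0 < q := q_pos
  have hsq : ∀ t : ℝ, |t| ≤ 1 → t ^ 2 ≤ 1 := by
    intro t ht
    rw [← sq_abs]
    exact pow_le_one₀ (abs_nonneg t) ht
  have hcard : ∀ N : ℕ, ((Mn K N).card : ℝ) = q ^ N := by
    intro N
    rw [card_Mn]
    push_cast
    rfl
  have e1 : ∑ A ∈ Mn K j, ∑ B ∈ Mn K n, α A * β B * G (A * B) =
      ∑ B ∈ Mn K n, β B * ∑ A ∈ Mn K j, α A * G (A * B) := by
    rw [Finset.sum_comm]
    refine Finset.sum_congr rfl fun B _ => ?_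
    rw [Finset.mul_sum]
    refine Finset.sum_congr rfl fun A _ => ?_
    ring
  have e2 : (∑ B ∈ Mn K n, β B * ∑ A ∈ Mn K j, α A * G (A * B)) ^ 2 ≤
      (∑ B ∈ Mn K n, β B ^ 2) * ∑ B ∈ Mn K n, (∑ A ∈ Mn K j, α A * G (A * B)) ^ 2 :=
    Finset.sum_mul_sq_le_sq_mul_sq _ _ _
  have e3 : ∑ B ∈ Mn K n, β B ^ 2 ≤ q ^ n := by
    calc ∑ B ∈ Mn K n, β B ^ 2 ≤ ∑ B ∈ Mn K n, (1 : ℝ) :=
          Finset.sum_le_sum fun B _ => hsq _ (hβ B)
      _ = q ^ n := by rw [Finset.sum_const, nsmul_eq_mul, hcard, mul_one]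
  have e4 : ∑ B ∈ Mn K n, (∑ A ∈ Mn K j, α A * G (A * B)) ^ 2 =
      ∑ A₁ ∈ Mn K j, ∑ A₂ ∈ Mn K j, α A₁ * α A₂ *
        ∑ B ∈ Mn K n, G (A₁ * B) * G (A₂ * B) := by
    have h1 : ∀ B, (∑ A ∈ Mn K j, α A * G (A * B)) ^ 2 =
        ∑ A₁ ∈ Mn K j, ∑ A₂ ∈ Mn K j, (α A₁ * G (A₁ * B)) * (α A₂ * G (A₂ * B)) := by
      intro B
      rw [sq, Finset.sum_mul_sum]
    simp only [h1]
    rw [Finset.sum_comm]
    refine Finset.sum_congr rfl fun A₁ _ => ?_
    rw [Finset.sum_comm]
    refine Finset.sum_congr rfl fun A₂ _ => ?_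
    rw [Finset.mul_sum]
    refine Finset.sum_congr rfl fun B _ => ?_
    ring
  have e5 : ∑ B ∈ Mn K n, (∑ A ∈ Mn K j, α A * G (A * B)) ^ 2 ≤
      q ^ j * q ^ n + q ^ j * (q ^ j * (y ^ 2 * q ^ n)) := by
    rw [e4]
    have h1 : ∀ A₁ ∈ Mn K j, ∑ A₂ ∈ Mn K j, α A₁ * α A₂ *
        ∑ B ∈ Mn K n, G (A₁ * B) * G (A₂ * B) ≤ q ^ n + q ^ j * (y ^ 2 * q ^ n) := by
      intro A₁ hA₁
      calc ∑ A₂ ∈ Mn K j, α A₁ * α A₂ * ∑ B ∈ Mn K n, G (A₁ * B) * G (A₂ * B)
          ≤ ∑ A₂ ∈ Mn K j, ((if A₂ = A₁ then q ^ n else 0) + y ^ 2 * q ^ n) := by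
            refine Finset.sum_le_sum fun A₂ hA₂ => ?_
            have h2 : α A₁ * α A₂ * ∑ B ∈ Mn K n, G (A₁ * B) * G (A₂ * B) ≤
                |∑ B ∈ Mn K n, G (A₁ * B) * G (A₂ * B)| := by
              refine (le_abs_self _).trans ?_
              rw [abs_mul, abs_mul]
              have : |α A₁| * |α A₂| ≤ 1 :=
                mul_le_one₀ (hα A₁) (abs_nonneg _) (hα A₂)
              exact mul_le_of_le_one_left (abs_nonneg _) this
            refine h2.trans ?_
            have hy2 : 0 ≤ y ^ 2 * q ^ n := by positivity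
            split_ifs with h3
            · have h4 : |∑ B ∈ Mn K n, G (A₁ * B) * G (A₂ * B)| ≤ q ^ n := by
                calc |∑ B ∈ Mn K n, G (A₁ * B) * G (A₂ * B)|
                    ≤ ∑ B ∈ Mn K n, |G (A₁ * B) * G (A₂ * B)| :=
                      Finset.abs_sum_le_sum_abs _ _
                  _ ≤ ∑ B ∈ Mn K n, (1 : ℝ) := by
                      refine Finset.sum_le_sum fun B _ => ?_
                      rw [abs_mul]
                      exact mul_le_one₀ (hG _) (abs_nonneg _) (hG _)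
                  _ = q ^ n := by rw [Finset.sum_const, nsmul_eq_mul, hcard, mul_one]
              linarith
            · rw [zero_add]
              exact hp A₁ hA₁ A₂ hA₂ (Ne.symm h3)
        _ = q ^ n + q ^ j * (y ^ 2 * q ^ n) := by
            rw [Finset.sum_add_distrib, Finset.sum_ite_eq', if_pos hA₁, Finset.sum_const,
              nsmul_eq_mul, hcard]
    calc _ ≤ ∑ A₁ ∈ Mn K j, (q ^ n + q ^ j * (y ^ 2 * q ^ n)) := Finset.sum_le_sum h1
      _ = _ := by
        rw [Finset.sum_const, nsmul_eq_mul, hcard]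
        ring
  rw [e1]
  apply abs_le_of_sq_le_sq _ (by positivity)
  calc (∑ B ∈ Mn K n, β B * ∑ A ∈ Mn K j, α A * G (A * B)) ^ 2
      ≤ (∑ B ∈ Mn K n, β B ^ 2) * ∑ B ∈ Mn K n, (∑ A ∈ Mn K j, α A * G (A * B)) ^ 2 := e2
    _ ≤ q ^ n * (q ^ j * q ^ n + q ^ j * (q ^ j * (y ^ 2 * q ^ n))) := by
      apply mul_le_mul e3 e5 (Finset.sum_nonneg fun B _ => sq_nonneg _) (by positivity)
    _ = (q ^ (j + n)) ^ 2 * (x ^ 2 + y ^ 2) := by
      have h1 : q ^ n * (q ^ j * q ^ n) = (q ^ (j + n)) ^ 2 * x ^ 2 := by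
        rw [pow_add]
        linear_combination (-(q ^ n * (q ^ j * q ^ n))) * hxj
      rw [mul_add, mul_add, h1, pow_add]
      ring
    _ ≤ (q ^ (j + n)) ^ 2 * (x + y) ^ 2 := by
      apply mul_le_mul_of_nonneg_left _ (by positivity)
      nlinarith [mul_nonneg hx hy]
    _ = ((x + y) * q ^ (j + n)) ^ 2 := by ring

/-- the growth of a power -/
theorem growth {q c : ℝ} (hq : 1 < q) (hc : 0 < c) :
    ∃ C : ℝ, 0 < C ∧ ∀ m : ℕ, (m : ℝ) ^ 2 ≤ C * q ^ (c * m) := by
  have hl : 0 < Real.log q := Real.log_pos hq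
  have hcl : 0 < c * Real.log q := mul_pos hc hl
  refine ⟨2 / (c * Real.log q) ^ 2, by positivity, fun m => ?_⟩
  have h0 : (0 : ℝ) ≤ m := Nat.cast_nonneg m
  have h1 := Real.quadratic_le_exp_of_nonneg (x := c * Real.log q * m) (by positivity)
  have h2 : q ^ (c * m) = Real.exp (c * Real.log q * m) := by
    rw [Real.rpow_def_of_pos (by linarith)]
    congr 1
    ring
  rw [h2, div_mul_eq_mul_div, le_div_iff₀ (by positivity)]
  have h3 : 0 ≤ c * Real.log q * m := by positivity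
  nlinarith

end

theorem main : Pool.Agent.H526.PQ.S_priasm := by
  intro hW hT hV K _ _ _ g hg
  set q : ℝ := (Fintype.card K : ℝ) with hqdef
  have hq1 : 1 < q := by
    rw [hqdef]
    exact_mod_cast Fintype.one_lt_card
  have hq0 : 0 < q := by linarith
  -- the normalisation
  set γ : K := g.leadingCoeff with hγdef
  have hγ : γ ≠ 0 := leadingCoeff_ne_zero.2 hg
  set b : K[X] := g * C γ⁻¹ with hbdef
  have hb : b.Monic := monic_mul_leadingCoeff_inv hg
  have hgb : C γ * b = g := by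
    rw [hbdef, mul_comm g, ← mul_assoc, ← C_mul, mul_inv_cancel₀ hγ, C_1, one_mul]
  have hfa : ∀ a, fa γ b a = a ^ 2 + X * g ^ 2 := by
    intro a
    unfold fa
    rw [hgb]
  obtain ⟨c1, hc1, d1, H1⟩ := hW K γ b (1 / 2) hγ hb (by norm_num)
  obtain ⟨c2, hc2, d2, H2⟩ := hT (1 / 2) (by norm_num)
  set c' : ℝ := min (min c1 (1 / 16)) (c2 / 4) with hc'def
  have hc'0 : 0 < c' := lt_min (lt_min hc1 (by norm_num)) (by linarith)
  have hc'1 : c' ≤ c1 := (min_le_left _ _).trans (min_le_left _ _)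
  have hc'2 : c' ≤ 1 / 16 := (min_le_left _ _).trans (min_le_right _ _)
  have hc'3 : c' ≤ c2 / 4 := min_le_right _ _
  obtain ⟨C₁, hC₁, hgrow⟩ := growth hq1 (half_pos hc'0)
  set N0 : ℕ := 8 + 40 * b.natDegree + d1 + 2 * d2 with hN0
  refine ⟨c' / 2, q ^ N0 + 32 * q * C₁, half_pos hc'0, fun m D r hD hDm => ?_⟩
  have hsum : ∑ P ∈ (Irn K m).filter (fun P => D ∣ P - r), (mob (P ^ 2 + X * g ^ 2) : ℝ) =
      ∑ P ∈ Irn K m, Gf γ b D r P := by
    rw [Finset.sum_filter]
    refine Finset.sum_congr rfl fun P _ => ?_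
    unfold Gf
    rw [hfa]
  rw [hsum]
  have hm0 : (0 : ℝ) ≤ m := Nat.cast_nonneg m
  by_cases hm : m < N0
  · -- small `m`
    have h1 : |∑ P ∈ Irn K m, Gf γ b D r P| ≤ q ^ m := by
      calc |∑ P ∈ Irn K m, Gf γ b D r P| ≤ ∑ P ∈ Irn K m, |Gf γ b D r P| :=
            Finset.abs_sum_le_sum_abs _ _
        _ ≤ ∑ P ∈ Irn K m, (1 : ℝ) := Finset.sum_le_sum fun P _ => Gf_abs _ _ _ _ _
        _ = ((Irn K m).card : ℝ) := by rw [Finset.sum_const, nsmul_eq_mul, mul_one]
        _ ≤ ((Mn K m).card : ℝ) := by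
            exact_mod_cast Finset.card_le_card (Finset.filter_subset _ _)
        _ = q ^ m := by rw [card_Mn]; push_cast; rfl
    have h2 : (1 : ℝ) ≤ q ^ ((1 - c' / 2) * m) := by
      apply Real.one_le_rpow hq1.le
      apply mul_nonneg _ hm0
      linarith
    have h3 : q ^ m ≤ q ^ N0 := pow_le_pow_right₀ hq1.le hm.le
    have h4 : 0 ≤ 32 * q * C₁ := by positivity
    have h5 : 0 < q ^ N0 := by positivity
    calc |∑ P ∈ Irn K m, Gf γ b D r P| ≤ q ^ N0 := h1.trans h3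
      _ ≤ (q ^ N0 + 32 * q * C₁) * 1 := by linarith
      _ ≤ (q ^ N0 + 32 * q * C₁) * q ^ ((1 - c' / 2) * m) := by
        apply mul_le_mul_of_nonneg_left h2
        positivity
  · push Not at hm
    have hm8 : 8 ≤ m := by omega
    have hmb : 40 * b.natDegree ≤ m := by omega
    have hDm' : 32 * D.natDegree ≤ m := by
      have h1 : (32 * D.natDegree : ℝ) ≤ m := by
        have : c' / 2 * m ≤ 1 / 32 * m := mul_le_mul_of_nonneg_right (by linarith) hm0
        linarith
      exact_mod_cast h1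
    -- type I
    have hI : ∀ u : K[X], u.Monic → 4 * u.natDegree ≤ m →
        |∑ B ∈ Mn K (m - u.natDegree), Gf γ b D r (u * B)| ≤
          q ^ (-(c1 * m)) * q ^ (m - u.natDegree) := by
      intro u hu hum
      exact typeI hb (fun D' r' => H1 m (by omega) D' r') r hD hu (by omega)
    -- type II
    have hII : ∀ j : ℕ, m ≤ 8 * (j + 1) → 2 * j ≤ m → ∀ α β : K[X] → ℝ, (∀ A, |α A| ≤ 1) →
        (∀ B, |β B| ≤ 1) →
        |∑ A ∈ Mn K j, ∑ B ∈ Mn K (m - j), α A * β B * Gf γ b D r (A * B)| ≤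
          (q ^ ((1 : ℝ) / 2 - m / 16) + q ^ (-(c2 * m / 4))) * q ^ m := by
      intro j hj1 hj2 α β hα hβ
      have hn : d2 ≤ m - j := by omega
      have hjm : j ≤ m := by omega
      have hnr : ((m - j : ℕ) : ℝ) = (m : ℝ) - j := Nat.cast_sub hjm
      have hj2' : 2 * (j : ℝ) ≤ m := by exact_mod_cast hj2
      have hj1' : (m : ℝ) ≤ 8 * (j + 1) := by exact_mod_cast hj1
      have h1 := typeII (K := K) (j := j) (n := m - j) (G := Gf γ b D r)
        (x := q ^ (-(j : ℝ) / 2)) (y := q ^ (-(c2 * ((m - j : ℕ) : ℝ)) / 2))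
        (Real.rpow_nonneg hq0.le _) (Real.rpow_nonneg hq0.le _) ?_ (fun f => Gf_abs _ _ _ _ _)
        ?_ α β hα hβ
      · have h2 : j + (m - j) = m := by omega
        rw [h2] at h1
        refine h1.trans ?_
        apply mul_le_mul_of_nonneg_right _ (by positivity)
        apply add_le_add
        · apply Real.rpow_le_rpow_of_exponent_le hq1.le
          linarith
        · apply Real.rpow_le_rpow_of_exponent_le hq1.le
          rw [hnr]
          nlinarith
      · rw [← hqdef, ← Real.rpow_natCast q j, ← Real.rpow_natCast (q ^ (-(j : ℝ) / 2)) 2,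
          ← Real.rpow_mul hq0.le, ← Real.rpow_add hq0]
        rw [show (j : ℝ) + -(j : ℝ) / 2 * ((2 : ℕ) : ℝ) = 0 by push_cast; ring, Real.rpow_zero]
      · intro A₁ hA₁ A₂ hA₂ hne
        rw [mem_Mn] at hA₁ hA₂
        have h3 := pairBound (n := m - j) (c2 := c2) hb
          (fun A₁ A₂ D' r' => H2 K γ b hγ hb (m - j) hn A₁ A₂ D' r') r hD hA₁.1 hA₂.1 hne
          (by rw [hA₁.2]; omega) (by rw [hA₂.2]; omega) (by omega)
        refine h3.trans (le_of_eq ?_)
        rw [← hqdef, ← Real.rpow_natCast (q ^ (-(c2 * ((m - j : ℕ) : ℝ)) / 2)) 2,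
          ← Real.rpow_mul hq0.le, ← Real.rpow_natCast q (m - j), ← Real.rpow_add hq0]
        congr 1
        push_cast
        ring
    have hfin := hV K m (Gf γ b D r) (q ^ (-(c1 * m)))
      (q ^ ((1 : ℝ) / 2 - m / 16) + q ^ (-(c2 * m / 4))) hm8 (fun f => Gf_abs _ _ _ _ _)
      (Real.rpow_nonneg hq0.le _) (add_nonneg (Real.rpow_nonneg hq0.le _)
        (Real.rpow_nonneg hq0.le _)) hI hII
    refine hfin.trans ?_
    -- the four error terms
    have hT' : ∀ a : ℝ, a ≤ 1 - c' * m → q ^ a ≤ q * q ^ (-(c' * m)) := by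
      intro a ha
      calc q ^ a ≤ q ^ (1 + -(c' * m)) := by
            apply Real.rpow_le_rpow_of_exponent_le hq1.le
            linarith
        _ = q * q ^ (-(c' * m)) := by rw [Real.rpow_add hq0, Real.rpow_one]
    have w1 : c' * m ≤ c1 * m := mul_le_mul_of_nonneg_right hc'1 hm0
    have w2 : c' * m ≤ 1 / 16 * m := mul_le_mul_of_nonneg_right hc'2 hm0
    have w3 : c' * m ≤ c2 / 4 * m := mul_le_mul_of_nonneg_right hc'3 hm0
    have t1 : q ^ (-(c1 * m)) ≤ q * q ^ (-(c' * m)) := hT' _ (by linarith)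
    have t2 : q ^ ((1 : ℝ) / 2 - m / 16) ≤ q * q ^ (-(c' * m)) := hT' _ (by linarith)
    have t3 : q ^ (-(c2 * m / 4)) ≤ q * q ^ (-(c' * m)) := hT' _ (by linarith)
    have t4 : q ^ (-(m : ℝ) / 8) ≤ q * q ^ (-(c' * m)) := hT' _ (by linarith)
    have hqm : (0 : ℝ) < q ^ m := by positivity
    have hexp : q ^ (c' / 2 * m) * (q ^ (-(c' * m)) * q ^ m) = q ^ ((1 - c' / 2) * m) := by
      rw [← Real.rpow_natCast q m, ← Real.rpow_add hq0, ← Real.rpow_add hq0]
      congr 1
      ring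
    calc 8 * (m : ℝ) ^ 2 * (q ^ (-(c1 * m)) +
          (q ^ ((1 : ℝ) / 2 - m / 16) + q ^ (-(c2 * m / 4))) + q ^ (-(m : ℝ) / 8)) * q ^ m
        ≤ 8 * (m : ℝ) ^ 2 * (4 * (q * q ^ (-(c' * m)))) * q ^ m := by
          apply mul_le_mul_of_nonneg_right _ hqm.le
          apply mul_le_mul_of_nonneg_left _ (by positivity)
          linarith
      _ ≤ 8 * (C₁ * q ^ (c' / 2 * m)) * (4 * (q * q ^ (-(c' * m)))) * q ^ m := by
          apply mul_le_mul_of_nonneg_right _ hqm.le
          apply mul_le_mul_of_nonneg_right _ (by positivity)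
          have := hgrow m
          linarith
      _ = 32 * q * C₁ * (q ^ (c' / 2 * m) * (q ^ (-(c' * m)) * q ^ m)) := by ring
      _ = 32 * q * C₁ * q ^ ((1 - c' / 2) * m) := by rw [hexp]
      _ ≤ (q ^ N0 + 32 * q * C₁) * q ^ ((1 - c' / 2) * m) := by
          apply mul_le_mul_of_nonneg_right _ (Real.rpow_nonneg hq0.le _)
          have : 0 < q ^ N0 := by positivity
          linarith

end Pool.Agent.H526.PQ.PriAsm
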