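import Pool.Agent.H526.PQ.StmK
import Pool.Agent.H526.PQ.PriAsm

/-!
# Task PRIKASM: products of the `μ(P² + X g_i²)` over the irreducible `P` in residue classes
-/

set_option autoImplicit false
set_option linter.unusedSectionVars false

namespace Pool.Agent.H526.PQ.PrikAsm

open Polynomial
open scoped Classical
open Pool.Agent.H985.Chow (mob)
open Pool.Agent.H604.LD (fa om bt)
open Pool.Agent.H694.Typ (Mn Irn mem_Mn card_Mn mem_Irn)
open Pool.Agent.H526.PQ.PriAsm (Rem mem_Rem card_Rem sum_split mob_abs q_pos q_one dvd_shift typeII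
  growth)

section

variable {K : Type} [Field K] [Fintype K]

/-- sums over the polynomials with a condition modulo `E` -/
theorem genk {H : K[X] → ℝ} {Pr : K[X] → Prop} [DecidablePred Pr] {E : K[X]} {N : ℕ} {c1 : ℝ} (hE : E.Monic)
    (hEN : E.natDegree ≤ N)
    (ht : ∀ s : K[X], s.degree < (N : WithBot ℕ) →
      |∑ c ∈ Mn K (N - E.natDegree), H (s + E * c)| ≤
        (Fintype.card K : ℝ) ^ ((N : ℝ) - E.natDegree - c1 * N))
    (hPr : ∀ s c : K[X], Pr (s + E * c) ↔ Pr s) :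
    |∑ B ∈ Mn K N, (if Pr B then H B else 0)| ≤ (Fintype.card K : ℝ) ^ ((N : ℝ) - c1 * N) := by
  rw [sum_split hE hEN]
  have hterm : ∀ s ∈ Rem K E.natDegree,
      |∑ c ∈ Mn K (N - E.natDegree), (if Pr (s + E * c) then H (s + E * c) else 0)| ≤
        (Fintype.card K : ℝ) ^ ((N : ℝ) - E.natDegree - c1 * N) := by
    intro s hs
    rw [mem_Rem] at hs
    by_cases h : Pr s
    · refine le_trans (le_of_eq ?_) (ht s (lt_of_lt_of_le hs (by exact_mod_cast hEN)))
      congr 1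
      exact Finset.sum_congr rfl fun c _ => if_pos ((hPr s c).2 h)
    · rw [Finset.sum_eq_zero fun c _ => if_neg fun h' => h ((hPr s c).1 h'), abs_zero]
      exact Real.rpow_nonneg q_pos.le _
  calc |∑ s ∈ Rem K E.natDegree, ∑ c ∈ Mn K (N - E.natDegree),
        (if Pr (s + E * c) then H (s + E * c) else 0)|
      ≤ ∑ s ∈ Rem K E.natDegree, |∑ c ∈ Mn K (N - E.natDegree),
        (if Pr (s + E * c) then H (s + E * c) else 0)| := Finset.abs_sum_le_sum_abs _ _
    _ ≤ ∑ s ∈ Rem K E.natDegree,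
        (Fintype.card K : ℝ) ^ ((N : ℝ) - E.natDegree - c1 * N) := Finset.sum_le_sum hterm
    _ = (Fintype.card K : ℝ) ^ ((N : ℝ) - c1 * N) := by
      rw [Finset.sum_const, card_Rem, nsmul_eq_mul]
      push_cast
      rw [← Real.rpow_natCast, ← Real.rpow_add q_pos]
      congr 1
      ring

theorem mbt_abs {n : ℕ} (γ : Fin n → K) (b : Fin n → K[X]) (a : K[X]) : |mbt γ b a| ≤ 1 := by
  unfold mbt
  rw [Finset.abs_prod]
  exact Finset.prod_le_one (fun i _ => abs_nonneg _) fun i _ => mob_abs _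

/-- the function -/
noncomputable def Gk {n : ℕ} (γ : Fin n → K) (b : Fin n → K[X]) (D r a : K[X]) : ℝ :=
  if D ∣ a - r then mbt γ b a else 0

theorem Gk_abs {n : ℕ} (γ : Fin n → K) (b : Fin n → K[X]) (D r a : K[X]) :
    |Gk γ b D r a| ≤ 1 := by
  unfold Gk
  split_ifs
  · exact mbt_abs _ _ _
  · simp

/-- the estimate for fixed polynomials and a fixed degree -/
def Est {n : ℕ} (γ : Fin n → K) (b : Fin n → K[X]) (c : ℝ) (d : ℕ) : Prop :=
  ∀ (J : ℕ) (A : Fin J → K[X]) (D r : K[X]), (∀ j, (A j).Monic) →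
      ∑ j, A j ≠ 0 → (∀ j, (1 / 2 : ℝ) * (A j).natDegree ≤ d) → D.Monic → (∏ i, b i) ^ 5 ∣ D →
      (D.natDegree : ℝ) ≤ (1 - 1 / 2) * d → r.degree < (d : WithBot ℕ) →
      |∑ c ∈ Mn K (d - D.natDegree), ∏ j, mbt γ b (A j * (r + D * c))| ≤
        (Fintype.card K : ℝ) ^ ((d : ℝ) - D.natDegree - c * d)

theorem typeIk {n : ℕ} {γ : Fin n → K} {b : Fin n → K[X]} (hb : ∀ i, (b i).Monic) {c1 : ℝ}
    {N : ℕ} (ht : Est γ b c1 N) {D u : K[X]} (r : K[X]) (hD : D.Monic) (hu : u.Monic)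
    (hun : u.natDegree ≤ N) (hdeg : 2 * (5 * (∏ i, b i).natDegree + D.natDegree) ≤ N) :
    |∑ B ∈ Mn K N, Gk γ b D r (u * B)| ≤ (Fintype.card K : ℝ) ^ ((N : ℝ) - c1 * N) := by
  have hbb : (∏ i, b i).Monic := monic_prod_of_monic _ _ fun i _ => hb i
  set E : K[X] := (∏ i, b i) ^ 5 * D with hEdef
  have hE : E.Monic := (hbb.pow 5).mul hD
  have hEd : E.natDegree = 5 * (∏ i, b i).natDegree + D.natDegree := by
    rw [hEdef, (hbb.pow 5).natDegree_mul hD, hbb.natDegree_pow]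
  have hDE : D ∣ E := Dvd.intro_left _ rfl
  refine genk (H := fun B => mbt γ b (u * B)) (Pr := fun B => D ∣ u * B - r) hE (by omega)
    (fun s hs => ?_) fun s c => dvd_shift hDE
  have h3 := ht 1 (fun _ => u) E s (fun _ => hu) ?_ ?_ hE (Dvd.intro _ rfl) ?_ hs
  · simpa only [Fin.prod_univ_one] using h3
  · rw [Fin.sum_univ_one]
    exact hu.ne_zero
  · intro _
    have : (u.natDegree : ℝ) ≤ N := by exact_mod_cast hun
    have h0 : (0 : ℝ) ≤ u.natDegree := Nat.cast_nonneg _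
    linarith
  · rw [hEd]
    have : ((2 * (5 * (∏ i, b i).natDegree + D.natDegree) : ℕ) : ℝ) ≤ N := by
      exact_mod_cast hdeg
    push_cast at this ⊢
    linarith

theorem pairk [CharP K 2] {n : ℕ} {γ : Fin n → K} {b : Fin n → K[X]} (hb : ∀ i, (b i).Monic)
    {c1 : ℝ} {N : ℕ} (ht : Est γ b c1 N) {D A₁ A₂ : K[X]} (r : K[X]) (hD : D.Monic)
    (h1 : A₁.Monic) (h2 : A₂.Monic) (hne : A₁ ≠ A₂) (hd1 : A₁.natDegree ≤ N)
    (hd2 : A₂.natDegree ≤ N) (hdeg : 2 * (5 * (∏ i, b i).natDegree + D.natDegree) ≤ N) :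
    |∑ B ∈ Mn K N, Gk γ b D r (A₁ * B) * Gk γ b D r (A₂ * B)| ≤
      (Fintype.card K : ℝ) ^ ((N : ℝ) - c1 * N) := by
  have hbb : (∏ i, b i).Monic := monic_prod_of_monic _ _ fun i _ => hb i
  set E : K[X] := (∏ i, b i) ^ 5 * D with hEdef
  have hE : E.Monic := (hbb.pow 5).mul hD
  have hEd : E.natDegree = 5 * (∏ i, b i).natDegree + D.natDegree := by
    rw [hEdef, (hbb.pow 5).natDegree_mul hD, hbb.natDegree_pow]
  have hDE : D ∣ E := Dvd.intro_left _ rfl
  have hG : ∀ B, Gk γ b D r (A₁ * B) * Gk γ b D r (A₂ * B) =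
      if (D ∣ A₁ * B - r ∧ D ∣ A₂ * B - r) then mbt γ b (A₁ * B) * mbt γ b (A₂ * B) else 0 := by
    intro B
    unfold Gk
    by_cases e1 : D ∣ A₁ * B - r
    · by_cases e2 : D ∣ A₂ * B - r
      · rw [if_pos e1, if_pos e2, if_pos ⟨e1, e2⟩]
      · rw [if_neg e2, mul_zero, if_neg fun h => e2 h.2]
    · rw [if_neg e1, zero_mul, if_neg fun h => e1 h.1]
  rw [Finset.sum_congr rfl fun B _ => hG B]
  refine genk (N := N) (H := fun B => mbt γ b (A₁ * B) * mbt γ b (A₂ * B))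
    (Pr := fun B => D ∣ A₁ * B - r ∧ D ∣ A₂ * B - r) hE (by omega)
    (fun s hs => ?_) fun s c => and_congr (dvd_shift hDE) (dvd_shift hDE)
  have h3 := ht 2 ![A₁, A₂] E s ?_ ?_ ?_ hE (Dvd.intro _ rfl) ?_ hs
  · simpa only [Fin.prod_univ_two, Matrix.cons_val_zero, Matrix.cons_val_one] using h3
  · rw [Fin.forall_fin_two]
    exact ⟨h1, h2⟩
  · rw [Fin.sum_univ_two]
    show A₁ + A₂ ≠ 0
    rw [Ne, CharTwo.add_eq_zero]
    exact hne
  · rw [Fin.forall_fin_two]
    constructor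
    · show (1 / 2 : ℝ) * A₁.natDegree ≤ N
      have : (A₁.natDegree : ℝ) ≤ N := by exact_mod_cast hd1
      have h0 : (0 : ℝ) ≤ A₁.natDegree := Nat.cast_nonneg _
      linarith
    · show (1 / 2 : ℝ) * A₂.natDegree ≤ N
      have : (A₂.natDegree : ℝ) ≤ N := by exact_mod_cast hd2
      have h0 : (0 : ℝ) ≤ A₂.natDegree := Nat.cast_nonneg _
      linarith
  · rw [hEd]
    have : ((2 * (5 * (∏ i, b i).natDegree + D.natDegree) : ℕ) : ℝ) ≤ N := by
      exact_mod_cast hdeg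
    push_cast at this ⊢
    linarith

end

theorem main : Pool.Agent.H526.PQ.S_prikasm := by
  intro hT hV K _ _ _ n g hg hom
  set q : ℝ := (Fintype.card K : ℝ) with hqdef
  have hq1 : 1 < q := by
    rw [hqdef]
    exact_mod_cast Fintype.one_lt_card
  have hq0 : 0 < q := by linarith
  -- the normalisation
  obtain ⟨γ, hγdef⟩ : ∃ γ : Fin n → K, γ = fun i => (g i).leadingCoeff := ⟨_, rfl⟩
  have hγ : ∀ i, γ i ≠ 0 := fun i => by
    rw [hγdef]
    exact leadingCoeff_ne_zero.2 (hg i)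
  obtain ⟨b, hbdef⟩ : ∃ b : Fin n → K[X], b = fun i => g i * C (γ i)⁻¹ := ⟨_, rfl⟩
  have hb : ∀ i, (b i).Monic := fun i => by
    rw [hbdef, hγdef]
    exact monic_mul_leadingCoeff_inv (hg i)
  have hgb : ∀ i, C (γ i) * b i = g i := fun i => by
    rw [hbdef]
    show C (γ i) * (g i * C (γ i)⁻¹) = g i
    rw [mul_comm (g i), ← mul_assoc, ← C_mul, mul_inv_cancel₀ (hγ i), C_1, one_mul]
  have hom' : om γ b ≠ 0 := by
    have e : om γ b = ∑ i, ∏ j ∈ Finset.univ.erase i, g j := by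
      unfold om bt
      refine Finset.sum_congr rfl fun i _ => Finset.prod_congr rfl fun j _ => hgb j
    rw [e]
    exact hom
  have hfa : ∀ a, mbt γ b a = ∏ i, (mob (a ^ 2 + X * g i ^ 2) : ℝ) := by
    intro a
    unfold mbt
    refine Finset.prod_congr rfl fun i _ => ?_
    unfold fa
    rw [hgb]
  clear_value q
  obtain ⟨β, hβ⟩ : ∃ β : ℕ, β = (∏ i, b i).natDegree := ⟨_, rfl⟩
  obtain ⟨c2, hc2, d2, H2⟩ := hT (1 / 2) (by norm_num)
  have hEst : ∀ N : ℕ, d2 ≤ N → Est γ b c2 N := fun N hN J A D r => H2 K n γ b hγ hb hom' N hN J A D r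
  set c' : ℝ := min (1 / 16) (c2 / 4) with hc'def
  have hc'0 : 0 < c' := lt_min (by norm_num) (by linarith)
  have hc'2 : c' ≤ 1 / 16 := min_le_left _ _
  have hc'3 : c' ≤ c2 / 4 := min_le_right _ _
  obtain ⟨C₁, hC₁, hgrow⟩ := growth hq1 (half_pos hc'0)
  set N0 : ℕ := 8 + 40 * β + 2 * d2 with hN0
  have hCpos : 0 < q ^ N0 + 32 * q * C₁ := by positivity
  refine ⟨c' / 2, q ^ N0 + 32 * q * C₁, half_pos hc'0, hCpos, fun m D r hD hDm => ?_⟩
  have hsum : ∑ P ∈ (Irn K m).filter (fun P => D ∣ P - r), ∏ i, (mob (P ^ 2 + X * g i ^ 2) : ℝ) =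
      ∑ P ∈ Irn K m, Gk γ b D r P := by
    rw [Finset.sum_filter]
    refine Finset.sum_congr rfl fun P _ => ?_
    unfold Gk
    rw [hfa]
  rw [hsum]
  have hm0 : (0 : ℝ) ≤ m := Nat.cast_nonneg m
  by_cases hm : m < N0
  · -- small `m`
    have h1 : |∑ P ∈ Irn K m, Gk γ b D r P| ≤ q ^ m := by
      calc |∑ P ∈ Irn K m, Gk γ b D r P| ≤ ∑ P ∈ Irn K m, |Gk γ b D r P| :=
            Finset.abs_sum_le_sum_abs _ _
        _ ≤ ∑ P ∈ Irn K m, (1 : ℝ) := Finset.sum_le_sum fun P _ => Gk_abs _ _ _ _ _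
        _ = ((Irn K m).card : ℝ) := by rw [Finset.sum_const, nsmul_eq_mul, mul_one]
        _ ≤ ((Mn K m).card : ℝ) := by
            exact_mod_cast Finset.card_le_card (Finset.filter_subset _ _)
        _ = q ^ m := by rw [card_Mn, hqdef]; push_cast; rfl
    have h2 : (1 : ℝ) ≤ q ^ ((1 - c' / 2) * m) := by
      apply Real.one_le_rpow hq1.le
      apply mul_nonneg _ hm0
      linarith
    have h3 : q ^ m ≤ q ^ N0 := pow_le_pow_right₀ hq1.le hm.le
    have h4 : 0 ≤ 32 * q * C₁ := by positivity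
    have h5 : 0 < q ^ N0 := by positivity
    calc |∑ P ∈ Irn K m, Gk γ b D r P| ≤ q ^ N0 := h1.trans h3
      _ ≤ (q ^ N0 + 32 * q * C₁) * 1 := by linarith
      _ ≤ (q ^ N0 + 32 * q * C₁) * q ^ ((1 - c' / 2) * m) := by
        apply mul_le_mul_of_nonneg_left h2
        positivity
  · push Not at hm
    have hm8 : 8 ≤ m := by omega
    have hmb : 40 * β ≤ m := by omega
    have hDm' : 32 * D.natDegree ≤ m := by
      have h1 : (32 * D.natDegree : ℝ) ≤ m := by
        have : c' / 2 * m ≤ 1 / 32 * m := mul_le_mul_of_nonneg_right (by linarith) hm0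
        linarith
      exact_mod_cast h1
    -- type I
    have hI : ∀ u : K[X], u.Monic → 4 * u.natDegree ≤ m →
        |∑ B ∈ Mn K (m - u.natDegree), Gk γ b D r (u * B)| ≤
          q ^ (-(c2 * m / 2)) * q ^ (m - u.natDegree) := by
      intro u hu hum
      have h1 := typeIk hb (hEst (m - u.natDegree) (by omega)) r hD hu (by omega)
        (by rw [← hβ]; omega)
      rw [← hqdef] at h1
      refine h1.trans ?_
      rw [← Real.rpow_natCast q (m - u.natDegree), ← Real.rpow_add hq0]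
      apply Real.rpow_le_rpow_of_exponent_le hq1.le
      have h2 : (m : ℝ) / 2 ≤ ((m - u.natDegree : ℕ) : ℝ) := by
        rw [Nat.cast_sub (by omega)]
        have h3 : (4 : ℝ) * u.natDegree ≤ m := by exact_mod_cast hum
        linarith
      have h3 := mul_le_mul_of_nonneg_left h2 hc2.le
      linarith
    -- type II
    have hII : ∀ j : ℕ, m ≤ 8 * (j + 1) → 2 * j ≤ m → ∀ α β : K[X] → ℝ, (∀ A, |α A| ≤ 1) →
        (∀ B, |β B| ≤ 1) →
        |∑ A ∈ Mn K j, ∑ B ∈ Mn K (m - j), α A * β B * Gk γ b D r (A * B)| ≤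
          (q ^ ((1 : ℝ) / 2 - m / 16) + q ^ (-(c2 * m / 4))) * q ^ m := by
      intro j hj1 hj2 α β' hα hβ'
      have hn : d2 ≤ m - j := by omega
      have hjm : j ≤ m := by omega
      have hnr : ((m - j : ℕ) : ℝ) = (m : ℝ) - j := Nat.cast_sub hjm
      have hj2' : 2 * (j : ℝ) ≤ m := by exact_mod_cast hj2
      have hj1' : (m : ℝ) ≤ 8 * (j + 1) := by exact_mod_cast hj1
      have h1 := typeII (K := K) (j := j) (n := m - j) (G := Gk γ b D r)
        (x := q ^ (-(j : ℝ) / 2)) (y := q ^ (-(c2 * ((m - j : ℕ) : ℝ)) / 2))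
        (Real.rpow_nonneg hq0.le _) (Real.rpow_nonneg hq0.le _) ?_ (fun f => Gk_abs _ _ _ _ _)
        ?_ α β' hα hβ'
      · have h2 : j + (m - j) = m := by omega
        rw [h2, ← hqdef] at h1
        refine h1.trans ?_
        apply mul_le_mul_of_nonneg_right _ (by positivity)
        apply add_le_add
        · apply Real.rpow_le_rpow_of_exponent_le hq1.le
          linarith
        · apply Real.rpow_le_rpow_of_exponent_le hq1.le
          rw [hnr]
          nlinarith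
      · rw [← hqdef, ← Real.rpow_natCast q j, ← Real.rpow_natCast (q ^ (-(j : ℝ) / 2)) 2,
          ← Real.rpow_mul hq0.le, ← Real.rpow_add hq0]
        rw [show (j : ℝ) + -(j : ℝ) / 2 * ((2 : ℕ) : ℝ) = 0 by push_cast; ring, Real.rpow_zero]
      · intro A₁ hA₁ A₂ hA₂ hne
        rw [mem_Mn] at hA₁ hA₂
        have h3 := pairk hb (hEst (m - j) hn) r hD hA₁.1 hA₂.1 hne
          (by rw [hA₁.2]; omega) (by rw [hA₂.2]; omega) (by rw [← hβ]; omega)
        refine h3.trans (le_of_eq ?_)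
        rw [← hqdef, ← Real.rpow_natCast (q ^ (-(c2 * ((m - j : ℕ) : ℝ)) / 2)) 2,
          ← Real.rpow_mul hq0.le, ← Real.rpow_natCast q (m - j), ← Real.rpow_add hq0]
        congr 1
        push_cast
        ring
    have hfin := hV K m (Gk γ b D r) (q ^ (-(c2 * m / 2)))
      (q ^ ((1 : ℝ) / 2 - m / 16) + q ^ (-(c2 * m / 4))) hm8 (fun f => Gk_abs _ _ _ _ _)
      (Real.rpow_nonneg hq0.le _) (add_nonneg (Real.rpow_nonneg hq0.le _)
        (Real.rpow_nonneg hq0.le _)) (by rw [← hqdef]; exact hI) (by rw [← hqdef]; exact hII)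
    rw [← hqdef] at hfin
    refine hfin.trans ?_
    -- the four error terms
    have hT' : ∀ a : ℝ, a ≤ 1 - c' * m → q ^ a ≤ q * q ^ (-(c' * m)) := by
      intro a ha
      calc q ^ a ≤ q ^ (1 + -(c' * m)) := by
            apply Real.rpow_le_rpow_of_exponent_le hq1.le
            linarith
        _ = q * q ^ (-(c' * m)) := by rw [Real.rpow_add hq0, Real.rpow_one]
    have w2 : c' * m ≤ 1 / 16 * m := mul_le_mul_of_nonneg_right hc'2 hm0
    have w3 : c' * m ≤ c2 / 4 * m := mul_le_mul_of_nonneg_right hc'3 hm0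
    have w4 : 0 ≤ c2 * m := mul_nonneg hc2.le hm0
    have t1 : q ^ (-(c2 * m / 2)) ≤ q * q ^ (-(c' * m)) := hT' _ (by linarith)
    have t2 : q ^ ((1 : ℝ) / 2 - m / 16) ≤ q * q ^ (-(c' * m)) := hT' _ (by linarith)
    have t3 : q ^ (-(c2 * m / 4)) ≤ q * q ^ (-(c' * m)) := hT' _ (by linarith)
    have t4 : q ^ (-(m : ℝ) / 8) ≤ q * q ^ (-(c' * m)) := hT' _ (by linarith)
    have hqm : (0 : ℝ) < q ^ m := by positivity
    have hexp : q ^ (c' / 2 * m) * (q ^ (-(c' * m)) * q ^ m) = q ^ ((1 - c' / 2) * m) := by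
      rw [← Real.rpow_natCast q m, ← Real.rpow_add hq0, ← Real.rpow_add hq0]
      congr 1
      ring
    calc 8 * (m : ℝ) ^ 2 * (q ^ (-(c2 * m / 2)) +
          (q ^ ((1 : ℝ) / 2 - m / 16) + q ^ (-(c2 * m / 4))) + q ^ (-(m : ℝ) / 8)) * q ^ m
        ≤ 8 * (m : ℝ) ^ 2 * (4 * (q * q ^ (-(c' * m)))) * q ^ m := by
          apply mul_le_mul_of_nonneg_right _ hqm.le
          apply mul_le_mul_of_nonneg_left _ (by positivity)
          linarith
      _ ≤ 8 * (C₁ * q ^ (c' / 2 * m)) * (4 * (q * q ^ (-(c' * m)))) * q ^ m := by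
          apply mul_le_mul_of_nonneg_right _ hqm.le
          apply mul_le_mul_of_nonneg_right _ (by positivity)
          have := hgrow m
          linarith
      _ = 32 * q * C₁ * (q ^ (c' / 2 * m) * (q ^ (-(c' * m)) * q ^ m)) := by ring
      _ = 32 * q * C₁ * q ^ ((1 - c' / 2) * m) := by rw [hexp]
      _ ≤ (q ^ N0 + 32 * q * C₁) * q ^ ((1 - c' / 2) * m) := by
          apply mul_le_mul_of_nonneg_right _ (Real.rpow_nonneg hq0.le _)
          have : 0 < q ^ N0 := by positivity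
          linarith

end Pool.Agent.H526.PQ.PrikAsm
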