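import Pool.Agent.H526.PQ.StmK
import Pool.Agent.H183.Par.BRUN

/-!
# The abstract sieve with twisted sums, from the fundamental lemma
-/

namespace Pool.Agent.H526.PQ.SiftA

open scoped Classical

variable {ι α : Type}

/-- exchange of the two summations -/
lemma exch (Q : Finset ι) (S : Finset α) (B : α → Finset ι) (hB : ∀ x ∈ S, B x ⊆ Q)
    (G : Finset ι → ℝ) (F : α → ℝ) :
    ∑ x ∈ S, F x * ∑ T ∈ (B x).powerset, G T =
      ∑ T ∈ Q.powerset, G T * ∑ x ∈ S.filter (fun x => T ⊆ B x), F x := by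
  have h1 : ∀ x ∈ S, F x * ∑ T ∈ (B x).powerset, G T =
      ∑ T ∈ Q.powerset, if T ⊆ B x then G T * F x else 0 := by
    intro x hx
    rw [← Finset.sum_filter]
    have h2 : Q.powerset.filter (fun T => T ⊆ B x) = (B x).powerset := by
      ext T
      rw [Finset.mem_filter, Finset.mem_powerset, Finset.mem_powerset]
      exact ⟨fun h => h.2, fun h => ⟨h.trans (hB x hx), h⟩⟩
    rw [h2, Finset.mul_sum]
    exact Finset.sum_congr rfl fun T _ => mul_comm _ _
  rw [Finset.sum_congr rfl h1, Finset.sum_comm]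
  refine Finset.sum_congr rfl fun T _ => ?_
  rw [Finset.mul_sum, Finset.sum_filter]

/-- sums with weights supported on few sets -/
lemma small (Q : Finset ι) (ℓ : ι → ℕ) (D N : ℕ) (G a : Finset ι → ℝ) (R : ℝ) (hR : 0 ≤ R)
    (hN : (Q.powerset.filter (fun T => ∑ P ∈ T, ℓ P ≤ D)).card ≤ N)
    (h1 : ∀ T, |G T| ≤ 1) (h2 : ∀ T, G T ≠ 0 → T ⊆ Q ∧ ∑ P ∈ T, ℓ P ≤ D)
    (ha : ∀ T ⊆ Q, ∑ P ∈ T, ℓ P ≤ D → |a T| ≤ R) :
    |∑ T ∈ Q.powerset, G T * a T| ≤ N * R := by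
  have h3 : ∑ T ∈ Q.powerset, G T * a T =
      ∑ T ∈ Q.powerset.filter (fun T => ∑ P ∈ T, ℓ P ≤ D), G T * a T := by
    symm
    refine Finset.sum_filter_of_ne fun T _ hT => ?_
    exact (h2 T (left_ne_zero_of_mul hT)).2
  rw [h3]
  refine (Finset.abs_sum_le_sum_abs _ _).trans ?_
  have h4 : ∀ T ∈ Q.powerset.filter (fun T => ∑ P ∈ T, ℓ P ≤ D), |G T * a T| ≤ R := by
    intro T hT
    rw [Finset.mem_filter, Finset.mem_powerset] at hT
    rw [abs_mul]
    calc |G T| * |a T| ≤ 1 * R := mul_le_mul (h1 T) (ha T hT.1 hT.2) (abs_nonneg _) zero_le_one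
      _ = R := one_mul _
  refine (Finset.sum_le_card_nsmul _ _ R h4).trans ?_
  rw [nsmul_eq_mul]
  refine mul_le_mul_of_nonneg_right ?_ hR
  exact_mod_cast hN

theorem main : Pool.Agent.H526.PQ.S_sift := by
  intro C ε hC hε
  obtain ⟨A, hA⟩ := Pool.Agent.H183.Par.brun C (ε / 2) hC (by positivity)
  refine ⟨A, ?_⟩
  intro ι α Q ℓ w m S B M R N h1 h2 h3 hM hR hN hB hS
  obtain ⟨U, V, hb, hs, hU, hV, hUw, hVw⟩ := hA ι Q ℓ w m h1 h2 h3
  have hC1 : 0 < 1 / C := by positivity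
  set W : ℝ := ∏ P ∈ Q, (1 - w P) with hW
  have hW0 : 0 ≤ W := Finset.prod_nonneg fun P hP => by
    have := (h2 P hP).2
    linarith
  -- the number of the elements, from a weight function
  have key : ∀ G : Finset ι → ℝ, (∀ T, |G T| ≤ 1) →
      (∀ T, G T ≠ 0 → T ⊆ Q ∧ ∑ P ∈ T, ℓ P ≤ A * m) →
      |∑ x ∈ S, ∑ T ∈ (B x).powerset, G T - M * ∑ T ∈ Q.powerset, G T * ∏ P ∈ T, w P| ≤ N * R := by
    intro G hG1 hG2
    have e1 := exch Q S B hB G (fun _ => 1)
    simp only [one_mul] at e1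
    rw [e1, Finset.mul_sum, ← Finset.sum_sub_distrib]
    have e2 : ∀ T ∈ Q.powerset, G T * ∑ x ∈ S.filter (fun x => T ⊆ B x), (1 : ℝ) -
        M * (G T * ∏ P ∈ T, w P) = G T * (((S.filter (fun x => T ⊆ B x)).card : ℝ) -
          M * ∏ P ∈ T, w P) := by
      intro T _
      rw [Finset.sum_const, nsmul_eq_mul, mul_one]
      ring
    rw [Finset.sum_congr rfl e2]
    exact small Q ℓ (A * m) N G _ R hR hN hG1 hG2 hS
  have kU := abs_le.1 (key U (fun T => (hb T).1) (fun T hT => hs T (Or.inl hT)))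
  have kV := abs_le.1 (key V (fun T => (hb T).2) (fun T hT => hs T (Or.inr hT)))
  have hcard : ((S.filter (fun x => B x = ∅)).card : ℝ) =
      ∑ x ∈ S, (if B x = ∅ then (1 : ℝ) else 0) := by
    rw [Finset.sum_ite, Finset.sum_const_zero, add_zero, Finset.sum_const, nsmul_eq_mul, mul_one]
  have up : ((S.filter (fun x => B x = ∅)).card : ℝ) ≤ ∑ x ∈ S, ∑ T ∈ (B x).powerset, U T := by
    rw [hcard]
    exact Finset.sum_le_sum fun x hx => hU (B x) (hB x hx)
  have low : ∑ x ∈ S, ∑ T ∈ (B x).powerset, V T ≤ ((S.filter (fun x => B x = ∅)).card : ℝ) := by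
    rw [hcard]
    exact Finset.sum_le_sum fun x hx => hV (B x) (hB x hx)
  have mU : M * ∑ T ∈ Q.powerset, U T * ∏ P ∈ T, w P ≤ M * ((1 + ε / 2) * W) :=
    mul_le_mul_of_nonneg_left hUw hM
  have mV : M * ((1 - ε / 2) * W) ≤ M * ∑ T ∈ Q.powerset, V T * ∏ P ∈ T, w P :=
    mul_le_mul_of_nonneg_left hVw hM
  have hMW : 0 ≤ M * W := mul_nonneg hM hW0
  have hεMW : 0 ≤ ε * (M * W) := mul_nonneg hε.le hMW
  have r1 : M * ((1 + ε / 2) * W) = M * W + ε * (M * W) / 2 := by ring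
  have r2 : M * ((1 - ε / 2) * W) = M * W - ε * (M * W) / 2 := by ring
  rw [r1] at mU
  rw [r2] at mV
  refine ⟨?_, ?_⟩
  · rw [abs_le]
    constructor
    · linarith [kV.1]
    · linarith [kU.2]
  · intro F hF hFT
    have e3 : ∑ x ∈ S.filter (fun x => B x = ∅), F x =
        ∑ x ∈ S, F x * ∑ T ∈ (B x).powerset, U T -
          ∑ x ∈ S, F x * (∑ T ∈ (B x).powerset, U T - (if B x = ∅ then (1 : ℝ) else 0)) := by
      rw [← Finset.sum_sub_distrib, Finset.sum_filter]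
      refine Finset.sum_congr rfl fun x _ => ?_
      by_cases hx : B x = ∅
      · rw [if_pos hx, if_pos hx]; ring
      · rw [if_neg hx, if_neg hx]; ring
    have e4 : |∑ x ∈ S, F x * ∑ T ∈ (B x).powerset, U T| ≤ N * R := by
      rw [exch Q S B hB U F]
      exact small Q ℓ (A * m) N U _ R hR hN (fun T => (hb T).1) (fun T hT => hs T (Or.inl hT)) hFT
    have e5 : |∑ x ∈ S, F x * (∑ T ∈ (B x).powerset, U T - (if B x = ∅ then (1 : ℝ) else 0))| ≤
        ∑ x ∈ S, ∑ T ∈ (B x).powerset, U T - ((S.filter (fun x => B x = ∅)).card : ℝ) := by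
      refine (Finset.abs_sum_le_sum_abs _ _).trans ?_
      rw [hcard, ← Finset.sum_sub_distrib]
      refine Finset.sum_le_sum fun x hx => ?_
      have h5 : 0 ≤ ∑ T ∈ (B x).powerset, U T - (if B x = ∅ then (1 : ℝ) else 0) :=
        sub_nonneg.2 (hU (B x) (hB x hx))
      rw [abs_mul, abs_of_nonneg h5]
      calc |F x| * (∑ T ∈ (B x).powerset, U T - (if B x = ∅ then (1 : ℝ) else 0))
          ≤ 1 * (∑ T ∈ (B x).powerset, U T - (if B x = ∅ then (1 : ℝ) else 0)) :=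
            mul_le_mul_of_nonneg_right (hF x) h5
        _ = _ := one_mul _
    rw [e3]
    have e6 := abs_sub (∑ x ∈ S, F x * ∑ T ∈ (B x).powerset, U T)
      (∑ x ∈ S, F x * (∑ T ∈ (B x).powerset, U T - (if B x = ∅ then (1 : ℝ) else 0)))
    linarith [kV.1, kU.2]

end Pool.Agent.H526.PQ.SiftA
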