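import Pool.Agent.H526.PQ.StmK
import Pool.Agent.H675.Par.SW

/-!
# Task SIFTEDASM: the sifted set of irreducible polynomials (for project PQ, helper526)
-/

set_option autoImplicit false
set_option linter.unusedSectionVars false

namespace Pool.Agent.H526.PQ.SiftedAsm

open Polynomial Finset Filter Topology
open scoped Classical
open Pool.Agent.H985.Chow (mob lc)
open Pool.Agent.H694.Typ (Mn Irn PU mem_Mn mem_Irn mem_PU coprime_of_ne)
open Pool.Agent.H985.Par (Sft)
open Pool.Agent.H675.Par.SWL (Wn mem_Wn card_Wn crt' card_T q_two)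

variable {K : Type} [Field K] [Fintype K]

/-- the forbidden classes -/
noncomputable def Om {n : ℕ} (g : Fin n → K[X]) (π : K[X]) : Finset K[X] :=
  (Wn K π.natDegree).filter (fun r => r ≠ 0 ∧ ∃ i, π ∣ r ^ 2 + X * g i ^ 2)

theorem mem_Om {n : ℕ} {g : Fin n → K[X]} {π r : K[X]} (hπ : π ≠ 0) :
    r ∈ Om g π ↔ r.degree < π.degree ∧ r ≠ 0 ∧ ∃ i, π ∣ r ^ 2 + X * g i ^ 2 := by
  unfold Om
  rw [mem_filter, mem_Wn, degree_eq_natDegree hπ]

theorem nuR_eq {n : ℕ} (g : Fin n → K[X]) {π : K[X]} (hπ : π ≠ 0) : nuR g π = (Om g π).card := by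
  unfold nuR
  rw [← Set.ncard_coe_finset]
  congr 1
  ext r
  rw [mem_coe, mem_Om hπ]
  rfl

theorem card_Om_le {n : ℕ} (g : Fin n → K[X]) (π : K[X]) :
    (Om g π).card ≤ Fintype.card K ^ π.natDegree := by
  unfold Om
  exact (card_filter_le _ _).trans (le_of_eq (card_Wn _))

theorem exists_iff {n : ℕ} (g : Fin n → K[X]) {m : ℕ} {P π : K[X]} (hP : P ∈ Irn K m)
    (hπm : π.Monic) (hπ : Irreducible π) (hd : π.natDegree < m) :
    (∃ i, π ∣ P ^ 2 + X * g i ^ 2) ↔ ∃ r ∈ Om g π, π ∣ P - r := by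
  have hP' := mem_Irn.1 hP
  have hnd : ¬ π ∣ P := by
    intro h
    have h1 : π = P := eq_of_monic_of_associated hπm hP'.1 (hπ.associated_of_dvd hP'.2.2 h)
    rw [h1, hP'.2.1] at hd
    omega
  have key : ∀ (r : K[X]) (i : Fin n), π ∣ P - r →
      (π ∣ P ^ 2 + X * g i ^ 2 ↔ π ∣ r ^ 2 + X * g i ^ 2) := by
    intro r i h
    have e : P ^ 2 + X * g i ^ 2 = (r ^ 2 + X * g i ^ 2) + (P - r) * (P + r) := by ring
    rw [e]
    exact dvd_add_left (h.mul_right _)
  constructor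
  · rintro ⟨i, hi⟩
    have h1 : π ∣ P - P %ₘ π := by
      refine ⟨P /ₘ π, ?_⟩
      have := modByMonic_add_div P π
      linear_combination -this
    refine ⟨P %ₘ π, (mem_Om hπ.ne_zero).2 ⟨degree_modByMonic_lt _ hπm, ?_, i, (key _ i h1).1 hi⟩, h1⟩
    intro h0
    rw [h0, sub_zero] at h1
    exact hnd h1
  · rintro ⟨r, hr, h⟩
    obtain ⟨-, -, i, hi⟩ := (mem_Om hπ.ne_zero).1 hr
    exact ⟨i, (key r i h).2 hi⟩

/-- decomposition into classes -/
theorem sum_T {n : ℕ} (g : Fin n → K[X]) {m : ℕ} (T : Finset K[X])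
    (hT : ∀ π ∈ T, π.Monic ∧ Irreducible π ∧ π.natDegree < m) :
    ∃ r : (∀ a ∈ T, K[X]) → K[X], (∀ p ∈ T.pi (Om g), IsCoprime (r p) (∏ π ∈ T, π)) ∧
      ∀ F : K[X] → ℝ,
        ∑ P ∈ (Irn K m).filter (fun P => ∀ π ∈ T, ∃ i, π ∣ P ^ 2 + X * g i ^ 2), F P =
        ∑ p ∈ T.pi (Om g), ∑ P ∈ (Irn K m).filter (fun P => (∏ π ∈ T, π) ∣ P - r p), F P := by
  choose r hr1 hr2 using fun p : (∀ a ∈ T, K[X]) =>
    crt' (1 : K[X]) 0 (fun P => if h : P ∈ T then p P h else 0) T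
      (fun P hP => ⟨(hT P hP).1, (hT P hP).2.1, isCoprime_one_left⟩)
  refine ⟨r, ?_, ?_⟩
  · intro p hp
    rw [Finset.mem_pi] at hp
    refine IsCoprime.prod_right fun π hπ => ?_
    have h1 : π ∣ r p - p π hπ := by
      have h2 := (hr2 p (r p)).2 (by rw [sub_self]; exact dvd_zero _) π hπ
      rw [dif_pos hπ, zero_add, one_mul] at h2
      exact h2
    obtain ⟨h3, h4, -⟩ := (mem_Om (hT π hπ).2.1.ne_zero).1 (hp π hπ)
    refine ((hT π hπ).2.1.coprime_iff_not_dvd.2 fun h5 => ?_).symm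
    have h6 : π ∣ p π hπ := by
      have e : p π hπ = r p - (r p - p π hπ) := by ring
      rw [e]
      exact dvd_sub h5 h1
    exact h4 (eq_zero_of_dvd_of_degree_lt h6 h3)
  · intro F
    have h1 : ∀ u ∈ Irn K m, (if ∀ π ∈ T, ∃ i, π ∣ u ^ 2 + X * g i ^ 2 then F u else 0) =
        ∑ p ∈ T.pi (Om g), if (∏ π ∈ T, π) ∣ u - r p then F u else 0 := by
      intro u hu
      have h0 : (if ∀ π ∈ T, ∃ i, π ∣ u ^ 2 + X * g i ^ 2 then (1 : ℝ) else 0) =
          ∑ p ∈ T.pi (Om g), if (∏ π ∈ T, π) ∣ u - r p then 1 else 0 := by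
        rw [← Finset.prod_boole]
        have h2 : ∀ P ∈ T, (if ∃ i, P ∣ u ^ 2 + X * g i ^ 2 then (1 : ℝ) else 0) =
            ∑ r ∈ Om g P, if P ∣ u - r then 1 else 0 := by
          intro P hP
          obtain ⟨hPm, hPi, hPd⟩ := hT P hP
          by_cases h3 : ∃ r ∈ Om g P, P ∣ u - r
          · rw [if_pos ((exists_iff g hu hPm hPi hPd).2 h3)]
            obtain ⟨r₀, hr₀, hd⟩ := h3
            rw [Finset.sum_eq_single r₀]
            · rw [if_pos hd]
            · intro r' hr' hne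
              rw [if_neg]
              intro hd'
              apply hne
              have h4 : P ∣ r₀ - r' := by
                have : r₀ - r' = (u - r') - (u - r₀) := by ring
                rw [this]
                exact dvd_sub hd' hd
              have h5 : (r₀ - r').degree < P.degree :=
                (degree_sub_le _ _).trans_lt (max_lt ((mem_Om hPi.ne_zero).1 hr₀).1
                  ((mem_Om hPi.ne_zero).1 hr').1)
              exact (sub_eq_zero.1 (eq_zero_of_dvd_of_degree_lt h4 h5)).symm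
            · intro h6
              exact absurd hr₀ h6
          · rw [if_neg (fun h => h3 ((exists_iff g hu hPm hPi hPd).1 h))]
            symm
            refine Finset.sum_eq_zero fun r' hr' => ?_
            rw [if_neg]
            exact fun h4 => h3 ⟨r', hr', h4⟩
        rw [Finset.prod_congr rfl h2, Finset.prod_sum]
        refine Finset.sum_congr rfl fun p _ => ?_
        rw [Finset.prod_boole]
        have h7 : (∀ x ∈ T.attach, (x : K[X]) ∣ u - p x x.2) ↔ (∏ P ∈ T, P) ∣ u - r p := by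
          rw [← hr2 p u]
          constructor
          · intro h8 P hP
            have h9 := h8 ⟨P, hP⟩ (mem_attach _ _)
            rw [dif_pos hP, zero_add, one_mul]
            exact h9
          · intro h8 x _
            have h9 := h8 x x.2
            rw [dif_pos x.2, zero_add, one_mul] at h9
            exact h9
        by_cases h10 : (∏ P ∈ T, P) ∣ u - r p
        · rw [if_pos h10, if_pos (h7.2 h10)]
        · rw [if_neg h10, if_neg fun h11 => h10 (h7.1 h11)]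
      have h00 := congrArg (fun x => F u * x) h0
      simp only [Finset.mul_sum, mul_ite, mul_one, mul_zero] at h00
      exact h00
    rw [Finset.sum_filter, Finset.sum_congr rfl h1, Finset.sum_comm]
    refine Finset.sum_congr rfl fun p _ => ?_
    rw [Finset.sum_filter]

theorem prod_facts {T : Finset K[X]} (hT : ∀ π ∈ T, π.Monic ∧ Irreducible π) :
    (∏ π ∈ T, π).Monic ∧ Squarefree (∏ π ∈ T, π) ∧
      (PU K (∏ π ∈ T, π).natDegree).filter (fun π => π ∣ ∏ σ ∈ T, σ) = T := by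
  have hm : (∏ π ∈ T, π).Monic := monic_prod_of_monic _ _ fun P hP => (hT P hP).1
  refine ⟨hm, ?_, ?_⟩
  · apply Finset.squarefree_prod_of_pairwise_isCoprime
    · intro P hP Q hQ hne
      exact (coprime_of_ne (hT P hP).1 (hT P hP).2 (hT Q hQ).1 (hT Q hQ).2 hne).isRelPrime
    · intro P hP
      exact (hT P hP).2.squarefree
  · ext P
    rw [mem_filter, mem_PU]
    constructor
    · rintro ⟨⟨h1, h2, -⟩, h3⟩
      obtain ⟨Q, hQ, hPQ⟩ := (h2.prime.dvd_finsetProd_iff _).1 h3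
      have h4 : P = Q := eq_of_monic_of_associated h1 (hT Q hQ).1 (h2.associated_of_dvd (hT Q hQ).2 hPQ)
      rw [h4]
      exact hQ
    · intro hP
      have h3 : P ∣ ∏ σ ∈ T, σ := dvd_prod_of_mem _ hP
      exact ⟨⟨(hT P hP).1, (hT P hP).2, natDegree_le_of_dvd h3 hm.ne_zero⟩, h3⟩

theorem mob_abs (F : K[X]) : |(mob F : ℝ)| ≤ 1 := by
  unfold mob
  split_ifs
  · push_cast
    rw [abs_pow, abs_neg, abs_one, one_pow]
  · simp

/-- subfamilies -/
theorem sub_family {n : ℕ} (T : Finset (Fin n)) : ∃ φ : Fin T.card → Fin n,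
    (∀ (M : Type) [CommMonoid M] (f : Fin n → M), ∏ i, f (φ i) = ∏ i ∈ T, f i) ∧
    (∀ (g : Fin n → K[X]), ∑ i, ∏ j ∈ univ.erase i, g (φ j) = ∑ i ∈ T, ∏ j ∈ T.erase i, g j) := by
  refine ⟨T.orderEmbOfFin rfl, ?_, ?_⟩
  · intro M _ f
    have h := Finset.map_orderEmbOfFin_univ T rfl
    conv_rhs => rw [← h, Finset.prod_map]
    rfl
  · intro g
    have h := Finset.map_orderEmbOfFin_univ T rfl
    have h1 : ∑ i ∈ T, ∏ j ∈ T.erase i, g j =
        ∑ i : Fin T.card, ∏ j ∈ T.erase (T.orderEmbOfFin rfl i), g j := by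
      conv_lhs => rw [← h, Finset.sum_map]
      rw [h]
      rfl
    rw [h1]
    refine Finset.sum_congr rfl fun i _ => ?_
    have h2 : T.erase (T.orderEmbOfFin rfl i) =
        ((univ : Finset (Fin T.card)).erase i).map (T.orderEmbOfFin rfl).toEmbedding := by
      rw [Finset.map_erase, h]
      rfl
    rw [h2, Finset.prod_map]
    rfl

/-- exponential beats polynomial -/
theorem asym {x : ℝ} (hx : 1 < x) (k : ℕ) {δ : ℝ} (hδ : 0 < δ) :
    ∃ m₀ : ℕ, ∀ m : ℕ, m₀ ≤ m → (m : ℝ) ^ k ≤ δ * x ^ m := by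
  have hx0 : 0 < x := by linarith
  have h := tendsto_pow_const_mul_const_pow_of_abs_lt_one k (r := x⁻¹)
    (by rw [abs_of_pos (inv_pos.2 hx0)]; exact inv_lt_one_of_one_lt₀ hx)
  have h1 := h.eventually (gt_mem_nhds hδ)
  obtain ⟨m₀, hm₀⟩ := eventually_atTop.1 h1
  refine ⟨m₀, fun m hm => ?_⟩
  have h2 := hm₀ m hm
  rw [inv_pow, ← div_eq_mul_inv, div_lt_iff₀ (by positivity)] at h2
  exact h2.le

/-- the two bounds for one `T` -/
theorem one_T {n : ℕ} (g : Fin n → K[X]) {m L : ℕ} {T : Finset K[X]}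
    (hT : ∀ π ∈ T, π.Monic ∧ Irreducible π) (hL : ∑ π ∈ T, π.natDegree ≤ L) (hLm : L < m)
    {E : ℝ} (hE : 0 ≤ E) :
    ((∀ D r : K[X], D.Monic → Squarefree D → IsCoprime r D → D.natDegree < m →
      |(((Irn K m).filter (fun P => D ∣ P - r)).card : ℝ) - (Fintype.card K : ℝ) ^ m / m /
        ∏ π ∈ (PU K D.natDegree).filter (fun π => π ∣ D), ((Fintype.card K : ℝ) ^ π.natDegree - 1)| ≤ E) →
      |(((Irn K m).filter (fun P => ∀ π ∈ T, ∃ i, π ∣ P ^ 2 + X * g i ^ 2)).card : ℝ) -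
        (Fintype.card K : ℝ) ^ m / m *
          ∏ π ∈ T, ((nuR g π : ℝ) / ((Fintype.card K : ℝ) ^ π.natDegree - 1))| ≤
        (Fintype.card K : ℝ) ^ L * E) ∧
    ∀ F : K[X] → ℝ, (∀ D r : K[X], D.Monic → D.natDegree ≤ L →
      |∑ P ∈ (Irn K m).filter (fun P => D ∣ P - r), F P| ≤ E) →
      |∑ P ∈ (Irn K m).filter (fun P => ∀ π ∈ T, ∃ i, π ∣ P ^ 2 + X * g i ^ 2), F P| ≤
        (Fintype.card K : ℝ) ^ L * E := by
  have hq2 : (2 : ℝ) ≤ Fintype.card K := by exact_mod_cast q_two (K := K)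
  obtain ⟨hDm, hDs, hDf⟩ := prod_facts hT
  have hdeg : (∏ π ∈ T, π).natDegree = ∑ π ∈ T, π.natDegree :=
    natDegree_prod_of_monic _ _ fun π hπ => (hT π hπ).1
  have hπm : ∀ π ∈ T, π.natDegree < m := by
    intro π hπ
    have h1 : π.natDegree ≤ ∑ π ∈ T, π.natDegree :=
      Finset.single_le_sum (f := fun π : K[X] => π.natDegree) (fun _ _ => Nat.zero_le _) hπ
    omega
  obtain ⟨r, hr1, hr2⟩ := sum_T (m := m) g T (fun π hπ => ⟨(hT π hπ).1, (hT π hπ).2, hπm π hπ⟩)
  have hcard : ((T.pi (Om g)).card : ℝ) ≤ (Fintype.card K : ℝ) ^ L := by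
    rw [Finset.card_pi]
    have h1 : ∏ π ∈ T, (Om g π).card ≤ Fintype.card K ^ L := by
      calc ∏ π ∈ T, (Om g π).card ≤ ∏ π ∈ T, Fintype.card K ^ π.natDegree :=
            Finset.prod_le_prod' fun π _ => card_Om_le g π
        _ = Fintype.card K ^ (∑ π ∈ T, π.natDegree) := Finset.prod_pow_eq_pow_sum _ _ _
        _ ≤ Fintype.card K ^ L := Nat.pow_le_pow_right (by have := q_two (K := K); omega) hL
    exact_mod_cast h1
  constructor
  · intro hP
    have h1 := hr2 (fun _ => 1)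
    simp only [Finset.sum_const, nsmul_eq_mul, mul_one] at h1
    set M : ℝ := (Fintype.card K : ℝ) ^ m / m with hM
    set Z : ℝ := ∏ π ∈ T, ((Fintype.card K : ℝ) ^ π.natDegree - 1) with hZ
    have h2 : M * ∏ π ∈ T, ((nuR g π : ℝ) / ((Fintype.card K : ℝ) ^ π.natDegree - 1)) =
        ∑ p ∈ T.pi (Om g), M / Z := by
      rw [Finset.sum_const, nsmul_eq_mul, Finset.card_pi, Finset.prod_div_distrib, ← hZ]
      have h3 : ∏ π ∈ T, (nuR g π : ℝ) = ((∏ π ∈ T, (Om g π).card : ℕ) : ℝ) := by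
        push_cast
        refine Finset.prod_congr rfl fun π hπ => ?_
        rw [nuR_eq g (hT π hπ).2.ne_zero]
      rw [h3]
      ring
    rw [h1, h2, ← Finset.sum_sub_distrib]
    refine (Finset.abs_sum_le_sum_abs _ _).trans ?_
    have h4 : ∀ p ∈ T.pi (Om g), |(((Irn K m).filter (fun P => (∏ π ∈ T, π) ∣ P - r p)).card : ℝ) -
        M / Z| ≤ E := by
      intro p hp
      have h5 := hP (∏ π ∈ T, π) (r p) hDm hDs (hr1 p hp) (by omega)
      rw [hDf] at h5
      exact h5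
    refine (Finset.sum_le_sum h4).trans ?_
    rw [Finset.sum_const, nsmul_eq_mul]
    exact mul_le_mul_of_nonneg_right hcard hE
  · intro F hF
    rw [hr2 F]
    refine (Finset.abs_sum_le_sum_abs _ _).trans ?_
    refine (Finset.sum_le_sum fun p _ => hF (∏ π ∈ T, π) (r p) hDm (by omega)).trans ?_
    rw [Finset.sum_const, nsmul_eq_mul]
    exact mul_le_mul_of_nonneg_right hcard hE

theorem main : Pool.Agent.H526.PQ.S_siftedasm := by
  intro hprik hpap hsift hvpr K _ _ _ n g ε hg hadm hε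
  have hq2 : (2 : ℝ) ≤ Fintype.card K := by exact_mod_cast q_two (K := K)
  set q : ℝ := (Fintype.card K : ℝ) with hq
  have hq0 : 0 < q := by linarith
  have hq1 : 1 < q := by linarith
  obtain ⟨C₁, hC₁, v1, v2, v3⟩ := hvpr K n g hadm
  obtain ⟨A, hA⟩ := hsift C₁ (ε / 2) hC₁ (half_pos hε)
  obtain ⟨C₂, hC₂, hpap'⟩ := hpap K
  have hT' : ∀ T : Finset (Fin n), ∃ c C : ℝ, 0 < c ∧ 0 < C ∧
      (∑ i ∈ T, ∏ j ∈ T.erase i, g j ≠ 0 → ∀ m : ℕ, ∀ D r : K[X], D.Monic →
        (D.natDegree : ℝ) ≤ c * m →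
        |∑ P ∈ (Irn K m).filter (fun P => D ∣ P - r), ∏ i ∈ T, (mob (P ^ 2 + X * g i ^ 2) : ℝ)| ≤
          C * q ^ ((1 - c) * m)) := by
    intro T
    by_cases h : ∑ i ∈ T, ∏ j ∈ T.erase i, g j ≠ 0
    · obtain ⟨φ, hφ1, hφ2⟩ := sub_family (K := K) T
      obtain ⟨c, C, hc, hC, hb⟩ := hprik K T.card (fun i => g (φ i)) (fun i => hg _)
        (by rw [hφ2 g]; exact h)
      refine ⟨c, C, hc, hC, fun _ m D r hD hDd => ?_⟩
      have h1 := hb m D r hD hDd
      have h2 : ∀ P : K[X], ∏ i, (mob (P ^ 2 + X * g (φ i) ^ 2) : ℝ) =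
          ∏ i ∈ T, (mob (P ^ 2 + X * g i ^ 2) : ℝ) := fun P =>
        hφ1 ℝ (fun i => (mob (P ^ 2 + X * g i ^ 2) : ℝ))
      simp only [h2] at h1
      exact h1
    · exact ⟨1, 1, one_pos, one_pos, fun h' => absurd h' h⟩
  choose cT CT hc0 hC0 hb using hT'
  obtain ⟨T₀, -, hT₀⟩ := Finset.exists_min_image (univ : Finset (Finset (Fin n))) cT univ_nonempty
  obtain ⟨T₁, -, hT₁⟩ := Finset.exists_max_image (univ : Finset (Finset (Fin n))) CT univ_nonempty
  set c' : ℝ := min (cT T₀) (1 / 4) with hc'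
  have hc'0 : 0 < c' := lt_min (hc0 _) (by norm_num)
  have hc'4 : c' ≤ 1 / 4 := min_le_right _ _
  have hc'T : ∀ T, c' ≤ cT T := fun T => (min_le_left _ _).trans (hT₀ T (mem_univ _))
  set C₀ : ℝ := max C₂ (CT T₁) with hC₀
  have hC₀0 : 0 < C₀ := lt_of_lt_of_le hC₂ (le_max_left _ _)
  have hC₀T : ∀ T, CT T ≤ C₀ := fun T => (hT₁ T (mem_univ _)).trans (le_max_right _ _)
  set κ : ℝ := c' / (4 * (A + 1)) with hκ
  have hA0 : (0 : ℝ) ≤ A := Nat.cast_nonneg _
  have hκ0 : 0 < κ := by positivity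
  have hκA : (A : ℝ) * κ ≤ c' / 4 := by
    rw [hκ, ← mul_div_assoc, div_le_div_iff₀ (by positivity) (by norm_num)]
    nlinarith
  have hκ1 : κ ≤ 1 / 16 := by
    rw [hκ, div_le_div_iff₀ (by positivity) (by norm_num)]
    nlinarith
  set x : ℝ := q ^ (c' / 2) with hx
  have hx1 : 1 < x := Real.one_lt_rpow hq1 (by positivity)
  obtain ⟨m₁, hm₁⟩ := asym hx1 (n + 2) (δ := ε / (12 * C₀ * C₁)) (by positivity)
  refine ⟨κ, hκ0, max m₁ 1, fun m z hm hz hzm => ?_⟩
  have hm1 : 1 ≤ m := (le_max_right _ _).trans hm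
  have hmm : m₁ ≤ m := (le_max_left _ _).trans hm
  have hmR : (1 : ℝ) ≤ m := by exact_mod_cast hm1
  have hm0 : (0 : ℝ) < m := by linarith
  have hzR : (1 : ℝ) ≤ z := by exact_mod_cast hz
  have hAz : ((A * z : ℕ) : ℝ) ≤ c' / 4 * m := by
    push_cast
    calc (A : ℝ) * z ≤ A * (κ * m) := mul_le_mul_of_nonneg_left hzm hA0
      _ = (A * κ) * m := by ring
      _ ≤ c' / 4 * m := mul_le_mul_of_nonneg_right hκA hm0.le
  have hAzm : A * z < m := by
    have h1 : ((A * z : ℕ) : ℝ) < m := by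
      refine lt_of_le_of_lt hAz ?_
      nlinarith
    exact_mod_cast h1
  have hzm' : (z : ℝ) ≤ m := by
    refine hzm.trans ?_
    nlinarith
  set M : ℝ := q ^ m / m with hM
  have hM0 : 0 < M := by positivity
  set E : ℝ := C₀ * m * q ^ ((1 - c') * m) with hE
  have hE0 : 0 ≤ E := by positivity
  set R : ℝ := q ^ (A * z) * E with hR
  have hR0 : 0 ≤ R := by positivity
  set N : ℕ := 2 * Fintype.card K ^ (A * z) with hN
  set w : K[X] → ℝ := fun π => (nuR g π : ℝ) / (q ^ π.natDegree - 1) with hw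
  set B : K[X] → Finset K[X] := fun P => (PU K z).filter (fun π => ∃ i, π ∣ P ^ 2 + X * g i ^ 2)
    with hB
  have hPU : ∀ π ∈ PU K z, π.Monic ∧ Irreducible π := fun π hπ => ⟨(mem_PU.1 hπ).1, (mem_PU.1 hπ).2.1⟩
  -- `T ⊆ B P`
  have hTB : ∀ T ⊆ PU K z, ∀ inst : DecidablePred (fun P => T ⊆ B P),
      @Finset.filter _ (fun P => T ⊆ B P) inst (Irn K m) =
      (Irn K m).filter (fun P => ∀ π ∈ T, ∃ i, π ∣ P ^ 2 + X * g i ^ 2) := by
    intro T hT inst
    ext P
    rw [mem_filter, mem_filter]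
    refine and_congr_right fun _ => ?_
    constructor
    · intro h π hπ
      exact (mem_filter.1 (h hπ)).2
    · intro h π hπ
      exact mem_filter.2 ⟨hT hπ, h π hπ⟩
  -- `B P = ∅`
  have hBe : ∀ inst : DecidablePred (fun P => B P = ∅),
      @Finset.filter _ (fun P => B P = ∅) inst (Irn K m) = Sift K g m z := by
    intro inst
    unfold Sift
    ext P
    rw [mem_filter, mem_filter]
    refine and_congr_right fun _ => ?_
    rw [Finset.filter_eq_empty_iff]
    constructor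
    · intro h i π hπm hπ hd
      by_contra hlt
      exact h (mem_PU.2 ⟨hπm, hπ, not_lt.1 hlt⟩) ⟨i, hd⟩
    · rintro h π hπ ⟨i, hd⟩
      obtain ⟨h1, h2, h3⟩ := mem_PU.1 hπ
      have := h i π h1 h2 hd
      omega
  have hvp : ∏ π ∈ PU K z, (1 - w π) = vpR g z := rfl
  have hwn : ∀ π ∈ PU K z, 0 ≤ w π := by
    intro π hπ
    refine div_nonneg (Nat.cast_nonneg _) ?_
    have : 1 ≤ q ^ π.natDegree := one_le_pow₀ hq1.le
    linarith
  -- the residual bounds
  have hEp : C₂ * m * q ^ ((3 : ℝ) / 4 * m) ≤ E := by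
    rw [hE]
    have h1 : q ^ ((3 : ℝ) / 4 * m) ≤ q ^ ((1 - c') * m) :=
      Real.rpow_le_rpow_of_exponent_le hq1.le (mul_le_mul_of_nonneg_right (by linarith) hm0.le)
    exact mul_le_mul (mul_le_mul_of_nonneg_right (le_max_left _ _) hm0.le) h1 (by positivity)
      (by positivity)
  have hEt : ∀ T, CT T * q ^ ((1 - cT T) * m) ≤ E := by
    intro T
    rw [hE]
    have h1 : q ^ ((1 - cT T) * m) ≤ q ^ ((1 - c') * m) :=
      Real.rpow_le_rpow_of_exponent_le hq1.le
        (mul_le_mul_of_nonneg_right (by linarith [hc'T T]) hm0.le)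
    refine mul_le_mul ((hC₀T T).trans ?_) h1 (by positivity) (by positivity)
    exact le_mul_of_one_le_right hC₀0.le hmR
  obtain ⟨hs1, hs2⟩ := hA K[X] K[X] (PU K z) (fun π => π.natDegree) w z (Irn K m) B M R N
    (fun π hπ => ⟨(hPU π hπ).2.natDegree_pos, (mem_PU.1 hπ).2.2⟩)
    (fun π hπ => ⟨hwn π hπ, v1 π (hPU π hπ).2⟩)
    (fun y => v2 y z) hM0.le hR0
    (by
      have h1 := card_T (K := K) hPU (A * z)
      rw [hN]
      exact_mod_cast h1)
    (fun P _ => filter_subset _ _)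
    (fun T hT hTd => by
      rw [hTB T hT]
      refine (one_T g (fun π hπ => hPU π (hT hπ)) hTd hAzm hE0).1 ?_
      intro D r hD hDs hr hDm
      exact (hpap' m D r hm1 hD hDs hr hDm).trans hEp)
  rw [hBe, hvp] at hs1
  rw [hBe, hvp] at hs2
  have hV : 1 / (C₁ * (z : ℝ) ^ n) ≤ vpR g z := v3 z hz
  have hV0 : 0 < vpR g z := lt_of_lt_of_le (by positivity) hV
  -- the error term
  have hNR : 3 * ((N : ℝ) * R) ≤ ε / 2 * (M * vpR g z) := by
    have e1 : (N : ℝ) = 2 * q ^ (A * z) := by rw [hN]; push_cast; rfl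
    have e2 : (N : ℝ) * R = 2 * (q ^ (A * z) * q ^ (A * z)) * (C₀ * m * q ^ ((1 - c') * m)) := by
      rw [e1, hR, hE]; ring
    have e3 : q ^ (A * z) * q ^ (A * z) ≤ q ^ (c' / 2 * m) := by
      rw [← Real.rpow_natCast q (A * z), ← Real.rpow_add hq0]
      exact Real.rpow_le_rpow_of_exponent_le hq1.le (by linarith)
    have e4 : q ^ (c' / 2 * m) * q ^ ((1 - c') * m) = q ^ m / x ^ m := by
      rw [hx, ← Real.rpow_natCast q m, ← Real.rpow_natCast (q ^ (c' / 2)) m, ← Real.rpow_mul hq0.le,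
        ← Real.rpow_add hq0, ← Real.rpow_sub hq0]
      congr 1
      ring
    have e5 : (N : ℝ) * R ≤ 2 * C₀ * m * (q ^ m / x ^ m) := by
      rw [e2, ← e4]
      have := mul_le_mul_of_nonneg_right e3
        (by positivity : 0 ≤ 2 * (C₀ * m * q ^ ((1 - c') * m)))
      calc 2 * (q ^ (A * z) * q ^ (A * z)) * (C₀ * m * q ^ ((1 - c') * m)) =
          (q ^ (A * z) * q ^ (A * z)) * (2 * (C₀ * m * q ^ ((1 - c') * m))) := by ring
        _ ≤ q ^ (c' / 2 * m) * (2 * (C₀ * m * q ^ ((1 - c') * m))) := this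
        _ = _ := by ring
    have hxm : 0 < x ^ m := by positivity
    have e6 := hm₁ m hmm
    -- lower bound for the density
    have e7 : 1 / (C₁ * (m : ℝ) ^ n) ≤ vpR g z := by
      refine le_trans ?_ hV
      apply one_div_le_one_div_of_le (by positivity)
      exact mul_le_mul_of_nonneg_left (pow_le_pow_left₀ (by linarith) hzm' n) hC₁.le
    have e8 : 3 * (2 * C₀ * m * (q ^ m / x ^ m)) ≤ ε / 2 * (M * (1 / (C₁ * (m : ℝ) ^ n))) := by
      rw [hM]
      have e9 : ε / 2 * (q ^ m / m * (1 / (C₁ * (m : ℝ) ^ n))) = (q ^ m / x ^ m) *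
          (ε / 2 * x ^ m / (C₁ * (m : ℝ) ^ (n + 1))) := by
        rw [pow_succ]
        field_simp
      rw [e9]
      have e10 : 3 * (2 * C₀ * m * (q ^ m / x ^ m)) = (q ^ m / x ^ m) * (6 * C₀ * m) := by ring
      rw [e10]
      apply mul_le_mul_of_nonneg_left _ (by positivity)
      rw [le_div_iff₀ (by positivity)]
      have e11 : ε / (12 * C₀ * C₁) * x ^ m * (12 * C₀ * C₁) = ε * x ^ m := by
        field_simp
      have e12 : (m : ℝ) ^ (n + 2) * (12 * C₀ * C₁) ≤ ε * x ^ m := by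
        rw [← e11]
        exact mul_le_mul_of_nonneg_right e6 (by positivity)
      have e13 : 6 * C₀ * m * (C₁ * (m : ℝ) ^ (n + 1)) = (m : ℝ) ^ (n + 2) * (12 * C₀ * C₁) / 2 := by
        ring
      rw [e13]
      linarith
    have e14 : ε / 2 * (M * (1 / (C₁ * (m : ℝ) ^ n))) ≤ ε / 2 * (M * vpR g z) :=
      mul_le_mul_of_nonneg_left (mul_le_mul_of_nonneg_left e7 hM0.le) (by positivity)
    linarith
  have hNR0 : 0 ≤ (N : ℝ) * R := mul_nonneg (Nat.cast_nonneg _) hR0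
  have hMv : vpR g z * q ^ m / m = M * vpR g z := by rw [hM]; ring
  rw [hMv]
  constructor
  · linarith
  · intro T hT
    have h1 := hs2 (fun P => ∏ i ∈ T, (mob (P ^ 2 + X * g i ^ 2) : ℝ)) ?_ ?_
    · linarith
    · intro P
      rw [Finset.abs_prod]
      exact Finset.prod_le_one (fun i _ => abs_nonneg _) (fun i _ => mob_abs _)
    · intro T' hT'1 hT'2
      rw [hTB T' hT'1]
      refine (one_T g (fun π hπ => hPU π (hT'1 hπ)) hT'2 hAzm hE0).2 _ ?_
      intro D r hD hDd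
      refine (hb T hT m D r hD ?_).trans (hEt T)
      have h2 : (D.natDegree : ℝ) ≤ ((A * z : ℕ) : ℝ) := by exact_mod_cast hDd
      refine h2.trans (hAz.trans ?_)
      apply mul_le_mul_of_nonneg_right _ hm0.le
      have := hc'T T
      linarith

end Pool.Agent.H526.PQ.SiftedAsm
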