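import Pool.Agent.H526.PQ.Stm
import Pool.Agent.H985.Chow.RT
import Pool.Agent.H985.KP.Loc2

/-!
# Task TIIASM: two multipliers (helper384)
-/

set_option autoImplicit false

namespace Pool.Agent.H526.PQ.TiiAsm

open Polynomial
open scoped Classical
open Pool.Agent.H985.Chow (mob lc)
open Pool.Agent.H985.Chow.RT (lc_add)
open Pool.Agent.H985.KP (sg)
open Pool.Agent.H985.KP.Loc2 (sg_add sg_pm sg_abs sg_mul_self)
open Pool.Agent.H694.Typ (Mn mem_Mn)
open Pool.Agent.H604.LD (fa phg S_parinfg)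

variable {K : Type} [Field K] [CharP K 2]

theorem two_zero : (2 : K[X]) = 0 := by
  have h : (2 : K) = 0 := CharTwo.two_eq_zero
  have h1 : (C (2 : K) : K[X]) = 2 := map_ofNat C 2
  rw [← h1, h, C_0]

theorem ph2_add (A₁ A₂ : K[X]) (γ : K) (b z : K[X]) :
    ph2 (A₁ + A₂) γ b z = ph2 A₁ γ b z + ph2 A₂ γ b z := by
  have h2 := two_zero (K := K)
  unfold ph2
  rw [← mul_add, ← lc_add]
  have e : X * ((A₁ + A₂) ^ 2 * derivative z ^ 3) =
      X * (A₁ ^ 2 * derivative z ^ 3) + X * (A₂ ^ 2 * derivative z ^ 3) := by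
    linear_combination (X * derivative z ^ 3 * A₁ * A₂) * h2
  rw [e]

theorem main : S_tiiasm := by
  intro hpar hweyl hphm κ hκ
  obtain ⟨c, hc, d₀, hw⟩ := hweyl κ hκ
  refine ⟨c, hc, max d₀ 1, ?_⟩
  intro K _ _ _ γ b hγ hb d hd A₁ A₂ D r hA₁ hA₂ hne hk1 hk2 hcop hrb hD hbD hDd hr
  have hd0 : d₀ ≤ d := (le_max_left _ _).trans hd
  have hd1 : 1 ≤ d := (le_max_right _ _).trans hd
  have h2 := two_zero (K := K)
  have hP : A₁ + A₂ ≠ 0 := by
    intro h
    apply hne
    linear_combination h - A₂ * h2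
  have hPd : κ * (A₁ + A₂).natDegree ≤ d := by
    have h1 : (A₁ + A₂).natDegree ≤ max A₁.natDegree A₂.natDegree := natDegree_add_le _ _
    rcases le_max_iff.1 h1 with h | h
    · have : ((A₁ + A₂).natDegree : ℝ) ≤ A₁.natDegree := by exact_mod_cast h
      nlinarith
    · have : ((A₁ + A₂).natDegree : ℝ) ≤ A₂.natDegree := by exact_mod_cast h
      nlinarith
  have hDlt : D.natDegree < d := by
    have h1 : (1 : ℝ) ≤ d := by exact_mod_cast hd1
    have h3 : (D.natDegree : ℝ) < d := by nlinarith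
    exact_mod_cast h3
  have h5b : 5 * b.natDegree < d := by
    have h1 := natDegree_le_of_dvd hbD hD.ne_zero
    rw [natDegree_pow] at h1
    omega
  obtain ⟨hc1, hc2⟩ := IsCoprime.mul_left_iff.1 hcop
  obtain ⟨η₁, hη₁, hm1⟩ := hpar K γ b (A₁ * r) (d + A₁.natDegree) hγ hb
    (IsCoprime.mul_left hc1 hrb) (by omega)
  obtain ⟨η₂, hη₂, hm2⟩ := hpar K γ b (A₂ * r) (d + A₂.natDegree) hγ hb
    (IsCoprime.mul_left hc2 hrb) (by omega)
  obtain ⟨χ₁, hχ₁, hχ₁m, hχ₁e⟩ := hphm K γ A₁ b D hγ hA₁ hb hbD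
  obtain ⟨χ₂, hχ₂, hχ₂m, hχ₂e⟩ := hphm K γ A₂ b D hγ hA₂ hb hbD
  set ψ : K[X] → ℝ := fun z => sg (phg γ b (A₁ * z)) * sg (phg γ b (A₂ * z)) *
    sg (ph2 (A₁ + A₂) γ b z) with hψ
  have hmain := hw K γ b hγ hb d hd0 (A₁ + A₂) D r (fun v => χ₁ v * χ₂ v) ψ hP hPd hD hbD hDd hr
    ?_ ?_ ?_ ?_
  · have hsum : ∑ c ∈ Mn K (d - D.natDegree), (mob (fa γ b (A₁ * (r + D * c))) : ℝ) *
          (mob (fa γ b (A₂ * (r + D * c))) : ℝ) =
        η₁ * η₂ * ∑ c ∈ Mn K (d - D.natDegree), ψ (r + D * c) *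
          sg (ph2 (A₁ + A₂) γ b (r + D * c)) := by
      rw [Finset.mul_sum]
      refine Finset.sum_congr rfl fun e he => ?_
      rw [mem_Mn] at he
      obtain ⟨he1, he2⟩ := he
      have hDe : (D * e).Monic := hD.mul he1
      have hDe2 : (D * e).natDegree = d := by
        rw [hD.natDegree_mul he1, he2]
        omega
      have hlt : r.degree < (D * e).degree := by
        rw [degree_eq_natDegree hDe.ne_zero, hDe2]
        exact hr
      have hzm : (r + D * e).Monic := hDe.add_of_right hlt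
      have hzd : (r + D * e).natDegree = d := by
        rw [natDegree_add_eq_right_of_degree_lt hlt, hDe2]
      have q1 := hm1 (A₁ * (r + D * e)) (hA₁.mul hzm)
        (by rw [hA₁.natDegree_mul hzm, hzd, add_comm])
        (by
          have : A₁ * (r + D * e) - A₁ * r = D * (A₁ * e) := by ring
          rw [this]
          exact Dvd.dvd.mul_right hbD _)
      have q2 := hm2 (A₂ * (r + D * e)) (hA₂.mul hzm)
        (by rw [hA₂.natDegree_mul hzm, hzd, add_comm])
        (by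
          have : A₂ * (r + D * e) - A₂ * r = D * (A₂ * e) := by ring
          rw [this]
          exact Dvd.dvd.mul_right hbD _)
      rw [q1, q2, hψ]
      have q3 := sg_mul_self (ph2 (A₁ + A₂) γ b (r + D * e))
      simp only
      linear_combination (-(η₁ * η₂ * sg (phg γ b (A₁ * (r + D * e))) *
        sg (phg γ b (A₂ * (r + D * e))))) * q3
    rw [hsum, abs_mul]
    have hη : |η₁ * η₂| = 1 := by
      rcases hη₁ with h | h <;> rcases hη₂ with h' | h' <;> rw [h, h'] <;> norm_num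
    rw [hη, one_mul]
    exact hmain
  · intro v
    rcases hχ₁ v with h | h <;> rcases hχ₂ v with h' | h' <;> rw [h, h'] <;> norm_num
  · intro v w
    rw [hχ₁m, hχ₂m]
    ring
  · intro z
    rw [hψ]
    simp only
    rw [abs_mul, abs_mul, sg_abs, sg_abs, sg_abs]
    norm_num
  · intro z v hz hzd _ hv
    have hlt : (D * v ^ 2).natDegree < z.natDegree := by
      rw [hzd]
      refine lt_of_le_of_lt (natDegree_mul_le.trans (add_le_add le_rfl natDegree_pow_le)) hv
    have hY : (z + D * v ^ 2).Monic := by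
      refine hz.add_of_left ?_
      rcases eq_or_ne (D * v ^ 2) 0 with h0 | h0
      · rw [h0, degree_zero]
        exact bot_lt_iff_ne_bot.2 (fun h => hz.ne_zero (degree_eq_bot.1 h))
      · rw [degree_eq_natDegree h0, degree_eq_natDegree hz.ne_zero]
        exact_mod_cast hlt
    have e1 := hχ₁e z v hz hY
    have e2 := hχ₂e z v hz hY
    rw [hψ]
    simp only
    rw [ph2_add, ph2_add, sg_add, sg_add]
    have s1 := sg_mul_self (phg γ b (A₁ * z))
    have s2 := sg_mul_self (phg γ b (A₂ * z))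
    have s3 := sg_mul_self (ph2 A₁ γ b z)
    have s4 := sg_mul_self (ph2 A₂ γ b z)
    have s5 := sg_mul_self (ph2 A₁ γ b (z + D * v ^ 2))
    have s6 := sg_mul_self (ph2 A₂ γ b (z + D * v ^ 2))
    set a1 := sg (phg γ b (A₁ * z))
    set a2 := sg (phg γ b (A₂ * z))
    set b1 := sg (phg γ b (A₁ * (z + D * v ^ 2)))
    set b2 := sg (phg γ b (A₂ * (z + D * v ^ 2)))
    set p1 := sg (ph2 A₁ γ b z)
    set p2 := sg (ph2 A₂ γ b z)
    set r1 := sg (ph2 A₁ γ b (z + D * v ^ 2))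
    set r2 := sg (ph2 A₂ γ b (z + D * v ^ 2))
    have f1 : b1 = χ₁ v * (r1 * p1) * a1 := by
      linear_combination a1 * e1 - b1 * s1
    have f2 : b2 = χ₂ v * (r2 * p2) * a2 := by
      linear_combination a2 * e2 - b2 * s2
    rw [f1, f2]
    linear_combination (χ₁ v * χ₂ v * a1 * a2 * p1 * p2 * (r2 * r2)) * s5 +
      (χ₁ v * χ₂ v * a1 * a2 * p1 * p2) * s6

end Pool.Agent.H526.PQ.TiiAsm
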