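import Pool.Agent.H526.PQ.StmK
import Pool.Agent.H526.PQ.TiiAsm

/-!
# Task TIIKASM: any number of multipliers and of polynomials (helper337)
-/

set_option autoImplicit false

namespace Pool.Agent.H526.PQ.TiikAsm

open Polynomial
open scoped Classical
open Pool.Agent.H985.Chow (mob lc)
open Pool.Agent.H985.Chow.RT (lc_add lc_mul lc_zero)
open Pool.Agent.H985.KP (sg)
open Pool.Agent.H985.KP.Loc2 (sg_add sg_pm sg_abs sg_mul_self sg_zero)
open Pool.Agent.H694.Typ (Mn mem_Mn)
open Pool.Agent.H604.LD (fa phg S_parinfg om bt)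

variable {K : Type} [Field K]

/-- the Möbius function vanishes if the class is not prime to `b` -/
theorem mob_zero {γ : K} {b a₀ a : K[X]} (hb : b.Monic) (hnc : ¬ IsCoprime a₀ b)
    (h : b ^ 5 ∣ a - a₀) : mob (fa γ b a) = 0 := by
  have h1 : ∃ z : K[X], Prime z ∧ z ∣ a₀ ∧ z ∣ b := by
    by_contra hcon
    push Not at hcon
    exact hnc (isCoprime_of_prime_dvd (fun h0 => hb.ne_zero h0.2) fun z hz hza => hcon z hz hza)
  obtain ⟨z, hz, hza, hzb⟩ := h1
  have h2 : z ∣ a := by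
    have h3 : z ∣ a - a₀ := (hzb.trans (dvd_pow_self b (by norm_num))).trans h
    have h4 := dvd_add h3 hza
    rwa [sub_add_cancel] at h4
  have h5 : ¬ Squarefree (fa γ b a) := by
    intro hsf
    have h6 : z * z ∣ fa γ b a := by
      unfold fa
      refine dvd_add ?_ ?_
      · rw [pow_two]; exact mul_dvd_mul h2 h2
      · refine Dvd.dvd.mul_left ?_ _
        rw [pow_two]
        exact mul_dvd_mul (Dvd.dvd.mul_left hzb _) (Dvd.dvd.mul_left hzb _)
    exact hz.not_isUnit (hsf z h6)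
  unfold mob
  rw [if_neg h5]

theorem lc_C_mul (D N : K[X]) (c : K) : lc D (C c * N) = c * lc D N := by
  unfold lc
  rw [← smul_eq_C_mul, smul_modByMonic, coeff_smul, smul_eq_mul]

theorem ph2_zero (γ : K) (b z : K[X]) : ph2 0 γ b z = 0 := by
  unfold ph2
  have e : X * ((0 : K[X]) ^ 2 * derivative z ^ 3) = 0 := by ring
  rw [e, lc_zero, mul_zero]

theorem ph2_sum [CharP K 2] {ι : Type} (s : Finset ι) (A : ι → K[X]) (γ : K) (b z : K[X]) :
    ph2 (∑ i ∈ s, A i) γ b z = ∑ i ∈ s, ph2 (A i) γ b z := by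
  induction s using Finset.induction_on with
  | empty => rw [Finset.sum_empty, Finset.sum_empty, ph2_zero]
  | insert i s hi ih =>
    rw [Finset.sum_insert hi, Finset.sum_insert hi, TiiAsm.ph2_add, ih]

theorem sg_sum [Finite K] [CharP K 2] {ι : Type} (s : Finset ι) (f : ι → K) :
    sg (∑ i ∈ s, f i) = ∏ i ∈ s, sg (f i) := by
  induction s using Finset.induction_on with
  | empty => rw [Finset.sum_empty, Finset.prod_empty, sg_zero]
  | insert i s hi ih => rw [Finset.sum_insert hi, Finset.prod_insert hi, sg_add, ih]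

/-- one term -/
theorem ph2_one {n : ℕ} (γ : Fin n → K) (b : Fin n → K[X]) (hγ : ∀ i, γ i ≠ 0)
    (hb : ∀ i, (b i).Monic) (i : Fin n) (A z : K[X]) (hz : z.Monic) :
    ph2 (A * bt γ b i) (∏ l, γ l) (∏ l, b l) z = ph2 A (γ i) (b i) z := by
  have hG : ∏ l, γ l = γ i * ∏ l ∈ Finset.univ.erase i, γ l :=
    (Finset.mul_prod_erase _ _ (Finset.mem_univ i)).symm
  have hB : ∏ l, b l = b i * ∏ l ∈ Finset.univ.erase i, b l :=
    (Finset.mul_prod_erase _ _ (Finset.mem_univ i)).symm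
  have hbt : bt γ b i = C (∏ l ∈ Finset.univ.erase i, γ l) * ∏ l ∈ Finset.univ.erase i, b l := by
    unfold bt
    rw [Finset.prod_mul_distrib, map_prod]
  have hGi : ∏ l ∈ Finset.univ.erase i, γ l ≠ 0 := Finset.prod_ne_zero_iff.2 fun l _ => hγ l
  have hBi : (∏ l ∈ Finset.univ.erase i, b l).Monic := monic_prod_of_monic _ _ fun l _ => hb l
  unfold ph2
  rw [hbt, hG, hB]
  set g := ∏ l ∈ Finset.univ.erase i, γ l
  set B := ∏ l ∈ Finset.univ.erase i, b l
  have e1 : X * ((A * (C g * B)) ^ 2 * derivative z ^ 3) =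
      (C (g ^ 2) * (X * (A ^ 2 * derivative z ^ 3))) * B ^ 2 := by
    rw [C_pow]
    ring
  have e2 : z * (b i * B) ^ 2 = (z * b i ^ 2) * B ^ 2 := by ring
  rw [e1, e2, lc_mul (hz.mul ((hb i).pow 2)) (hBi.pow 2), lc_C_mul]
  have h1 := hγ i
  field_simp

/-- the product of the phases is a phase -/
theorem key [Finite K] [CharP K 2] {n J : ℕ} (γ : Fin n → K) (b : Fin n → K[X])
    (hγ : ∀ i, γ i ≠ 0) (hb : ∀ i, (b i).Monic) (A : Fin J → K[X]) (z : K[X]) (hz : z.Monic) :
    sg (ph2 ((∑ j, A j) * om γ b) (∏ l, γ l) (∏ l, b l) z) =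
      ∏ j, ∏ i, sg (ph2 (A j) (γ i) (b i) z) := by
  have e : (∑ j, A j) * om γ b = ∑ j, ∑ i, A j * bt γ b i := by
    unfold om
    rw [Finset.sum_mul]
    exact Finset.sum_congr rfl fun j _ => Finset.mul_sum _ _ _
  rw [e, ph2_sum, sg_sum]
  refine Finset.prod_congr rfl fun j _ => ?_
  rw [ph2_sum, sg_sum]
  exact Finset.prod_congr rfl fun i _ => by rw [ph2_one γ b hγ hb i (A j) z hz]

theorem om_deg {n : ℕ} (γ : Fin n → K) (b : Fin n → K[X]) (hb : ∀ i, (b i).Monic) :
    (om γ b).natDegree ≤ (∏ i, b i).natDegree := by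
  unfold om
  refine natDegree_sum_le_of_forall_le _ _ fun i _ => ?_
  unfold bt
  refine (natDegree_prod_le _ _).trans ?_
  rw [natDegree_prod_of_monic _ _ fun l _ => hb l]
  refine (Finset.sum_le_sum fun l _ => natDegree_C_mul_le _ _).trans ?_
  exact Finset.sum_le_sum_of_subset (Finset.erase_subset _ _)

theorem main : S_tiikasm := by
  intro hpar hweyl hphm κ hκ
  obtain ⟨κ', hκ'⟩ : ∃ κ' : ℝ, κ' = min (κ / 2) (1 / 2) := ⟨_, rfl⟩
  have hκ0 : 0 < κ' := by
    rw [hκ']
    exact lt_min (by linarith) (by norm_num)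
  have hκ1 : κ' ≤ κ / 2 := by
    rw [hκ']
    exact min_le_left _ _
  have hκ2 : κ' ≤ 1 / 2 := by
    rw [hκ']
    exact min_le_right _ _
  obtain ⟨c, hc, d₀, hw⟩ := hweyl κ' hκ0
  refine ⟨c, hc, max d₀ 1, ?_⟩
  intro K _ _ _ n γ b hγ hb hom d hd J A D r hA hAs hk hD hbD hDd hr
  have hd0 : d₀ ≤ d := (le_max_left _ _).trans hd
  have hd1 : 1 ≤ d := (le_max_right _ _).trans hd
  have hd1' : (1 : ℝ) ≤ d := by exact_mod_cast hd1
  have hP : (∑ j, A j) * om γ b ≠ 0 := mul_ne_zero hAs hom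
  have hDlt : D.natDegree < d := by
    have h3 : (D.natDegree : ℝ) < d := by nlinarith
    exact_mod_cast h3
  have hBm : (∏ i, b i).Monic := monic_prod_of_monic _ _ fun l _ => hb l
  have h5B : 5 * (∏ i, b i).natDegree < d := by
    have h1 := natDegree_le_of_dvd hbD hD.ne_zero
    rw [natDegree_pow] at h1
    omega
  have hbB : ∀ i, b i ∣ ∏ i, b i := fun i => Finset.dvd_prod_of_mem b (Finset.mem_univ i)
  have hbiD : ∀ i, b i ^ 5 ∣ D := fun i => (pow_dvd_pow_of_dvd (hbB i) 5).trans hbD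
  have h5b : ∀ i, 5 * (b i).natDegree < d := fun i => by
    have h1 := natDegree_le_of_dvd (hbB i) hBm.ne_zero
    omega
  have hPd : κ' * ((∑ j, A j) * om γ b).natDegree ≤ d := by
    have h1 : ((∑ j, A j) * om γ b).natDegree = (∑ j, A j).natDegree + (om γ b).natDegree :=
      natDegree_mul hAs hom
    have h2 : ((∑ j, A j).natDegree : ℝ) ≤ d / κ := by
      have h3 : (∑ j, A j).natDegree ≤ ⌊(d : ℝ) / κ⌋₊ := by
        refine natDegree_sum_le_of_forall_le _ _ fun j _ => ?_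
        apply Nat.le_floor
        rw [le_div_iff₀ hκ, mul_comm]
        exact hk j
      have h4 : ((∑ j, A j).natDegree : ℝ) ≤ (⌊(d : ℝ) / κ⌋₊ : ℝ) := by exact_mod_cast h3
      exact h4.trans (Nat.floor_le (by positivity))
    have h3 : ((om γ b).natDegree : ℝ) ≤ d := by
      have h4 := om_deg γ b hb
      have h5 : (om γ b).natDegree ≤ d := by omega
      exact_mod_cast h5
    rw [h1]
    push_cast
    rw [le_div_iff₀ hκ] at h2
    have h6 : (0 : ℝ) ≤ (∑ j, A j).natDegree := Nat.cast_nonneg _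
    have h7 : (0 : ℝ) ≤ (om γ b).natDegree := Nat.cast_nonneg _
    nlinarith
  have hz : ∀ e ∈ Mn K (d - D.natDegree), (r + D * e).Monic ∧ (r + D * e).natDegree = d := by
    intro e he
    rw [mem_Mn] at he
    obtain ⟨he1, he2⟩ := he
    have hDe : (D * e).Monic := hD.mul he1
    have hDe2 : (D * e).natDegree = d := by
      rw [hD.natDegree_mul he1, he2]
      omega
    have hlt : r.degree < (D * e).degree := by
      rw [degree_eq_natDegree hDe.ne_zero, hDe2]
      exact hr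
    exact ⟨hDe.add_of_right hlt, by rw [natDegree_add_eq_right_of_degree_lt hlt, hDe2]⟩
  have hdvd : ∀ i j (e : K[X]), b i ^ 5 ∣ A j * (r + D * e) - A j * r := by
    intro i j e
    have : A j * (r + D * e) - A j * r = D * (A j * e) := by ring
    rw [this]
    exact Dvd.dvd.mul_right (hbiD i) _
  by_cases hcop : ∀ i j, IsCoprime (A j * r) (b i)
  swap
  · push Not at hcop
    obtain ⟨i, j, hij⟩ := hcop
    rw [Finset.sum_eq_zero, abs_zero]
    · positivity
    · intro e _
      refine Finset.prod_eq_zero (Finset.mem_univ j) ?_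
      unfold mbt
      refine Finset.prod_eq_zero (Finset.mem_univ i) ?_
      rw [mob_zero (hb i) hij (hdvd i j e)]
      norm_num
  have h1 : ∀ i j, ∃ η : ℝ, (η = 1 ∨ η = -1) ∧ ∀ a : K[X], a.Monic →
      a.natDegree = d + (A j).natDegree → b i ^ 5 ∣ a - A j * r →
      (mob (fa (γ i) (b i) a) : ℝ) = η * sg (phg (γ i) (b i) a) := fun i j =>
    hpar K (γ i) (b i) (A j * r) (d + (A j).natDegree) (hγ i) (hb i) (hcop i j)
      (by have := h5b i; omega)
  choose η hη hm using h1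
  have h2 : ∀ i j, ∃ χ : K[X] → ℝ, (∀ v, χ v = 1 ∨ χ v = -1) ∧
      (∀ v w, χ (v + w) = χ v * χ w) ∧ ∀ z v : K[X], z.Monic → (z + D * v ^ 2).Monic →
        sg (phg (γ i) (b i) (A j * (z + D * v ^ 2))) * sg (phg (γ i) (b i) (A j * z)) =
          χ v * (sg (ph2 (A j) (γ i) (b i) (z + D * v ^ 2)) * sg (ph2 (A j) (γ i) (b i) z)) :=
    fun i j => hphm K (γ i) (A j) (b i) D (hγ i) (hA j) (hb i) (hbiD i)
  choose χ hχ hχm hχe using h2
  obtain ⟨P, hPdef⟩ : ∃ P : K[X], P = (∑ j, A j) * om γ b := ⟨_, rfl⟩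
  obtain ⟨G, hGdef⟩ : ∃ G : K, G = ∏ l, γ l := ⟨_, rfl⟩
  obtain ⟨B, hBdef⟩ : ∃ B : K[X], B = ∏ l, b l := ⟨_, rfl⟩
  have hkey : ∀ z : K[X], z.Monic → sg (ph2 P G B z) =
      ∏ j, ∏ i, sg (ph2 (A j) (γ i) (b i) z) := by
    intro z hz
    rw [hPdef, hGdef, hBdef]
    exact key γ b hγ hb A z hz
  have hpm : ∀ (f : Fin J → Fin n → ℝ), (∀ j i, f j i = 1 ∨ f j i = -1) →
      ∏ j, ∏ i, f j i = 1 ∨ ∏ j, ∏ i, f j i = -1 := by
    intro f hf
    have h3 : |∏ j, ∏ i, f j i| = 1 := by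
      rw [Finset.abs_prod]
      refine Finset.prod_eq_one fun j _ => ?_
      rw [Finset.abs_prod]
      refine Finset.prod_eq_one fun i _ => ?_
      rcases hf j i with h | h <;> rw [h] <;> norm_num
    rcases abs_choice (∏ j, ∏ i, f j i) with h | h
    · left; rw [← h, h3]
    · right; linarith [h, h3]
  obtain ⟨Q, hQ⟩ : ∃ Q : K[X] → ℝ, Q = fun z => ∏ j, ∏ i, sg (phg (γ i) (b i) (A j * z)) :=
    ⟨_, rfl⟩
  have hQpm : ∀ z, Q z = 1 ∨ Q z = -1 := by
    intro z
    rw [hQ]
    exact hpm _ fun j i => sg_pm _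
  have hQsq : ∀ z, Q z * Q z = 1 := by
    intro z
    rcases hQpm z with h | h <;> rw [h] <;> norm_num
  have hmain := hw K G B (by rw [hGdef]; exact Finset.prod_ne_zero_iff.2 fun l _ => hγ l)
    (by rw [hBdef]; exact hBm) d hd0 P D r (fun v => ∏ j, ∏ i, χ i j v)
    (fun z => Q z * sg (ph2 P G B z)) (by rw [hPdef]; exact hP) (by rw [hPdef]; exact hPd) hD
    (by rw [hBdef]; exact hbD) (by nlinarith) hr ?_ ?_ ?_ ?_
  · have hsum : ∑ c ∈ Mn K (d - D.natDegree), ∏ j, mbt γ b (A j * (r + D * c)) =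
        (∏ j, ∏ i, η i j) * ∑ c ∈ Mn K (d - D.natDegree), (Q (r + D * c) *
          sg (ph2 P G B (r + D * c))) * sg (ph2 P G B (r + D * c)) := by
      rw [Finset.mul_sum]
      refine Finset.sum_congr rfl fun e he => ?_
      obtain ⟨hzm, hzd⟩ := hz e he
      rw [mul_assoc (Q _), sg_mul_self, mul_one, hQ]
      simp only
      rw [← Finset.prod_mul_distrib]
      refine Finset.prod_congr rfl fun j _ => ?_
      unfold mbt
      rw [← Finset.prod_mul_distrib]
      refine Finset.prod_congr rfl fun i _ => ?_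
      exact hm i j (A j * (r + D * e)) ((hA j).mul hzm)
        (by rw [(hA j).natDegree_mul hzm, hzd, add_comm]) (hdvd i j e)
    rw [hsum, abs_mul]
    have hη' : |∏ j, ∏ i, η i j| = 1 := by
      rcases hpm (fun j i => η i j) (fun j i => hη i j) with h | h <;> rw [h] <;> norm_num
    rw [hη', one_mul]
    exact hmain
  · intro v
    exact hpm _ fun j i => hχ i j v
  · intro v w
    rw [← Finset.prod_mul_distrib]
    refine Finset.prod_congr rfl fun j _ => ?_
    rw [← Finset.prod_mul_distrib]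
    exact Finset.prod_congr rfl fun i _ => hχm i j v w
  · intro z
    rw [abs_mul, sg_abs, mul_one]
    rcases hQpm z with h | h <;> rw [h] <;> norm_num
  · intro z v hzm hzd _ hv
    have hlt : (D * v ^ 2).natDegree < z.natDegree := by
      rw [hzd]
      refine lt_of_le_of_lt (natDegree_mul_le.trans (add_le_add le_rfl natDegree_pow_le)) hv
    have hY : (z + D * v ^ 2).Monic := by
      refine hzm.add_of_left ?_
      rcases eq_or_ne (D * v ^ 2) 0 with h0 | h0
      · rw [h0, degree_zero]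
        exact bot_lt_iff_ne_bot.2 (fun h => hzm.ne_zero (degree_eq_bot.1 h))
      · rw [degree_eq_natDegree h0, degree_eq_natDegree hzm.ne_zero]
        exact_mod_cast hlt
    have hprod : Q (z + D * v ^ 2) * Q z = (∏ j, ∏ i, χ i j v) *
        (sg (ph2 P G B (z + D * v ^ 2)) * sg (ph2 P G B z)) := by
      rw [hkey _ hY, hkey z hzm, hQ]
      simp only
      rw [← Finset.prod_mul_distrib, ← Finset.prod_mul_distrib, ← Finset.prod_mul_distrib]
      refine Finset.prod_congr rfl fun j _ => ?_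
      rw [← Finset.prod_mul_distrib, ← Finset.prod_mul_distrib, ← Finset.prod_mul_distrib]
      exact Finset.prod_congr rfl fun i _ => hχe i j z v hzm hY
    have s1 := hQsq z
    have s2 := sg_mul_self (ph2 P G B (z + D * v ^ 2))
    set q1 := Q (z + D * v ^ 2)
    set q0 := Q z
    set g1 := sg (ph2 P G B (z + D * v ^ 2))
    set g0 := sg (ph2 P G B z)
    set X0 := ∏ j, ∏ i, χ i j v
    have f1 : q1 = X0 * (g1 * g0) * q0 := by
      linear_combination q0 * hprod - q1 * s1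
    rw [f1]
    linear_combination (X0 * g0 * q0) * s2

end Pool.Agent.H526.PQ.TiikAsm
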