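import Mathlib
import Pool.Agent.H526.PQ.Stm
import Pool.Agent.H604.LD.Hid

/-!
# Primes from Type I sums and Type II sums over a finite field (task VAU)
-/

set_option autoImplicit false
set_option linter.unusedSectionVars false

namespace Pool.Agent.H526.PQ.Vau

open Polynomial Finset
open scoped Classical
open Pool.Agent.H985.Chow (mob)
open Pool.Agent.H694.Typ (Mn Irn mem_Mn mem_Irn card_Mn)
open Pool.Agent.H604.LD.Hid (Dv mem_Dv sum_split cop_of mob_of_not mob_mul_cop mob_irr mob_one mob_eq)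

/-- The von Mangoldt function. -/
noncomputable def vm {K : Type} [Field K] (f : K[X]) : ℕ :=
  if h : ∃ P : K[X], P.Monic ∧ Irreducible P ∧ ∃ k : ℕ, 1 ≤ k ∧ f = P ^ k then
    h.choose.natDegree else 0

section
variable {K : Type} [Field K]

theorem vm_pow' {p : K[X]} (hm : p.Monic) (hp : Irreducible p) {k : ℕ} (hk : 1 ≤ k) :
    vm (p ^ k) = p.natDegree := by
  have h : ∃ P : K[X], P.Monic ∧ Irreducible P ∧ ∃ l : ℕ, 1 ≤ l ∧ p ^ k = P ^ l :=
    ⟨p, hm, hp, k, hk, rfl⟩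
  unfold vm
  rw [dif_pos h]
  obtain ⟨h1, h2, l, hl, hpl⟩ := h.choose_spec
  have h3 : p ∣ h.choose ^ l := by
    rw [← hpl]
    exact dvd_pow_self p (by omega)
  have h4 : p ∣ h.choose := hp.prime.dvd_of_dvd_pow h3
  have h5 : Associated p h.choose := hp.associated_of_dvd h2 h4
  exact (congrArg natDegree (eq_of_monic_of_associated hm h1 h5)).symm

theorem vm_irr {p : K[X]} (hm : p.Monic) (hp : Irreducible p) : vm p = p.natDegree := by
  have h := vm_pow' hm hp (le_refl 1)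
  rwa [pow_one] at h

theorem vm_zero {f : K[X]} (h : ¬ ∃ P : K[X], P.Monic ∧ Irreducible P ∧
    ∃ k : ℕ, 1 ≤ k ∧ f = P ^ k) : vm f = 0 := by
  unfold vm
  rw [dif_neg h]

theorem vm_le (f : K[X]) : vm f ≤ f.natDegree := by
  unfold vm
  split_ifs with h
  · obtain ⟨h1, h2, k, hk, hpk⟩ := h.choose_spec
    conv_rhs => rw [hpk]
    rw [natDegree_pow]
    exact Nat.le_mul_of_pos_left _ hk
  · exact Nat.zero_le _

/-- A non-irreducible `f` with `vm f ≠ 0` is a power of a polynomial of degree at most `n / 2`. -/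
theorem vm_pow {f : K[X]} (hf : ¬ Irreducible f) (h0 : vm f ≠ 0) :
    ∃ P : K[X], P.Monic ∧ 2 * P.natDegree ≤ f.natDegree ∧ 1 ≤ P.natDegree ∧
      f = P ^ (f.natDegree / P.natDegree) := by
  unfold vm at h0
  split_ifs at h0 with h
  · obtain ⟨P, hP1, hP2, k, hk, hpk⟩ := h
    have hd : 1 ≤ P.natDegree := hP2.natDegree_pos
    have hk2 : 2 ≤ k := by
      by_contra hlt
      have : k = 1 := by omega
      rw [this, pow_one] at hpk
      exact hf (hpk ▸ hP2)
    have hdeg : f.natDegree = k * P.natDegree := by rw [hpk, natDegree_pow]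
    refine ⟨P, hP1, ?_, hd, ?_⟩
    · rw [hdeg]; exact Nat.mul_le_mul_right _ hk2
    · rw [hdeg, Nat.mul_div_cancel _ (by omega)]
      exact hpk
  · exact absurd rfl h0

theorem abs_mob (f : K[X]) : |(mob f : ℝ)| ≤ 1 := by
  rw [mob_eq]
  split_ifs
  · push_cast
    rw [abs_pow, abs_neg, abs_one, one_pow]
  · simp

variable [Fintype K]

theorem sum_pow (n : ℕ) :
    ∑ f ∈ (Mn K n).filter (fun f => ¬ Irreducible f), (vm f : ℝ) ≤
      n * (Fintype.card K : ℝ) ^ (n / 2 + 1) := by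
  have hq : 2 ≤ Fintype.card K := Fintype.one_lt_card
  set S : Finset K[X] := ((Mn K n).filter (fun f => ¬ Irreducible f)).filter (fun f => vm f ≠ 0)
    with hS
  have h1 : ∑ f ∈ (Mn K n).filter (fun f => ¬ Irreducible f), (vm f : ℝ) =
      ∑ f ∈ S, (vm f : ℝ) := by
    rw [hS]
    refine (Finset.sum_filter_of_ne (p := fun f => vm f ≠ 0) ?_).symm
    intro f _ hne h0
    apply hne
    rw [h0, Nat.cast_zero]
  rw [h1]
  have h2 : ∀ f ∈ S, (vm f : ℝ) ≤ n := by
    intro f hf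
    rw [hS, mem_filter, mem_filter, mem_Mn] at hf
    have := vm_le f
    rw [hf.1.1.2] at this
    exact_mod_cast this
  refine (Finset.sum_le_card_nsmul S _ _ h2).trans ?_
  rw [nsmul_eq_mul, mul_comm]
  refine mul_le_mul_of_nonneg_left ?_ (Nat.cast_nonneg _)
  have h3 : S ⊆ ((range (n / 2 + 1)).biUnion (fun j => Mn K j)).image
      (fun P => P ^ (n / P.natDegree)) := by
    intro f hf
    rw [hS, mem_filter, mem_filter, mem_Mn] at hf
    obtain ⟨P, hP1, hP2, hP3, hP4⟩ := vm_pow hf.1.2 hf.2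
    rw [hf.1.1.2] at hP2 hP4
    rw [mem_image]
    refine ⟨P, ?_, hP4.symm⟩
    rw [mem_biUnion]
    exact ⟨P.natDegree, mem_range.2 (by omega), mem_Mn.2 ⟨hP1, rfl⟩⟩
  have h4 : S.card ≤ ∑ j ∈ range (n / 2 + 1), Fintype.card K ^ j := by
    refine (card_le_card h3).trans (card_image_le.trans (card_biUnion_le.trans ?_))
    exact Finset.sum_le_sum fun j _ => (card_Mn j).le
  have h5 : ∑ j ∈ range (n / 2 + 1), Fintype.card K ^ j < Fintype.card K ^ (n / 2 + 1) :=
    Nat.geomSum_lt hq fun j hj => mem_range.1 hj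
  exact_mod_cast (h4.trans h5.le)

theorem Dv_one : Dv (1 : K[X]) = {1} := by
  ext D
  rw [mem_Dv one_ne_zero, Finset.mem_singleton]
  constructor
  · rintro ⟨h1, h2⟩
    exact (h1.isUnit_iff).1 (isUnit_of_dvd_one h2)
  · rintro rfl
    exact ⟨monic_one, dvd_rfl⟩

/-- a monic polynomial of positive degree is `P ^ (e + 1) * g`, `g` prime to `P` -/
theorem split_pow {f : K[X]} (hf : f.Monic) (hd : 0 < f.natDegree) :
    ∃ (P g : K[X]) (e : ℕ), P.Monic ∧ Irreducible P ∧ g.Monic ∧ ¬ P ∣ g ∧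
      f = P ^ (e + 1) * g := by
  have hnu : ¬ IsUnit f := fun h => by
    rw [hf.isUnit_iff] at h
    rw [h, natDegree_one] at hd
    exact lt_irrefl 0 hd
  obtain ⟨P, hPi, hP, hPf⟩ := exists_monic_irreducible_factor f hnu
  have hfin : FiniteMultiplicity P f := FiniteMultiplicity.of_not_isUnit hP.not_isUnit hf.ne_zero
  obtain ⟨g, hg, hPg⟩ := hfin.exists_eq_pow_mul_and_not_dvd
  have hm1 : multiplicity P f ≠ 0 := by
    intro h0
    rw [h0, pow_zero, one_mul] at hg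
    exact hPg (hg ▸ hPf)
  obtain ⟨e, he⟩ := Nat.exists_eq_succ_of_ne_zero hm1
  rw [he] at hg
  refine ⟨P, g, e, hPi, hP, ?_, hPg, hg⟩
  exact (hPi.pow (e + 1)).of_mul_monic_left (by rw [← hg]; exact hf)

/-- the sum of the Moebius function over the divisors -/
theorem sum_mob {f : K[X]} (hf : f.Monic) (hd : 0 < f.natDegree) :
    ∑ D ∈ Dv f, (mob D : ℝ) = 0 := by
  obtain ⟨P, g, e, hPi, hP, hg, hPg, hfg⟩ := split_pow hf hd
  have hPg0 : P * g ≠ 0 := mul_ne_zero hPi.ne_zero hg.ne_zero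
  have hsub : Dv (P * g) ⊆ Dv f := by
    intro D hD
    rw [mem_Dv hPg0] at hD
    rw [mem_Dv hf.ne_zero]
    refine ⟨hD.1, hD.2.trans ?_⟩
    rw [hfg, pow_succ]
    exact mul_dvd_mul_right (dvd_mul_left P _) g
  rw [← Finset.sum_subset hsub]
  · rw [sum_split hPi hP hg hPg]
    refine Finset.sum_eq_zero fun D hD => ?_
    rw [mem_Dv hg.ne_zero] at hD
    rw [mob_mul_cop (cop_of hP hPg hD.2), mob_irr hP]
    push_cast
    ring
  · intro D hD hD'
    rw [mem_Dv hf.ne_zero] at hD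
    rw [mem_Dv hPg0] at hD'
    have hnot : ¬ D ∣ P * g := fun h => hD' ⟨hD.1, h⟩
    have hsq : ¬ Squarefree D := by
      intro hs
      apply hnot
      have hDf : D ∣ P ^ (e + 1) * g := hfg ▸ hD.2
      by_cases hPD : P ∣ D
      · obtain ⟨D', rfl⟩ := hPD
        have h1 : ¬ P ∣ D' := fun h => hP.not_isUnit (hs P (mul_dvd_mul_left P h))
        have h2 : D' ∣ P ^ e * g := by
          rw [pow_succ, mul_comm (P ^ e) P, mul_assoc] at hDf
          exact (mul_dvd_mul_iff_left hPi.ne_zero).1 hDf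
        have hcop : IsCoprime D' (P ^ e) := ((hP.coprime_iff_not_dvd).2 h1).symm.pow_right
        exact mul_dvd_mul_left P (hcop.dvd_of_dvd_mul_left h2)
      · have hcop : IsCoprime D (P ^ (e + 1)) := ((hP.coprime_iff_not_dvd).2 hPD).symm.pow_right
        exact (hcop.dvd_of_dvd_mul_left hDf).mul_left P
    rw [mob_of_not hsq, Int.cast_zero]

theorem sum_mob' {f : K[X]} (hf : f.Monic) :
    ∑ D ∈ Dv f, (mob D : ℝ) = if f.natDegree = 0 then 1 else 0 := by
  by_cases h : f.natDegree = 0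
  · rw [if_pos h, hf.natDegree_eq_zero.1 h, Dv_one, Finset.sum_singleton, mob_one, Int.cast_one]
  · rw [if_neg h]
    exact sum_mob hf (Nat.pos_of_ne_zero h)

/-- the sum of the von Mangoldt function over the divisors -/
theorem sum_vm : ∀ (n : ℕ) (f : K[X]), f.Monic → f.natDegree = n → ∑ D ∈ Dv f, vm D = n := by
  intro n
  induction n using Nat.strong_induction_on with
  | _ n ih =>
    intro f hf hn
    by_cases h0 : f.natDegree = 0
    · rw [hf.natDegree_eq_zero.1 h0, Dv_one, Finset.sum_singleton]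
      have h1 := vm_le (1 : K[X])
      rw [natDegree_one] at h1
      omega
    · obtain ⟨P, g, e, hPi, hP, hg, hPg, hfg⟩ := split_pow hf (Nat.pos_of_ne_zero h0)
      have hg' : (P ^ e * g).Monic := (hPi.pow e).mul hg
      have hPd : 1 ≤ P.natDegree := hP.natDegree_pos
      have hfg' : f = P * (P ^ e * g) := by rw [hfg, pow_succ]; ring
      have hdeg : f.natDegree = P.natDegree + (P ^ e * g).natDegree := by
        rw [hfg', hPi.natDegree_mul hg']
      have hrec := ih (P ^ e * g).natDegree (by omega) _ hg' rfl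
      have hsub : insert (P ^ (e + 1)) (Dv (P ^ e * g)) ⊆ Dv f := by
        intro D hD
        rw [mem_Dv hf.ne_zero]
        rw [Finset.mem_insert, mem_Dv hg'.ne_zero] at hD
        rcases hD with rfl | hD
        · exact ⟨hPi.pow _, by rw [hfg]; exact dvd_mul_right _ _⟩
        · exact ⟨hD.1, hD.2.trans (by rw [hfg']; exact dvd_mul_left _ _)⟩
      have hnot : P ^ (e + 1) ∉ Dv (P ^ e * g) := by
        rw [mem_Dv hg'.ne_zero]
        rintro ⟨-, h1⟩
        rw [pow_succ] at h1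
        exact hPg ((mul_dvd_mul_iff_left (pow_ne_zero e hPi.ne_zero)).1 h1)
      rw [← Finset.sum_subset hsub, Finset.sum_insert hnot, hrec, vm_pow' hPi hP (by omega),
        ← hdeg, hn]
      intro D hD hD'
      apply vm_zero
      rintro ⟨Q, hQm, hQ, k, hk, rfl⟩
      rw [mem_Dv hf.ne_zero] at hD
      rw [Finset.mem_insert, mem_Dv hg'.ne_zero] at hD'
      push Not at hD'
      have hQk : Q ^ k ∣ P ^ (e + 1) * g := hfg ▸ hD.2
      by_cases hQP : Q = P
      · subst hQP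
        have hcop : IsCoprime (Q ^ k) g := ((hQ.coprime_iff_not_dvd).2 hPg).pow_left
        have h2 : Q ^ k ∣ Q ^ (e + 1) := hcop.dvd_of_dvd_mul_right hQk
        have h3 : k ≤ e + 1 := (pow_dvd_pow_iff hQm.ne_zero hQ.not_isUnit).1 h2
        have h4 : k ≠ e + 1 := fun h => hD'.1 (by rw [h])
        exact hD'.2 (hQm.pow k) ((pow_dvd_pow Q (by omega : k ≤ e)).mul_right g)
      · have hndvd : ¬ Q ∣ P := fun h =>
          hQP (eq_of_monic_of_associated hQm hPi (hQ.associated_of_dvd hP h))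
        have hcop : IsCoprime (Q ^ k) P := ((hQ.coprime_iff_not_dvd).2 hndvd).pow_left
        rw [← hfg, hfg'] at hQk
        exact hD'.2 (hQm.pow k) (hcop.dvd_of_dvd_mul_left hQk)

/-- products and divisors, one degree -/
theorem pair (n j : ℕ) (hj : j ≤ n) (F : K[X] → K[X] → ℝ) :
    ∑ w ∈ Mn K j, ∑ B ∈ Mn K (n - j), F w (w * B) =
      ∑ f ∈ Mn K n, ∑ w ∈ (Mn K j).filter (fun w => w ∣ f), F w f := by
  have h1 : ∑ f ∈ Mn K n, ∑ w ∈ (Mn K j).filter (fun w => w ∣ f), F w f =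
      ∑ w ∈ Mn K j, ∑ f ∈ (Mn K n).filter (fun f => w ∣ f), F w f := by
    refine Finset.sum_comm' fun f w => ?_
    rw [Finset.mem_filter, Finset.mem_filter]
    tauto
  rw [h1]
  refine Finset.sum_congr rfl fun w hw => ?_
  rw [mem_Mn] at hw
  refine Finset.sum_bij (fun B _ => w * B) ?_ ?_ ?_ ?_
  · intro B hB
    rw [mem_Mn] at hB
    rw [Finset.mem_filter, mem_Mn, hw.1.natDegree_mul hB.1]
    exact ⟨⟨hw.1.mul hB.1, by omega⟩, dvd_mul_right _ _⟩
  · intro B _ B' _ h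
    exact mul_left_cancel₀ hw.1.ne_zero h
  · intro f hf
    rw [Finset.mem_filter, mem_Mn] at hf
    obtain ⟨⟨hf1, hf2⟩, B, hB⟩ := hf
    have hBm : B.Monic := hw.1.of_mul_monic_left (by rw [← hB]; exact hf1)
    refine ⟨B, ?_, hB.symm⟩
    rw [mem_Mn]
    refine ⟨hBm, ?_⟩
    rw [hB, hw.1.natDegree_mul hBm] at hf2
    omega
  · intro B _
    rfl

/-- products and divisors, all degrees -/
theorem dvsum (n : ℕ) (F : K[X] → K[X] → ℝ) :
    ∑ j ∈ range (n + 1), ∑ w ∈ Mn K j, ∑ B ∈ Mn K (n - j), F w (w * B) =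
      ∑ f ∈ Mn K n, ∑ w ∈ Dv f, F w f := by
  rw [Finset.sum_congr rfl fun j hj => pair n j (by rw [Finset.mem_range] at hj; omega) F,
    Finset.sum_comm]
  refine Finset.sum_congr rfl fun f hf => ?_
  rw [mem_Mn] at hf
  unfold Dv
  rw [Finset.sum_biUnion, hf.2]
  intro i _ j _ hij
  rw [Function.onFun, Finset.disjoint_left]
  intro D hD hD'
  rw [Finset.mem_filter, mem_Mn] at hD hD'
  exact hij (hD.1.2.symm.trans hD'.1.2)

theorem Mn_zero : Mn K 0 = {1} := by
  ext f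
  rw [mem_Mn, Finset.mem_singleton]
  constructor
  · rintro ⟨h1, h2⟩
    exact h1.natDegree_eq_zero.1 h2
  · rintro rfl
    exact ⟨monic_one, natDegree_one⟩

theorem pmu (n : ℕ) (G : K[X] → ℝ) :
    ∑ i ∈ range (n + 1), ∑ u ∈ Mn K i, ∑ B ∈ Mn K (n - i), (mob u : ℝ) * G (u * B) =
      if n = 0 then G 1 else 0 := by
  rw [dvsum n fun u f => (mob u : ℝ) * G f]
  have h1 : ∀ f ∈ Mn K n, ∑ w ∈ Dv f, (mob w : ℝ) * G f = if n = 0 then G f else 0 := by
    intro f hf
    rw [mem_Mn] at hf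
    rw [← Finset.sum_mul, sum_mob' hf.1, hf.2]
    split_ifs
    · rw [one_mul]
    · rw [zero_mul]
  rw [Finset.sum_congr rfl h1]
  by_cases h : n = 0
  · subst h
    rw [Mn_zero, Finset.sum_singleton]
  · rw [if_neg h]
    exact Finset.sum_eq_zero fun f _ => if_neg h

theorem pvm (n : ℕ) (G : K[X] → ℝ) :
    ∑ j ∈ range (n + 1), ∑ w ∈ Mn K j, ∑ B ∈ Mn K (n - j), (vm w : ℝ) * G (w * B) =
      (n : ℝ) * ∑ f ∈ Mn K n, G f := by
  rw [dvsum n fun w f => (vm w : ℝ) * G f, Finset.mul_sum]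
  refine Finset.sum_congr rfl fun f hf => ?_
  rw [mem_Mn] at hf
  rw [← Finset.sum_mul, ← Nat.cast_sum, sum_vm n f hf.1 hf.2]

theorem tri (m : ℕ) (b : ℕ → ℕ → ℝ) :
    ∑ j ∈ range (m + 1), ∑ i ∈ range (m - j + 1), b i j =
      ∑ i ∈ range (m + 1), ∑ j ∈ range (m - i + 1), b i j := by
  refine Finset.sum_comm' fun i j => ?_
  rw [Finset.mem_range, Finset.mem_range, Finset.mem_range, Finset.mem_range]
  omega

/-- the triple sums -/
noncomputable def aa (m : ℕ) (g : K[X] → ℝ) (i j : ℕ) : ℝ :=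
  ∑ u ∈ Mn K i, ∑ w ∈ Mn K j, ∑ B ∈ Mn K (m - i - j), (mob u : ℝ) * (vm w : ℝ) * g (u * w * B)

theorem col (m : ℕ) (g : K[X] → ℝ) (j : ℕ) (hj : j ≤ m) :
    ∑ i ∈ range (m - j + 1), aa m g i j =
      if j = m then ∑ w ∈ Mn K m, (vm w : ℝ) * g w else 0 := by
  have h1 : ∑ i ∈ range (m - j + 1), aa m g i j = ∑ w ∈ Mn K j, (vm w : ℝ) *
      ∑ i ∈ range (m - j + 1), ∑ u ∈ Mn K i, ∑ B ∈ Mn K (m - j - i),
        (mob u : ℝ) * g (w * (u * B)) := by
    unfold aa
    rw [Finset.sum_congr rfl fun i _ => Finset.sum_comm, Finset.sum_comm]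
    refine Finset.sum_congr rfl fun w _ => ?_
    rw [Finset.mul_sum]
    refine Finset.sum_congr rfl fun i _ => ?_
    rw [Finset.mul_sum]
    refine Finset.sum_congr rfl fun u _ => ?_
    rw [Finset.mul_sum, Nat.sub_right_comm]
    refine Finset.sum_congr rfl fun B _ => ?_
    rw [show u * w * B = w * (u * B) by ring]
    ring
  rw [h1, Finset.sum_congr rfl fun w _ => by rw [pmu (m - j) fun f => g (w * f)]]
  by_cases h : j = m
  · subst h
    rw [if_pos rfl]
    refine Finset.sum_congr rfl fun w _ => ?_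
    rw [if_pos (Nat.sub_self j), mul_one]
  · rw [if_neg h]
    refine Finset.sum_eq_zero fun w _ => ?_
    rw [if_neg (by omega), mul_zero]

theorem row (m : ℕ) (g : K[X] → ℝ) (i : ℕ) :
    ∑ j ∈ range (m - i + 1), aa m g i j =
      ∑ u ∈ Mn K i, (mob u : ℝ) * (((m - i : ℕ) : ℝ) * ∑ f ∈ Mn K (m - i), g (u * f)) := by
  unfold aa
  rw [Finset.sum_comm]
  refine Finset.sum_congr rfl fun u _ => ?_
  rw [← pvm (m - i) fun f => g (u * f), Finset.mul_sum]
  refine Finset.sum_congr rfl fun j _ => ?_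
  rw [Finset.mul_sum]
  refine Finset.sum_congr rfl fun w _ => ?_
  rw [Finset.mul_sum]
  refine Finset.sum_congr rfl fun B _ => ?_
  rw [mul_assoc u w B]
  ring

/-- the identity of Vaughan, summed -/
theorem vaughan (m V : ℕ) (hV : V < m) (g : K[X] → ℝ) :
    ∑ f ∈ Mn K m, (vm f : ℝ) * g f =
      ∑ i ∈ range (m + 1), (if i ≤ V then ∑ j ∈ range (m - i + 1), aa m g i j else 0) -
      ∑ i ∈ range (m + 1), ∑ j ∈ range (m - i + 1), (if i ≤ V ∧ j ≤ V then aa m g i j else 0) +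
      ∑ i ∈ range (m + 1), ∑ j ∈ range (m - i + 1),
        (if ¬ i ≤ V ∧ ¬ j ≤ V then aa m g i j else 0) := by
  have hS : ∑ j ∈ range (m + 1), ∑ i ∈ range (m - j + 1), aa m g i j =
      ∑ f ∈ Mn K m, (vm f : ℝ) * g f := by
    rw [Finset.sum_congr rfl fun j hj => col m g j (by rw [Finset.mem_range] at hj; omega),
      Finset.sum_ite_eq' (range (m + 1)) m, if_pos (by rw [Finset.mem_range]; omega)]
  have h2 : ∑ i ∈ range (m + 1), ∑ j ∈ range (m - i + 1), (if j ≤ V then aa m g i j else 0) =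
      0 := by
    rw [← tri m fun i j => if j ≤ V then aa m g i j else 0]
    refine Finset.sum_eq_zero fun j hj => ?_
    rw [Finset.mem_range] at hj
    by_cases h : j ≤ V
    · have h3 : ∑ i ∈ range (m - j + 1), (if j ≤ V then aa m g i j else 0) =
          ∑ i ∈ range (m - j + 1), aa m g i j :=
        Finset.sum_congr rfl fun i _ => if_pos h
      rw [h3, col m g j (by omega), if_neg (by omega)]
    · exact Finset.sum_eq_zero fun i _ => if_neg h
  have h4 : ∀ i, (if i ≤ V then ∑ j ∈ range (m - i + 1), aa m g i j else 0) =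
      ∑ j ∈ range (m - i + 1), (if i ≤ V then aa m g i j else 0) := by
    intro i
    split_ifs
    · rfl
    · exact Finset.sum_const_zero.symm
  rw [← hS, tri, Finset.sum_congr rfl fun i _ => h4 i]
  have h5 : ∀ i j, aa m g i j = (if i ≤ V then aa m g i j else 0) +
      ((if j ≤ V then aa m g i j else 0) - (if i ≤ V ∧ j ≤ V then aa m g i j else 0)) +
      (if ¬ i ≤ V ∧ ¬ j ≤ V then aa m g i j else 0) := by
    intro i j
    by_cases hi : i ≤ V <;> by_cases hj : j ≤ V <;> simp [hi, hj]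
  have h6 : ∑ i ∈ range (m + 1), ∑ j ∈ range (m - i + 1), aa m g i j =
      ∑ i ∈ range (m + 1), ∑ j ∈ range (m - i + 1), (if i ≤ V then aa m g i j else 0) +
      (∑ i ∈ range (m + 1), ∑ j ∈ range (m - i + 1), (if j ≤ V then aa m g i j else 0) -
        ∑ i ∈ range (m + 1), ∑ j ∈ range (m - i + 1),
          (if i ≤ V ∧ j ≤ V then aa m g i j else 0)) +
      ∑ i ∈ range (m + 1), ∑ j ∈ range (m - i + 1),
        (if ¬ i ≤ V ∧ ¬ j ≤ V then aa m g i j else 0) := by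
    rw [← Finset.sum_sub_distrib, ← Finset.sum_add_distrib, ← Finset.sum_add_distrib]
    refine Finset.sum_congr rfl fun i _ => ?_
    rw [← Finset.sum_sub_distrib, ← Finset.sum_add_distrib, ← Finset.sum_add_distrib]
    exact Finset.sum_congr rfl fun j _ => h5 i j
  rw [h6, h2]
  ring

theorem sum_const_Mn (i : ℕ) (c : ℝ) : ∑ _u ∈ Mn K i, c = (Fintype.card K : ℝ) ^ i * c := by
  rw [Finset.sum_const, card_Mn, nsmul_eq_mul, Nat.cast_pow]

/-- the rows -/
theorem row_le (m : ℕ) (g : K[X] → ℝ) (E₁ : ℝ) (hE : 0 ≤ E₁) (i : ℕ) (hi : 4 * i ≤ m)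
    (h1 : ∀ u : K[X], u.Monic → 4 * u.natDegree ≤ m →
      |∑ B ∈ Mn K (m - u.natDegree), g (u * B)| ≤ E₁ * (Fintype.card K : ℝ) ^ (m - u.natDegree)) :
    |∑ j ∈ range (m - i + 1), aa m g i j| ≤ m * E₁ * (Fintype.card K : ℝ) ^ m := by
  rw [row]
  refine (Finset.abs_sum_le_sum_abs _ _).trans ?_
  have h2 : ∀ u ∈ Mn K i,
      |(mob u : ℝ) * (((m - i : ℕ) : ℝ) * ∑ f ∈ Mn K (m - i), g (u * f))| ≤
        m * (E₁ * (Fintype.card K : ℝ) ^ (m - i)) := by
    intro u hu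
    rw [mem_Mn] at hu
    have h3 := h1 u hu.1 (by rw [hu.2]; exact hi)
    rw [hu.2] at h3
    rw [abs_mul, abs_mul, abs_of_nonneg (Nat.cast_nonneg (m - i) : (0 : ℝ) ≤ ((m - i : ℕ) : ℝ))]
    have h4 : ((m - i : ℕ) : ℝ) ≤ m := by exact_mod_cast Nat.sub_le m i
    calc |(mob u : ℝ)| * (((m - i : ℕ) : ℝ) * |∑ f ∈ Mn K (m - i), g (u * f)|) ≤
        1 * ((m : ℝ) * (E₁ * (Fintype.card K : ℝ) ^ (m - i))) := by
          refine mul_le_mul (abs_mob u) ?_ (by positivity) zero_le_one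
          exact mul_le_mul h4 h3 (abs_nonneg _) (Nat.cast_nonneg m)
      _ = _ := one_mul _
  refine (Finset.sum_le_sum h2).trans ?_
  rw [sum_const_Mn]
  have h5 : (Fintype.card K : ℝ) ^ m = (Fintype.card K : ℝ) ^ i * (Fintype.card K : ℝ) ^ (m - i) := by
    rw [← pow_add]
    congr 1
    omega
  rw [h5]
  exact le_of_eq (by ring)

theorem sum_vm_Mn_le (j : ℕ) : ∑ w ∈ Mn K j, (vm w : ℝ) ≤ (Fintype.card K : ℝ) ^ j * j := by
  rw [← sum_const_Mn]
  refine Finset.sum_le_sum fun w hw => ?_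
  rw [mem_Mn] at hw
  have := vm_le w
  rw [hw.2] at this
  exact_mod_cast this

/-- the entries with small degrees -/
theorem small_le (m : ℕ) (g : K[X] → ℝ) (E₁ : ℝ) (hE : 0 ≤ E₁) (i j : ℕ) (hij : 4 * (i + j) ≤ m)
    (h1 : ∀ u : K[X], u.Monic → 4 * u.natDegree ≤ m →
      |∑ B ∈ Mn K (m - u.natDegree), g (u * B)| ≤ E₁ * (Fintype.card K : ℝ) ^ (m - u.natDegree)) :
    |aa m g i j| ≤ m * E₁ * (Fintype.card K : ℝ) ^ m := by
  unfold aa
  refine (Finset.abs_sum_le_sum_abs _ _).trans ?_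
  have h2 : ∀ u ∈ Mn K i, |∑ w ∈ Mn K j, ∑ B ∈ Mn K (m - i - j),
      (mob u : ℝ) * (vm w : ℝ) * g (u * w * B)| ≤
      (Fintype.card K : ℝ) ^ j * j * (E₁ * (Fintype.card K : ℝ) ^ (m - i - j)) := by
    intro u hu
    rw [mem_Mn] at hu
    refine (Finset.abs_sum_le_sum_abs _ _).trans ?_
    have h3 : ∀ w ∈ Mn K j, |∑ B ∈ Mn K (m - i - j), (mob u : ℝ) * (vm w : ℝ) * g (u * w * B)| ≤
        (vm w : ℝ) * (E₁ * (Fintype.card K : ℝ) ^ (m - i - j)) := by
      intro w hw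
      rw [mem_Mn] at hw
      have hd : (u * w).natDegree = i + j := by
        rw [hu.1.natDegree_mul hw.1, hu.2, hw.2]
      have h4 := h1 (u * w) (hu.1.mul hw.1) (by rw [hd]; exact hij)
      rw [hd, ← Nat.sub_sub] at h4
      rw [← Finset.mul_sum, abs_mul, abs_mul,
        abs_of_nonneg (Nat.cast_nonneg (vm w) : (0 : ℝ) ≤ ((vm w : ℕ) : ℝ))]
      calc |(mob u : ℝ)| * (vm w : ℝ) * |∑ B ∈ Mn K (m - i - j), g (u * w * B)| ≤
          1 * (vm w : ℝ) * (E₁ * (Fintype.card K : ℝ) ^ (m - i - j)) := by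
            refine mul_le_mul ?_ h4 (abs_nonneg _) (by positivity)
            exact mul_le_mul_of_nonneg_right (abs_mob u) (Nat.cast_nonneg _)
        _ = _ := by rw [one_mul]
    refine (Finset.sum_le_sum h3).trans ?_
    rw [← Finset.sum_mul]
    exact mul_le_mul_of_nonneg_right (sum_vm_Mn_le j) (by positivity)
  refine (Finset.sum_le_sum h2).trans ?_
  rw [sum_const_Mn]
  have h5 : (Fintype.card K : ℝ) ^ m = (Fintype.card K : ℝ) ^ i * (Fintype.card K : ℝ) ^ j *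
      (Fintype.card K : ℝ) ^ (m - i - j) := by
    rw [← pow_add, ← pow_add]
    congr 1
    omega
  have h6 : (j : ℝ) ≤ m := by
    have : j ≤ m := by omega
    exact_mod_cast this
  rw [h5]
  calc (Fintype.card K : ℝ) ^ i * ((Fintype.card K : ℝ) ^ j * j *
      (E₁ * (Fintype.card K : ℝ) ^ (m - i - j))) = (j : ℝ) * (E₁ * ((Fintype.card K : ℝ) ^ i *
        (Fintype.card K : ℝ) ^ j * (Fintype.card K : ℝ) ^ (m - i - j))) := by ring
    _ ≤ (m : ℝ) * (E₁ * ((Fintype.card K : ℝ) ^ i *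
        (Fintype.card K : ℝ) ^ j * (Fintype.card K : ℝ) ^ (m - i - j))) :=
        mul_le_mul_of_nonneg_right h6 (by positivity)
    _ = _ := by ring

/-- the coefficients of the second variable -/
noncomputable def bt (m i j : ℕ) (B : K[X]) : ℝ :=
  if B ∈ Mn K (m - i) then (∑ w ∈ (Mn K j).filter (fun w => w ∣ B), (vm w : ℝ)) / m else 0

theorem bt_le (m i j : ℕ) (hm : 1 ≤ m) (B : K[X]) : |bt m i j B| ≤ 1 := by
  unfold bt
  split_ifs with h
  · rw [mem_Mn] at h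
    have h0 : (0 : ℝ) < m := by exact_mod_cast hm
    rw [abs_of_nonneg (by positivity), div_le_one h0]
    have h1 : (Mn K j).filter (fun w => w ∣ B) ⊆ Dv B := by
      intro w hw
      rw [Finset.mem_filter, mem_Mn] at hw
      rw [mem_Dv h.1.ne_zero]
      exact ⟨hw.1.1, hw.2⟩
    calc ∑ w ∈ (Mn K j).filter (fun w => w ∣ B), (vm w : ℝ) ≤ ∑ w ∈ Dv B, (vm w : ℝ) :=
          Finset.sum_le_sum_of_subset_of_nonneg h1 fun _ _ _ => Nat.cast_nonneg _
      _ = ((m - i : ℕ) : ℝ) := by rw [← Nat.cast_sum, sum_vm _ B h.1 h.2]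
      _ ≤ m := by exact_mod_cast Nat.sub_le m i
  · rw [abs_zero]
    exact zero_le_one

theorem aa_eq (m : ℕ) (hm : 1 ≤ m) (g : K[X] → ℝ) (i j : ℕ) (hij : i + j ≤ m) :
    aa m g i j = (m : ℝ) * ∑ A ∈ Mn K i, ∑ B ∈ Mn K (m - i),
      (mob A : ℝ) * bt m i j B * g (A * B) := by
  have h0 : (m : ℝ) ≠ 0 := by
    have : m ≠ 0 := by omega
    exact_mod_cast this
  unfold aa
  rw [Finset.mul_sum]
  refine Finset.sum_congr rfl fun u _ => ?_
  have h1 : ∑ w ∈ Mn K j, ∑ B ∈ Mn K (m - i - j), (mob u : ℝ) * (vm w : ℝ) * g (u * w * B) =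
      ∑ w ∈ Mn K j, ∑ B ∈ Mn K (m - i - j), (mob u : ℝ) * (vm w : ℝ) * g (u * (w * B)) := by
    refine Finset.sum_congr rfl fun w _ => Finset.sum_congr rfl fun B _ => ?_
    rw [mul_assoc u w B]
  rw [h1, pair (m - i) j (by omega) fun w f => (mob u : ℝ) * (vm w : ℝ) * g (u * f),
    Finset.mul_sum]
  refine Finset.sum_congr rfl fun B hB => ?_
  unfold bt
  rw [if_pos hB, ← Finset.sum_mul, ← Finset.mul_sum]
  field_simp

/-- the entries with large degrees -/
theorem large_le (m : ℕ) (hm : 1 ≤ m) (g : K[X] → ℝ) (E₂ : ℝ) (i j : ℕ)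
    (hij : i + j ≤ m) (hi : m < 8 * i) (hj : m < 8 * j)
    (h2 : ∀ j : ℕ, m ≤ 8 * (j + 1) → 2 * j ≤ m → ∀ α β : K[X] → ℝ, (∀ A, |α A| ≤ 1) →
      (∀ B, |β B| ≤ 1) →
      |∑ A ∈ Mn K j, ∑ B ∈ Mn K (m - j), α A * β B * g (A * B)| ≤
        E₂ * (Fintype.card K : ℝ) ^ m) :
    |aa m g i j| ≤ m * E₂ * (Fintype.card K : ℝ) ^ m := by
  rw [aa_eq m hm g i j hij, abs_mul, abs_of_nonneg (Nat.cast_nonneg m), mul_assoc]
  refine mul_le_mul_of_nonneg_left ?_ (Nat.cast_nonneg m)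
  by_cases h : 2 * i ≤ m
  · exact h2 i (by omega) h (fun A => (mob A : ℝ)) (bt m i j) abs_mob (bt_le m i j hm)
  · have h3 := h2 (m - i) (by omega) (by omega) (bt m i j) (fun A => (mob A : ℝ)) (bt_le m i j hm)
      abs_mob
    rw [show m - (m - i) = i by omega, Finset.sum_comm] at h3
    refine le_trans (le_of_eq ?_) h3
    congr 1
    refine Finset.sum_congr rfl fun A _ => Finset.sum_congr rfl fun B _ => ?_
    rw [mul_comm B A]
    ring

/-- the von Mangoldt sum -/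
theorem vm_le_sum (m : ℕ) (hm : 8 ≤ m) (g : K[X] → ℝ) (E₁ E₂ : ℝ) (hE₁ : 0 ≤ E₁) (hE₂ : 0 ≤ E₂)
    (h1 : ∀ u : K[X], u.Monic → 4 * u.natDegree ≤ m →
      |∑ B ∈ Mn K (m - u.natDegree), g (u * B)| ≤ E₁ * (Fintype.card K : ℝ) ^ (m - u.natDegree))
    (h2 : ∀ j : ℕ, m ≤ 8 * (j + 1) → 2 * j ≤ m → ∀ α β : K[X] → ℝ, (∀ A, |α A| ≤ 1) →
      (∀ B, |β B| ≤ 1) →
      |∑ A ∈ Mn K j, ∑ B ∈ Mn K (m - j), α A * β B * g (A * B)| ≤
        E₂ * (Fintype.card K : ℝ) ^ m) :
    |∑ f ∈ Mn K m, (vm f : ℝ) * g f| ≤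
      (m + 1) ^ 2 * (m * (2 * E₁ + E₂) * (Fintype.card K : ℝ) ^ m) := by
  have hm0 : (0 : ℝ) ≤ m := Nat.cast_nonneg m
  set Q : ℝ := (Fintype.card K : ℝ) ^ m with hQ
  have hQ0 : 0 ≤ Q := by positivity
  rw [vaughan m (m / 8) (by omega) g]
  have b1 : |∑ i ∈ range (m + 1),
      (if i ≤ m / 8 then ∑ j ∈ range (m - i + 1), aa m g i j else 0)| ≤
      (m + 1) ^ 2 * (m * E₁ * Q) := by
    refine (Finset.abs_sum_le_sum_abs _ _).trans ?_
    have h3 : ∀ i ∈ range (m + 1),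
        |if i ≤ m / 8 then ∑ j ∈ range (m - i + 1), aa m g i j else 0| ≤ m * E₁ * Q := by
      intro i _
      split_ifs with h
      · exact row_le m g E₁ hE₁ i (by omega) h1
      · rw [abs_zero]
        positivity
    refine (Finset.sum_le_sum h3).trans ?_
    rw [Finset.sum_const, Finset.card_range, nsmul_eq_mul]
    push_cast
    refine mul_le_mul_of_nonneg_right ?_ (by positivity)
    nlinarith
  have gen : ∀ (c : ℕ → ℕ → ℝ) (M : ℝ), 0 ≤ M →
      (∀ i ∈ range (m + 1), ∀ j ∈ range (m - i + 1), |c i j| ≤ M) →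
      |∑ i ∈ range (m + 1), ∑ j ∈ range (m - i + 1), c i j| ≤ (m + 1) ^ 2 * M := by
    intro c M hM hc
    refine (Finset.abs_sum_le_sum_abs _ _).trans ?_
    have h3 : ∀ i ∈ range (m + 1), |∑ j ∈ range (m - i + 1), c i j| ≤ ((m : ℝ) + 1) * M := by
      intro i hi
      refine (Finset.abs_sum_le_sum_abs _ _).trans ?_
      refine (Finset.sum_le_sum (hc i hi)).trans ?_
      rw [Finset.sum_const, Finset.card_range, nsmul_eq_mul]
      refine mul_le_mul_of_nonneg_right ?_ hM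
      have : m - i + 1 ≤ m + 1 := by omega
      exact_mod_cast this
    refine (Finset.sum_le_sum h3).trans ?_
    rw [Finset.sum_const, Finset.card_range, nsmul_eq_mul]
    push_cast
    exact le_of_eq (by ring)
  have b3 : |∑ i ∈ range (m + 1), ∑ j ∈ range (m - i + 1),
      (if i ≤ m / 8 ∧ j ≤ m / 8 then aa m g i j else 0)| ≤ (m + 1) ^ 2 * (m * E₁ * Q) := by
    refine gen _ _ (by positivity) fun i _ j _ => ?_
    split_ifs with h
    · exact small_le m g E₁ hE₁ i j (by omega) h1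
    · rw [abs_zero]
      positivity
  have b4 : |∑ i ∈ range (m + 1), ∑ j ∈ range (m - i + 1),
      (if ¬ i ≤ m / 8 ∧ ¬ j ≤ m / 8 then aa m g i j else 0)| ≤ (m + 1) ^ 2 * (m * E₂ * Q) := by
    refine gen _ _ (by positivity) fun i hi j hj => ?_
    rw [Finset.mem_range] at hi hj
    split_ifs with h
    · exact large_le m (by omega) g E₂ i j (by omega) (by omega) (by omega) h2
    · rw [abs_zero]
      positivity
  refine (abs_add_le _ _).trans ?_
  have h5 := abs_sub (∑ i ∈ range (m + 1),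
      (if i ≤ m / 8 then ∑ j ∈ range (m - i + 1), aa m g i j else 0))
      (∑ i ∈ range (m + 1), ∑ j ∈ range (m - i + 1),
        (if i ≤ m / 8 ∧ j ≤ m / 8 then aa m g i j else 0))
  nlinarith [h5, b1, b3, b4]

end

theorem main : Pool.Agent.H526.PQ.S_vau := by
  intro K _ _ m g E₁ E₂ hm hg hE₁ hE₂ h1 h2
  have h3 := vm_le_sum m hm g E₁ E₂ hE₁ hE₂ h1 h2
  have h4 := sum_pow (K := K) m
  have hm0 : (0 : ℝ) < m := by
    have : 0 < m := by omega
    exact_mod_cast this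
  have hm8 : (8 : ℝ) ≤ m := by exact_mod_cast hm
  have hq : (1 : ℝ) ≤ (Fintype.card K : ℝ) := by
    have : 1 ≤ Fintype.card K := Fintype.card_pos
    exact_mod_cast this
  have hq0 : (0 : ℝ) < (Fintype.card K : ℝ) := by linarith
  -- split
  have hs1 : ∑ f ∈ Mn K m, (vm f : ℝ) * g f =
      ∑ f ∈ (Mn K m).filter (fun f => Irreducible f), (vm f : ℝ) * g f +
      ∑ f ∈ (Mn K m).filter (fun f => ¬ Irreducible f), (vm f : ℝ) * g f :=
    (Finset.sum_filter_add_sum_filter_not _ _ _).symm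
  have hs2 : ∑ f ∈ (Mn K m).filter (fun f => Irreducible f), (vm f : ℝ) * g f =
      m * ∑ P ∈ Irn K m, g P := by
    rw [Finset.mul_sum]
    refine Finset.sum_congr ?_ ?_
    · ext f
      rw [Finset.mem_filter, mem_Mn, mem_Irn]
      tauto
    · intro f hf
      rw [mem_Irn] at hf
      rw [vm_irr hf.1 hf.2.2, hf.2.1]
  have hs3 : |∑ f ∈ (Mn K m).filter (fun f => ¬ Irreducible f), (vm f : ℝ) * g f| ≤
      m * (Fintype.card K : ℝ) ^ (m / 2 + 1) := by
    refine (Finset.abs_sum_le_sum_abs _ _).trans (le_trans ?_ h4)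
    refine Finset.sum_le_sum fun f _ => ?_
    rw [abs_mul, abs_of_nonneg (Nat.cast_nonneg _)]
    exact mul_le_of_le_one_right (Nat.cast_nonneg _) (hg f)
  have h5 : m * |∑ P ∈ Irn K m, g P| ≤
      (m + 1) ^ 2 * (m * (2 * E₁ + E₂) * (Fintype.card K : ℝ) ^ m) +
        m * (Fintype.card K : ℝ) ^ (m / 2 + 1) := by
    have e1 : m * |∑ P ∈ Irn K m, g P| = |∑ f ∈ Mn K m, (vm f : ℝ) * g f -
        ∑ f ∈ (Mn K m).filter (fun f => ¬ Irreducible f), (vm f : ℝ) * g f| := by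
      rw [hs1, hs2, add_sub_cancel_right, abs_mul, abs_of_nonneg hm0.le]
    rw [e1]
    exact (abs_sub _ _).trans (add_le_add h3 hs3)
  have h6 : (Fintype.card K : ℝ) ^ (m / 2 + 1) ≤
      (Fintype.card K : ℝ) ^ (-(m : ℝ) / 8) * (Fintype.card K : ℝ) ^ m := by
    rw [← Real.rpow_natCast, ← Real.rpow_natCast, ← Real.rpow_add hq0]
    refine Real.rpow_le_rpow_of_exponent_le hq ?_
    have e2 : ((m / 2 : ℕ) : ℝ) ≤ (m : ℝ) / 2 := Nat.cast_div_le
    push_cast
    linarith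
  have h7 : m * |∑ P ∈ Irn K m, g P| ≤ m * (8 * (m : ℝ) ^ 2 *
      (E₁ + E₂ + (Fintype.card K : ℝ) ^ (-(m : ℝ) / 8)) * (Fintype.card K : ℝ) ^ m) := by
    refine h5.trans ?_
    set Q : ℝ := (Fintype.card K : ℝ) ^ m with hQ
    set R : ℝ := (Fintype.card K : ℝ) ^ (-(m : ℝ) / 8) with hR
    have hQ0 : 0 ≤ Q := by positivity
    have hR0 : 0 ≤ R := by positivity
    have e3 : ((m : ℝ) + 1) ^ 2 ≤ 4 * (m : ℝ) ^ 2 := by nlinarith
    have e4 : ((m : ℝ) + 1) ^ 2 * (m * (2 * E₁ + E₂) * Q) ≤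
        4 * (m : ℝ) ^ 2 * (m * (2 * E₁ + 2 * E₂) * Q) := by
      refine mul_le_mul e3 ?_ (by positivity) (by positivity)
      refine mul_le_mul_of_nonneg_right ?_ hQ0
      refine mul_le_mul_of_nonneg_left ?_ hm0.le
      linarith
    have e5 : m * (Fintype.card K : ℝ) ^ (m / 2 + 1) ≤ m * (8 * (m : ℝ) ^ 2 * (R * Q)) := by
      refine mul_le_mul_of_nonneg_left (h6.trans ?_) hm0.le
      have e6 : (1 : ℝ) ≤ 8 * (m : ℝ) ^ 2 := by nlinarith
      exact le_mul_of_one_le_left (by positivity) e6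
    nlinarith [e4, e5]
  exact le_of_mul_le_mul_left h7 hm0

end Pool.Agent.H526.PQ.Vau
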