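import Pool.Agent.H526.PQ.StmK

/-!
# Task VPR: the local densities (helper376, for helper526)
-/

namespace Pool.Agent.H526.PQ.Vpr

open Polynomial Finset
open scoped Classical
open Pool.Agent.H526.PQ
open Pool.Agent.H694.Typ (Mn Irn PU mem_PU mem_Irn sum_PU irn_one_le q_ge pol pol_degree pol_inj
  exists_pol geo_half_le)

section num

variable {K : Type} [Field K] [Fintype K] [CharP K 2] {n : ℕ} (g : Fin n → K[X])

/-- The residues. -/
noncomputable def Rs (K : Type) [Field K] [Fintype K] (d : ℕ) : Finset K[X] :=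
  Finset.univ.image (pol : (Fin d → K) → K[X])

theorem mem_Rs {d : ℕ} {f : K[X]} : f ∈ Rs K d ↔ f.degree < (d : WithBot ℕ) := by
  unfold Rs
  rw [Finset.mem_image]
  constructor
  · rintro ⟨c, -, rfl⟩
    exact pol_degree c
  · intro h
    obtain ⟨c, hc⟩ := exists_pol h
    exact ⟨c, Finset.mem_univ _, hc⟩

theorem card_Rs (d : ℕ) : (Rs K d).card = Fintype.card K ^ d := by
  unfold Rs
  rw [Finset.card_image_of_injective _ pol_inj, Finset.card_univ, Fintype.card_fun,
    Fintype.card_fin]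

theorem nuR_le_n {π : K[X]} (hπ : Irreducible π) : nuR g π ≤ n := by
  unfold nuR
  let f : K[X] → ℕ := fun r =>
    if h : (∃ i : Fin n, π ∣ r ^ 2 + X * g i ^ 2) then (h.choose : ℕ) else 0
  have h1 := Set.ncard_le_ncard_of_injOn
    (s := {r : K[X] | r.degree < π.degree ∧ r ≠ 0 ∧ ∃ i, π ∣ r ^ 2 + X * g i ^ 2})
    (t := (↑(Finset.range n) : Set ℕ)) f ?_ ?_ (Finset.finite_toSet _)
  · rw [Set.ncard_coe_finset, Finset.card_range] at h1
    exact h1
  · rintro r ⟨-, -, hr⟩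
    rw [Finset.mem_coe, Finset.mem_range]
    have e : f r = (hr.choose : ℕ) := dif_pos hr
    rw [e]
    exact hr.choose.2
  · rintro r ⟨hr1, -, hr3⟩ r' ⟨hr1', -, hr3'⟩ hrr
    have e : f r = (hr3.choose : ℕ) := dif_pos hr3
    have e' : f r' = (hr3'.choose : ℕ) := dif_pos hr3'
    have e2 : hr3.choose = hr3'.choose := Fin.ext (e.symm.trans (hrr.trans e'))
    have h3 := hr3.choose_spec
    have h3' := hr3'.choose_spec
    rw [← e2] at h3'
    have h4 : π ∣ (r - r') ^ 2 := by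
      have h5 := dvd_sub h3 h3'
      have h6 : r ^ 2 + X * g hr3.choose ^ 2 - (r' ^ 2 + X * g hr3.choose ^ 2) = (r - r') ^ 2 := by
        have h7 : (2 : K[X]) = 0 := CharTwo.two_eq_zero
        linear_combination (r * r' - r' ^ 2) * h7
      rwa [h6] at h5
    have h5 : π ∣ r - r' := hπ.prime.dvd_of_dvd_pow h4
    have h6 : (r - r').degree < π.degree :=
      lt_of_le_of_lt (degree_sub_le _ _) (max_lt hr1 hr1')
    exact sub_eq_zero.1 (eq_zero_of_dvd_of_degree_lt h5 h6)

theorem nuR_le_Q {π : K[X]} (hπ : Irreducible π) (hA : Adm g) :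
    (nuR g π : ℝ) ≤ ((Fintype.card K : ℝ) ^ π.natDegree - 1) - 1 := by
  obtain ⟨r, hr, hri⟩ := hA π hπ
  have e1 : r % π = r - π * (r / π) := by
    have := EuclideanDomain.div_add_mod r π
    linear_combination this
  have h0 : r % π ≠ 0 := by
    intro h
    apply hr
    rw [h] at e1
    exact ⟨r / π, by linear_combination -e1⟩
  have hdeg : π.degree = (π.natDegree : WithBot ℕ) := degree_eq_natDegree hπ.ne_zero
  have hd0 : (r % π) ∈ Rs K π.natDegree := by
    rw [mem_Rs, ← hdeg]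
    exact degree_mod_lt r hπ.ne_zero
  have h00 : (0 : K[X]) ∈ Rs K π.natDegree := by
    rw [mem_Rs, degree_zero]
    exact WithBot.bot_lt_coe _
  have hsub : {r : K[X] | r.degree < π.degree ∧ r ≠ 0 ∧ ∃ i, π ∣ r ^ 2 + X * g i ^ 2} ⊆
      (↑(((Rs K π.natDegree).erase 0).erase (r % π)) : Set K[X]) := by
    rintro s ⟨h1, h2, i, h3⟩
    rw [Finset.mem_coe, Finset.mem_erase, Finset.mem_erase, mem_Rs, ← hdeg]
    refine ⟨?_, h2, h1⟩
    rintro rfl
    apply hri i
    have h4 : r ^ 2 + X * g i ^ 2 = ((r % π) ^ 2 + X * g i ^ 2) +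
        π * ((r / π) * (r + r % π)) := by
      rw [e1]
      ring
    rw [h4]
    exact dvd_add h3 (dvd_mul_right _ _)
  have h1 := Set.ncard_le_ncard hsub (Finset.finite_toSet _)
  have h2 : r % π ∈ (Rs K π.natDegree).erase 0 := Finset.mem_erase.2 ⟨h0, hd0⟩
  rw [Set.ncard_coe_finset] at h1
  have h3 : (((Rs K π.natDegree).erase 0).erase (r % π)).card + 1 + 1 =
      Fintype.card K ^ π.natDegree := by
    rw [Finset.card_erase_add_one h2, Finset.card_erase_add_one h00, card_Rs]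
  have h4 : nuR g π + 1 + 1 ≤ Fintype.card K ^ π.natDegree := by
    rw [← h3]
    unfold nuR
    omega
  have h5 : (nuR g π : ℝ) + 1 + 1 ≤ (Fintype.card K : ℝ) ^ π.natDegree := by exact_mod_cast h4
  linarith

theorem V_ge {π : K[X]} (hπ : Irreducible π) :
    (Fintype.card K : ℝ) ^ π.natDegree / 2 ≤ (Fintype.card K : ℝ) ^ π.natDegree - 1 ∧
      1 ≤ (Fintype.card K : ℝ) ^ π.natDegree - 1 := by
  have hq := q_ge (k := K)
  have h1 : (2 : ℝ) ≤ (Fintype.card K : ℝ) ^ π.natDegree := by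
    have h2 := pow_le_pow_right₀ (by linarith : (1 : ℝ) ≤ (Fintype.card K : ℝ)) hπ.natDegree_pos
    rw [Nat.succ_eq_add_one, zero_add, pow_one] at h2
    linarith
  constructor <;> linarith

/-- the local density -/
noncomputable def tt (π : K[X]) : ℝ := (nuR g π : ℝ) / ((Fintype.card K : ℝ) ^ π.natDegree - 1)

theorem tt_nonneg {π : K[X]} (hπ : Irreducible π) : 0 ≤ tt g π := by
  have := (V_ge hπ).2
  unfold tt
  positivity

theorem tt_le {π : K[X]} (hπ : Irreducible π) :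
    tt g π ≤ 2 * n / (Fintype.card K : ℝ) ^ π.natDegree := by
  have h1 := V_ge hπ
  have hq := q_ge (k := K)
  have hQ : (0 : ℝ) < (Fintype.card K : ℝ) ^ π.natDegree := by positivity
  have h2 : (nuR g π : ℝ) ≤ n := by exact_mod_cast nuR_le_n g hπ
  unfold tt
  rw [div_le_div_iff₀ (by linarith) hQ]
  have h3 : (0 : ℝ) ≤ nuR g π := Nat.cast_nonneg _
  nlinarith

theorem tt_le' {π : K[X]} (hπ : Irreducible π) :
    tt g π ≤ n * (1 / (Fintype.card K : ℝ) ^ π.natDegree +
      2 / ((Fintype.card K : ℝ) ^ π.natDegree) ^ 2) := by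
  have h1 := V_ge hπ
  have hq := q_ge (k := K)
  have hQ : (0 : ℝ) < (Fintype.card K : ℝ) ^ π.natDegree := by positivity
  have h2 : (nuR g π : ℝ) ≤ n := by exact_mod_cast nuR_le_n g hπ
  have h3 : 1 / ((Fintype.card K : ℝ) ^ π.natDegree - 1) ≤
      1 / (Fintype.card K : ℝ) ^ π.natDegree + 2 / ((Fintype.card K : ℝ) ^ π.natDegree) ^ 2 := by
    obtain ⟨Q, hQQ⟩ : ∃ Q : ℝ, Q = (Fintype.card K : ℝ) ^ π.natDegree := ⟨_, rfl⟩
    rw [← hQQ] at h1 hQ ⊢
    have h4 : 1 / Q + 2 / Q ^ 2 = (Q + 2) / Q ^ 2 := by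
      field_simp
    rw [h4, div_le_div_iff₀ (by linarith) (by positivity)]
    nlinarith
  unfold tt
  calc (nuR g π : ℝ) / ((Fintype.card K : ℝ) ^ π.natDegree - 1) =
      nuR g π * (1 / ((Fintype.card K : ℝ) ^ π.natDegree - 1)) := by ring
    _ ≤ n * (1 / (Fintype.card K : ℝ) ^ π.natDegree +
      2 / ((Fintype.card K : ℝ) ^ π.natDegree) ^ 2) := by
        refine mul_le_mul h2 h3 ?_ (Nat.cast_nonneg _)
        have := h1.2
        positivity

theorem tt_le_one {π : K[X]} (hπ : Irreducible π) (hA : Adm g) :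
    tt g π ≤ 1 - 1 / (2 * n + 2 : ℝ) := by
  have h1 := V_ge hπ
  have h2 : (nuR g π : ℝ) ≤ n := by exact_mod_cast nuR_le_n g hπ
  have h3 := nuR_le_Q g hπ hA
  unfold tt
  obtain ⟨V, hV⟩ : ∃ V : ℝ, V = (Fintype.card K : ℝ) ^ π.natDegree - 1 := ⟨_, rfl⟩
  rw [← hV] at h1 h3 ⊢
  have hn : (0 : ℝ) ≤ n := Nat.cast_nonneg n
  have hV0 : 0 < V := by linarith [h1.2]
  rw [div_le_iff₀ hV0]
  have h4 : V / (2 * n + 2) ≤ V - nuR g π := by
    rw [div_le_iff₀ (by positivity)]
    rcases le_or_gt V (2 * n + 2) with h5 | h5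
    · nlinarith
    · have h6 : V / 2 ≤ V - nuR g π := by linarith
      nlinarith
  have h5 : (1 - 1 / (2 * n + 2 : ℝ)) * V = V - V / (2 * n + 2) := by ring
  rw [h5]
  linarith

theorem irn_card {j : ℕ} (hj : 1 ≤ j) :
    ((Irn K j).card : ℝ) ≤ (Fintype.card K : ℝ) ^ j * (1 / j) := by
  have h1 : (j : ℝ) * (Irn K j).card ≤ (Fintype.card K : ℝ) ^ j := by
    exact_mod_cast irn_one_le (k := K) (d := j) (by omega)
  have hj0 : (0 : ℝ) < j := by exact_mod_cast (show 0 < j by omega)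
  rw [mul_one_div, le_div_iff₀ hj0]
  linarith

/-- the sum over one degree -/
theorem sum_j {j : ℕ} (hj : 1 ≤ j) :
    ∑ π ∈ Irn K j, tt g π ≤ 2 * n / j ∧
    ∑ π ∈ Irn K j, tt g π ≤ n * (1 / j) + 2 * n * (1 / 2) ^ j ∧
    ∑ π ∈ Irn K j, tt g π ^ 2 ≤ 4 * n ^ 2 * (1 / 2) ^ j := by
  have hq := q_ge (k := K)
  have hQ : (0 : ℝ) < (Fintype.card K : ℝ) ^ j := by positivity
  have hj0 : (0 : ℝ) < j := by exact_mod_cast (show 0 < j by omega)
  have hj1 : (1 : ℝ) ≤ j := by exact_mod_cast hj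
  have hc := irn_card (K := K) hj
  have hn : (0 : ℝ) ≤ n := Nat.cast_nonneg n
  have hhalf : 1 / (Fintype.card K : ℝ) ^ j ≤ (1 / 2 : ℝ) ^ j := by
    rw [one_div_pow]
    exact one_div_le_one_div_of_le (by positivity) (pow_le_pow_left₀ (by norm_num) hq j)
  refine ⟨?_, ?_, ?_⟩
  · calc ∑ π ∈ Irn K j, tt g π ≤ ∑ π ∈ Irn K j, 2 * n / (Fintype.card K : ℝ) ^ j := by
          refine Finset.sum_le_sum fun π hπ => ?_
          rw [mem_Irn] at hπ
          have := tt_le g hπ.2.2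
          rwa [hπ.2.1] at this
      _ = (Irn K j).card * (2 * n / (Fintype.card K : ℝ) ^ j) := by
          rw [Finset.sum_const, nsmul_eq_mul]
      _ ≤ ((Fintype.card K : ℝ) ^ j * (1 / j)) * (2 * n / (Fintype.card K : ℝ) ^ j) := by
          gcongr
      _ = 2 * n / j := by field_simp
  · calc ∑ π ∈ Irn K j, tt g π ≤ ∑ π ∈ Irn K j, (n * (1 / (Fintype.card K : ℝ) ^ j +
          2 / ((Fintype.card K : ℝ) ^ j) ^ 2)) := by
          refine Finset.sum_le_sum fun π hπ => ?_
          rw [mem_Irn] at hπ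
          have := tt_le' g hπ.2.2
          rwa [hπ.2.1] at this
      _ = (Irn K j).card * (n * (1 / (Fintype.card K : ℝ) ^ j +
          2 / ((Fintype.card K : ℝ) ^ j) ^ 2)) := by
          rw [Finset.sum_const, nsmul_eq_mul]
      _ ≤ ((Fintype.card K : ℝ) ^ j * (1 / j)) * (n * (1 / (Fintype.card K : ℝ) ^ j +
          2 / ((Fintype.card K : ℝ) ^ j) ^ 2)) := by
          gcongr
      _ = n * (1 / j) + 2 * n * ((1 / (Fintype.card K : ℝ) ^ j) * (1 / j)) := by
          field_simp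
      _ ≤ n * (1 / j) + 2 * n * ((1 / 2) ^ j * 1) := by
          have h1 : 1 / (j : ℝ) ≤ 1 := by
            rw [div_le_one hj0]
            exact hj1
          gcongr
      _ = _ := by ring
  · calc ∑ π ∈ Irn K j, tt g π ^ 2 ≤ ∑ π ∈ Irn K j, (2 * n / (Fintype.card K : ℝ) ^ j) ^ 2 := by
          refine Finset.sum_le_sum fun π hπ => ?_
          rw [mem_Irn] at hπ
          have h1 := tt_le g hπ.2.2
          rw [hπ.2.1] at h1
          exact pow_le_pow_left₀ (tt_nonneg g hπ.2.2) h1 2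
      _ = (Irn K j).card * (2 * n / (Fintype.card K : ℝ) ^ j) ^ 2 := by
          rw [Finset.sum_const, nsmul_eq_mul]
      _ ≤ ((Fintype.card K : ℝ) ^ j * (1 / j)) * (2 * n / (Fintype.card K : ℝ) ^ j) ^ 2 := by
          gcongr
      _ = 4 * n ^ 2 * ((1 / (Fintype.card K : ℝ) ^ j) * (1 / j)) := by
          field_simp
          ring
      _ ≤ 4 * n ^ 2 * ((1 / 2) ^ j * 1) := by
          have h1 : 1 / (j : ℝ) ≤ 1 := by
            rw [div_le_one hj0]
            exact hj1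
          gcongr
      _ = _ := by ring

end num

theorem exp_le {C t : ℝ} (hC : 2 ≤ C) (ht : 0 ≤ t) (ht1 : t ≤ 1 - 1 / C) :
    Real.exp (-t - (2 + 4 * Real.log C) * t ^ 2) ≤ 1 - t := by
  have hlC : 0 ≤ Real.log C := Real.log_nonneg (by linarith)
  have hC0 : 0 < C := by linarith
  rcases le_or_gt t (1 / 2) with h | h
  · have h1 : Real.exp (-t - (2 + 4 * Real.log C) * t ^ 2) ≤ Real.exp (-(t + 2 * t ^ 2)) := by
      apply Real.exp_le_exp.2
      have : 0 ≤ 4 * Real.log C * t ^ 2 := by positivity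
      linarith
    refine h1.trans ?_
    rw [Real.exp_neg]
    have h2 := Real.add_one_le_exp (t + 2 * t ^ 2)
    have h3 : 0 < 1 - t := by linarith
    rw [inv_le_comm₀ (Real.exp_pos _) h3]
    refine le_trans ?_ h2
    rw [← one_div, div_le_iff₀ h3]
    nlinarith [mul_nonneg (sq_nonneg t) (by linarith : 0 ≤ 1 - 2 * t)]
  · have h1 : Real.exp (-t - (2 + 4 * Real.log C) * t ^ 2) ≤ Real.exp (-Real.log C) := by
      apply Real.exp_le_exp.2
      have h2 : 1 ≤ 4 * t ^ 2 := by nlinarith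
      have h3 : Real.log C * 1 ≤ Real.log C * (4 * t ^ 2) := mul_le_mul_of_nonneg_left h2 hlC
      nlinarith
    refine h1.trans ?_
    rw [Real.exp_neg, Real.exp_log hC0, ← one_div]
    linarith

theorem main : S_vpr := by
  intro K _ _ _ n g hA
  have hn : (0 : ℝ) ≤ n := Nat.cast_nonneg n
  have hl : 0 ≤ Real.log (2 * n + 2) := Real.log_nonneg (by linarith)
  obtain ⟨E, hE⟩ : ∃ E : ℝ, E = 3 * n + (2 + 4 * Real.log (2 * n + 2)) * (4 * n ^ 2) := ⟨_, rfl⟩
  have hexpE := Real.exp_pos E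
  refine ⟨(2 * n + 2) + 4 * n + Real.exp E, by positivity, ?_, ?_, ?_⟩
  · intro π hπ
    have h1 : tt g π ≤ 1 - 1 / (2 * n + 2 : ℝ) := tt_le_one g hπ hA
    refine le_trans h1 ?_
    have h2 : 1 / ((2 * n + 2) + 4 * n + Real.exp E) ≤ 1 / (2 * n + 2 : ℝ) :=
      one_div_le_one_div_of_le (by positivity) (by linarith)
    linarith
  · intro y z
    rw [Finset.sum_filter, sum_PU]
    have h1 : ∀ j ∈ Finset.Icc 1 z, ∑ π ∈ Irn K j, (if y < 2 * π.natDegree ∧ π.natDegree ≤ y then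
        (nuR g π : ℝ) / ((Fintype.card K : ℝ) ^ π.natDegree - 1) else 0) ≤
        if j ∈ Finset.Icc 1 y then 4 * n / (y : ℝ) else 0 := by
      intro j hj
      rw [Finset.mem_Icc] at hj
      by_cases h : y < 2 * j ∧ j ≤ y
      · rw [if_pos (Finset.mem_Icc.2 ⟨hj.1, h.2⟩)]
        have h2 : ∑ π ∈ Irn K j, (if y < 2 * π.natDegree ∧ π.natDegree ≤ y then
            (nuR g π : ℝ) / ((Fintype.card K : ℝ) ^ π.natDegree - 1) else 0) =
            ∑ π ∈ Irn K j, tt g π := by
          refine Finset.sum_congr rfl fun π hπ => ?_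
          rw [mem_Irn] at hπ
          rw [if_pos (by rw [hπ.2.1]; exact h)]
          rfl
        rw [h2]
        refine (sum_j g hj.1).1.trans ?_
        have hj0 : (0 : ℝ) < j := by exact_mod_cast (show 0 < j by omega)
        have hy0 : (0 : ℝ) < y := by exact_mod_cast (show 0 < y by omega)
        rw [div_le_div_iff₀ hj0 hy0]
        have h3 : (y : ℝ) ≤ 2 * j := by exact_mod_cast h.1.le
        nlinarith
      · have h2 : ∑ π ∈ Irn K j, (if y < 2 * π.natDegree ∧ π.natDegree ≤ y then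
            (nuR g π : ℝ) / ((Fintype.card K : ℝ) ^ π.natDegree - 1) else 0) = 0 := by
          refine Finset.sum_eq_zero fun π hπ => ?_
          rw [mem_Irn] at hπ
          rw [if_neg (by rw [hπ.2.1]; exact h)]
        rw [h2]
        split_ifs
        · positivity
        · exact le_rfl
    refine (Finset.sum_le_sum h1).trans ?_
    rw [← Finset.sum_filter, Finset.sum_const, nsmul_eq_mul]
    have h2 : ((Finset.Icc 1 z).filter (fun j => j ∈ Finset.Icc 1 y)).card ≤ y := by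
      refine (Finset.card_le_card (t := Finset.Icc 1 y) ?_).trans (by simp)
      intro j hj
      exact (Finset.mem_filter.1 hj).2
    have h3 : (((Finset.Icc 1 z).filter (fun j => j ∈ Finset.Icc 1 y)).card : ℝ) ≤ y := by
      exact_mod_cast h2
    rcases Nat.eq_zero_or_pos y with h0 | h0
    · rw [h0]
      simp only [Nat.cast_zero, div_zero, mul_zero]
      positivity
    · have hy0 : (0 : ℝ) < y := by exact_mod_cast h0
      calc _ ≤ (y : ℝ) * (4 * n / y) := by gcongr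
        _ = 4 * n := by field_simp
        _ ≤ _ := by linarith
  · intro z hz
    have hz0 : (0 : ℝ) < z := by exact_mod_cast (show 0 < z by omega)
    have hgeo : ∑ j ∈ Finset.Icc 1 z, (1 / 2 : ℝ) ^ j ≤ 1 := by
      have := geo_half_le 0 z
      rwa [zero_add, pow_zero] at this
    have hharm : ∑ j ∈ Finset.Icc 1 z, 1 / (j : ℝ) ≤ 1 + Real.log z := by
      have h1 := harmonic_le_one_add_log z
      rw [harmonic_eq_sum_Icc] at h1
      push_cast at h1
      simp only [one_div]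
      exact h1
    have hs1 : ∑ π ∈ PU K z, tt g π ≤ n * (1 + Real.log z) + 2 * n := by
      rw [sum_PU]
      refine (Finset.sum_le_sum fun j hj => (sum_j g (Finset.mem_Icc.1 hj).1).2.1).trans ?_
      rw [Finset.sum_add_distrib, ← Finset.mul_sum, ← Finset.mul_sum]
      have h1 : (n : ℝ) * ∑ j ∈ Finset.Icc 1 z, 1 / (j : ℝ) ≤ n * (1 + Real.log z) := by gcongr
      have h2 : 2 * (n : ℝ) * ∑ j ∈ Finset.Icc 1 z, (1 / 2 : ℝ) ^ j ≤ 2 * n * 1 := by gcongr
      linarith
    have hs2 : ∑ π ∈ PU K z, tt g π ^ 2 ≤ 4 * n ^ 2 := by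
      rw [sum_PU]
      refine (Finset.sum_le_sum fun j hj => (sum_j g (Finset.mem_Icc.1 hj).1).2.2).trans ?_
      rw [← Finset.mul_sum]
      calc 4 * (n : ℝ) ^ 2 * ∑ j ∈ Finset.Icc 1 z, (1 / 2 : ℝ) ^ j ≤ 4 * n ^ 2 * 1 := by gcongr
        _ = _ := by ring
    have hprod : Real.exp (∑ π ∈ PU K z,
        (-tt g π - (2 + 4 * Real.log (2 * n + 2)) * tt g π ^ 2)) ≤ vpR g z := by
      rw [Real.exp_sum]
      unfold vpR
      refine Finset.prod_le_prod (fun _ _ => (Real.exp_pos _).le) fun π hπ => ?_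
      rw [mem_PU] at hπ
      exact exp_le (by linarith) (tt_nonneg g hπ.2.1) (tt_le_one g hπ.2.1 hA)
    refine le_trans ?_ hprod
    have h1 : -(n * Real.log z) - E ≤ ∑ π ∈ PU K z,
        (-tt g π - (2 + 4 * Real.log (2 * n + 2)) * tt g π ^ 2) := by
      rw [Finset.sum_sub_distrib, ← Finset.mul_sum, Finset.sum_neg_distrib, hE]
      have h2 : (2 + 4 * Real.log (2 * n + 2)) * ∑ π ∈ PU K z, tt g π ^ 2 ≤
          (2 + 4 * Real.log (2 * n + 2)) * (4 * n ^ 2) := by gcongr
      linarith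
    refine le_trans ?_ (Real.exp_le_exp.2 h1)
    have h2 : Real.exp (-(n * Real.log z) - E) = 1 / (Real.exp E * (z : ℝ) ^ n) := by
      have h3 : (z : ℝ) ^ n = Real.exp (n * Real.log z) := by
        rw [Real.exp_nat_mul, Real.exp_log hz0]
      rw [h3, ← Real.exp_add, one_div, ← Real.exp_neg]
      congr 1
      ring
    rw [h2]
    apply one_div_le_one_div_of_le (by positivity)
    have h3 : Real.exp E ≤ (2 * n + 2) + 4 * n + Real.exp E := by linarith
    gcongr

end Pool.Agent.H526.PQ.Vpr
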