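import Pool.Agent.H526.PQ.Cube2
import Pool.Agent.H526.PQ.Weyl2
import Pool.Agent.H526.PQ.Phm
import Pool.Agent.H526.PQ.TiikAsm
import Pool.Agent.H526.PQ.Katai
import Pool.Agent.H526.PQ.OrthkAsm
import Pool.Agent.H526.PQ.Vau
import Pool.Agent.H526.PQ.PrikAsm
import Pool.Agent.H526.PQ.Pap
import Pool.Agent.H526.PQ.SiftA
import Pool.Agent.H526.PQ.Vpr
import Pool.Agent.H526.PQ.SiftedAsm
import Pool.Agent.H526.PQ.PattAsm
import Pool.Agent.H524.LD.ParInfG
import Pool.Agent.H985.FC.Gcs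

/-!
# Project PQ: the final theorems
-/

namespace Pool.Agent.H526.PQ

theorem s_weyl2 : S_weyl2 := Weyl2.main Cube2.main Pool.Agent.H914.FC.gcs

theorem s_tiik : S_tiik := TiikAsm.main Pool.Agent.H524.LD.s_parinfg s_weyl2 Phm.main

theorem s_orthk : S_orthk := OrthkAsm.main s_tiik Katai.main

theorem s_prik : S_prik := PrikAsm.main s_tiik Vau.main

theorem s_sifted : S_sifted := SiftedAsm.main s_prik Pap.main SiftA.main Vpr.main

theorem s_patt : S_patt := PattAsm.main s_sifted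

end Pool.Agent.H526.PQ
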